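import Pool.Agent.Work.MP_7453a1_nt_sym.Interface

set_option autoImplicit false

/-!
Norms on the plane with a linear symmetry of order three: the six-term inequality.
-/

namespace Pool.Agent.Work.MP_7453a1_nt_sym

open Pool.Agent.Work.MP_7453a1_nt_norm Pool.Agent.Work.MP_7453a1_nt_h45 Filter
open scoped ENNReal

variable {N : Seminorm ℝ V} {Θ : V} {z : ℕ → Pt 2}

lemma N_double (v : Pt 2) : N (ev Θ (v + v)) = 2 * N (ev Θ v) := by
  rw [map_add (ev Θ), ← two_smul ℝ, map_smul_eq_mul]; norm_num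

/-- A scaled form of the comparison lemma. -/
lemma cmp_scaled {a u w : V} {r : ℝ} (hu : 0 < N u) (hau : N u ≤ N a) (h1 : N (w + u) < r)
    (h2 : N (w - u) < r) : N (w + a) < r + N a - N u ∨ N (w - a) < r + N a - N u := by
  have ha : 0 < N a := lt_of_lt_of_le hu hau
  have hc : 0 < N u / N a := by positivity
  have hc1 : N u / N a ≤ 1 := by rw [div_le_one ha]; exact hau
  have e : N ((N u / N a) • a) = N u := by
    rw [map_smul_eq_mul, Real.norm_of_nonneg hc.le, div_mul_cancel₀ _ ha.ne']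
  have e2 : (1 - N u / N a) * N a = N a - N u := by
    rw [sub_mul, div_mul_cancel₀ _ ha.ne', one_mul]
  rcases cmp (N := N) (a := (N u / N a) • a) (u := u) (w := w) e.le h1 h2 with h | h
  · left
    have k := map_add_le_add N (w + (N u / N a) • a) ((1 - N u / N a) • a)
    rw [show w + (N u / N a) • a + (1 - N u / N a) • a = w + a by module,
      map_smul_eq_mul N (1 - N u / N a), Real.norm_of_nonneg (by linarith), e2] at k
    linarith
  · right
    have k := map_sub_le_add N (w - (N u / N a) • a) ((1 - N u / N a) • a)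
    rw [show w - (N u / N a) • a - (1 - N u / N a) • a = w - a by module,
      map_smul_eq_mul N (1 - N u / N a), Real.norm_of_nonneg (by linarith), e2] at k
    linarith

namespace IsFrame2

lemma shift (h : IsFrame2 N Θ z) (i : ℕ) : IsFrame2 N Θ (fun j => z (i + j)) where
  pos k := h.pos _
  mono k l hkl := h.mono _ _ (by omega)
  anti k l hkl := h.anti _ _ (by omega)
  excl k w hw hq := h.excl (i + k) w hw hq
  zero w hw hq := by
    have h1 := h.zero w hw hq
    rcases Nat.eq_zero_or_pos i with rfl | hi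
    · simpa using h1
    · have := h.anti 0 (i + 0) (by omega)
      linarith

end IsFrame2

/-- The data of a bad exceptional step: `z₀ = y₀`, `z₁ = y₀ + x`, `z₂ = y₀ + u`,
`z₃ = y₀ + x + u`, and `M₋₃ < M₋₂ < M₋₁ < M₀` with `q(x) < M₋₂`. -/
structure Bad (N : Seminorm ℝ V) (Θ : V) (z : ℕ → Pt 2) (x u : Pt 2) : Prop
    extends IsFrame2 N Θ z where
  h4 : z 4 = z 3 + x
  h5 : z 5 = z 3 + u
  h6 : z 6 = z 3 + x + u
  qx : x.1 < (z 1).1
  E : (z 6).1 < (z 3).1 + (z 4).1

namespace Bad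

variable {x u : Pt 2}

lemma q4 (h : Bad N Θ z x u) : (z 4).1 = (z 3).1 + x.1 := by rw [h.h4]; rfl
lemma q5 (h : Bad N Θ z x u) : (z 5).1 = (z 3).1 + u.1 := by rw [h.h5]; rfl
lemma q6 (h : Bad N Θ z x u) : (z 6).1 = (z 3).1 + x.1 + u.1 := by rw [h.h6]; rfl

/-- All inequalities between denominators. -/
lemma qs (h : Bad N Θ z x u) : 0 < (z 0).1 ∧ (z 0).1 < (z 1).1 ∧ (z 1).1 < (z 2).1 ∧
    (z 2).1 < (z 3).1 ∧ 0 < x.1 ∧ x.1 < u.1 ∧ x.1 < (z 1).1 ∧ u.1 < (z 3).1 := by
  have m01 := h.mono 0 1 (by omega)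
  have m12 := h.mono 1 2 (by omega)
  have m23 := h.mono 2 3 (by omega)
  have m34 := h.mono 3 4 (by omega)
  have m45 := h.mono 4 5 (by omega)
  have p0 := h.pos 0
  have q4 := h.q4
  have q5 := h.q5
  have q6 := h.q6
  have qx := h.qx
  have E := h.E
  refine ⟨p0, m01, m12, m23, ?_, ?_, ?_, ?_⟩ <;> omega

lemma x0 (h : Bad N Θ z x u) {w : Pt 2} (hw : w ≠ 0) (hq : |w.1| < (z 1).1) :
    N (ev Θ (z 0)) ≤ N (ev Θ w) := h.excl 0 w hw hq
lemma x1 (h : Bad N Θ z x u) {w : Pt 2} (hw : w ≠ 0) (hq : |w.1| < (z 2).1) :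
    N (ev Θ (z 1)) ≤ N (ev Θ w) := h.excl 1 w hw hq
lemma x2 (h : Bad N Θ z x u) {w : Pt 2} (hw : w ≠ 0) (hq : |w.1| < (z 3).1) :
    N (ev Θ (z 2)) ≤ N (ev Θ w) := h.excl 2 w hw hq
lemma x3 (h : Bad N Θ z x u) {w : Pt 2} (hw : w ≠ 0) (hq : |w.1| < (z 4).1) :
    N (ev Θ (z 3)) ≤ N (ev Θ w) := h.excl 3 w hw hq

lemma ne_of_q {w : Pt 2} (h : w.1 ≠ 0) : w ≠ 0 := by
  intro h0; rw [h0] at h; exact h rfl

/-- All inequalities between the lengths. -/
lemma ls (h : Bad N Θ z x u) :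
    N (ev Θ (z 6)) < N (ev Θ (z 5)) ∧ N (ev Θ (z 5)) < N (ev Θ (z 4)) ∧
    N (ev Θ (z 4)) < N (ev Θ (z 3)) ∧ N (ev Θ (z 3)) < N (ev Θ (z 2)) ∧
    N (ev Θ (z 2)) < N (ev Θ (z 1)) ∧ N (ev Θ (z 1)) < N (ev Θ (z 0)) ∧
    N (ev Θ (z 0)) ≤ N (ev Θ x) ∧ N (ev Θ (z 2)) ≤ N (ev Θ u) := by
  obtain ⟨p0, m01, m12, m23, qx0, qxu, qx1, qu⟩ := h.qs
  refine ⟨h.anti 5 6 (by omega), h.anti 4 5 (by omega), h.anti 3 4 (by omega),
    h.anti 2 3 (by omega), h.anti 1 2 (by omega), h.anti 0 1 (by omega), ?_, ?_⟩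
  · exact h.x0 (ne_of_q (by omega)) (by rw [abs_lt]; constructor <;> omega)
  · exact h.x2 (ne_of_q (by omega)) (by rw [abs_lt]; constructor <;> omega)

lemma e4 (h : Bad N Θ z x u) : ev Θ (z 4) = ev Θ (z 3) + ev Θ x := by rw [h.h4, map_add (ev Θ)]
lemma e5 (h : Bad N Θ z x u) : ev Θ (z 5) = ev Θ (z 3) + ev Θ u := by rw [h.h5, map_add (ev Θ)]
lemma e6 (h : Bad N Θ z x u) : ev Θ (z 6) = ev Θ (z 3) + ev Θ x + ev Θ u := by
  rw [h.h6, map_add (ev Θ), map_add (ev Θ)]

/-- The planar configuration with `v = -e(u)`. -/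
lemma cfg (h : Bad N Θ z x u) : Cfg N (-ev Θ u) (ev Θ (z 3)) (ev Θ (z 4)) := by
  obtain ⟨l6, l5, l4, l3, l2, l1, lx, lu⟩ := h.ls
  refine ⟨l4, ?_, ?_, ?_, ?_⟩
  · rw [sub_neg_eq_add, ← h.e5]; exact l5
  · rw [sub_neg_eq_add, sub_neg_eq_add, ← h.e5, h.e4, ← h.e6]; exact l6
  · rw [map_neg_eq_map]; linarith
  · rw [h.e4, add_sub_cancel_left]; linarith

/-- The upper bounds for `x`, `u`, `x + u` and `x - u`. -/
lemma us (h : Bad N Θ z x u) : N (ev Θ x) < 2 * N (ev Θ (z 3)) ∧ N (ev Θ u) < 2 * N (ev Θ (z 3)) ∧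
    N (ev Θ x + ev Θ u) < 2 * N (ev Θ (z 3)) ∧ N (ev Θ x - ev Θ u) < 2 * N (ev Θ (z 3)) := by
  obtain ⟨l6, l5, l4, l3, l2, l1, lx, lu⟩ := h.ls
  have k1 := map_sub_le_add N (ev Θ (z 4)) (ev Θ (z 3))
  have k2 := map_sub_le_add N (ev Θ (z 5)) (ev Θ (z 3))
  have k3 := map_sub_le_add N (ev Θ (z 6)) (ev Θ (z 3))
  have k4 := map_sub_le_add N (ev Θ (z 4)) (ev Θ (z 5))
  rw [show ev Θ (z 4) - ev Θ (z 3) = ev Θ x by rw [h.e4]; abel] at k1
  rw [show ev Θ (z 5) - ev Θ (z 3) = ev Θ u by rw [h.e5]; abel] at k2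
  rw [show ev Θ (z 6) - ev Θ (z 3) = ev Θ x + ev Θ u by rw [h.e6]; abel] at k3
  rw [show ev Θ (z 4) - ev Θ (z 5) = ev Θ x - ev Θ u by rw [h.e4, h.e5]; abel] at k4
  refine ⟨?_, ?_, ?_, ?_⟩ <;> linarith

/-- No frame vector is twice an integer vector. -/
lemma ne_double (h : Bad N Θ z x u) (k : ℕ) (v : Pt 2) : z (k + 1) ≠ v + v := by
  intro hv
  have q : (z (k + 1)).1 = v.1 + v.1 := by rw [hv]; rfl
  have p := h.pos (k + 1)
  have k1 := h.excl k v (ne_of_q (by omega)) (by rw [abs_lt]; constructor <;> omega)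
  have k2 : N (ev Θ (z (k + 1))) = 2 * N (ev Θ v) := by rw [hv, N_double]
  have k3 := h.anti k (k + 1) (by omega)
  have k4 := apply_nonneg N (ev Θ v)
  unfold er at k1 k3
  linarith

/-- The classes modulo two. -/
lemma cls (h : Bad N Θ z x u) (w : Pt 2) :
    ∃ v, w = v + v ∨ w = z 3 + (v + v) ∨ w = x + (v + v) ∨ w = u + (v + v) ∨
      w = z 4 + (v + v) ∨ w = z 5 + (v + v) ∨ w = x + u + (v + v) ∨
      w = z 6 + (v + v) := by
  obtain ⟨p0, m01, m12, m23, qx0, qxu, qx1, qu⟩ := h.qs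
  obtain ⟨l6, l5, l4, l3, l2, l1, lx, lu⟩ := h.ls
  obtain ⟨ux, uu, uxu, _⟩ := h.us
  have q6 := h.q6
  have E := h.E
  have q4 := h.q4
  rw [h.h4, h.h5, h.h6]
  refine classes (h.ne_double 2) ?_ ?_ ?_ ?_ ?_ ?_ w
  · intro v hv
    have q : x.1 = v.1 + v.1 := by rw [hv]; rfl
    have k := h.x0 (w := v) (ne_of_q (by omega)) (by rw [abs_lt]; constructor <;> omega)
    have k2 : N (ev Θ x) = 2 * N (ev Θ v) := by rw [hv, N_double]
    linarith
  · intro v hv
    have q : u.1 = v.1 + v.1 := by rw [hv]; rfl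
    have k := h.x2 (w := v) (ne_of_q (by omega)) (by rw [abs_lt]; constructor <;> omega)
    have k2 : N (ev Θ u) = 2 * N (ev Θ v) := by rw [hv, N_double]
    linarith
  · rw [← h.h4]; exact h.ne_double 3
  · rw [← h.h5]; exact h.ne_double 4
  · intro v hv
    have q : x.1 + u.1 = v.1 + v.1 := by rw [← Prod.fst_add, hv]; rfl
    have k := h.x2 (w := v) (ne_of_q (by omega)) (by rw [abs_lt]; constructor <;> omega)
    have k2 : N (ev Θ x + ev Θ u) = 2 * N (ev Θ v) := by rw [← map_add (ev Θ), hv, N_double]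
    linarith
  · rw [← h.h6]; exact h.ne_double 5

/-- Half of a nonzero vector with small first coordinate: `N ≥ 2 L`. -/
lemma two_le (h : Bad N Θ z x u) (k l : ℕ) (hl : l = k + 1) {y w : Pt 2} (hy : y = w + w)
    (hw : w ≠ 0) (hq : |w.1| < (z l).1) : 2 * N (ev Θ (z k)) ≤ N (ev Θ y) := by
  have := h.excl k w hw (by rwa [← hl])
  unfold er at this
  rw [hy, N_double]; linarith

/-- `z₋₁ = u`. -/
theorem prev (h : Bad N Θ z x u) {R : V →ₗ[ℝ] V} (hS : Sym N R) (hK : Stmt_K) (hP : Stmt_P) :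
    z 2 = u := by
  obtain ⟨p0, m01, m12, m23, qx0, qxu, qx1, qu⟩ := h.qs
  obtain ⟨l6, l5, l4, l3, l2, l1, lx, lu⟩ := h.ls
  obtain ⟨ux, uu, uxu, uxu'⟩ := h.us
  have q4 := h.q4
  have q5 := h.q5
  have q6 := h.q6
  have E := h.E
  have n0 := apply_nonneg N (ev Θ (z 3))
  -- the possible values `x + u` and `u - x`
  have hsp1 : z 2 ≠ x + u := by
    intro hv
    have q : (z 2).1 = x.1 + u.1 := by rw [hv]; rfl
    have ev2 : ev Θ (z 2) = ev Θ x + ev Θ u := by rw [hv, map_add (ev Θ)]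
    have k := h.x1 (w := u) (ne_of_q (by omega)) (by rw [abs_lt]; constructor <;> omega)
    rcases hP N R (ev Θ (z 3)) (-ev Θ x) (-ev Θ u) hS
      (by rw [sub_neg_eq_add, ← h.e4]; exact l4) (by rw [sub_neg_eq_add, ← h.e5]; linarith)
      (by rw [map_neg_eq_map]; linarith) (by rw [map_neg_eq_map]; linarith) with k1 | k1
    · rw [← neg_add, map_neg_eq_map, map_neg_eq_map, ← ev2] at k1
      linarith
    · rw [← neg_add, map_neg_eq_map, map_neg_eq_map, ← ev2] at k1
      linarith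
  have hsp2 : z 2 ≠ u - x := by
    intro hv
    have k := hK N R _ _ _ hS h.cfg
    have e : ev Θ (z 4) - ev Θ (z 3) + -ev Θ u = -ev Θ (z 2) := by rw [hv, map_sub (ev Θ), h.e4]; abel
    rw [e, map_neg_eq_map, h.e4, add_sub_cancel_left] at k
    linarith
  obtain ⟨v, hv | hv | hv | hv | hv | hv | hv | hv⟩ := h.cls (z 2)
  · exact absurd hv (h.ne_double 1 v)
  · -- class of `z₀`
    exfalso
    have q : (z 2).1 = (z 3).1 + (v.1 + v.1) := by rw [hv]; rfl
    have k := h.x2 (w := v) (ne_of_q (by omega)) (by rw [abs_lt]; constructor <;> omega)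
    have k2 : ev Θ (v + v) = ev Θ (z 2) - ev Θ (z 3) := by rw [← map_sub (ev Θ), hv]; congr 1; abel
    have k3 := N_double (N := N) (Θ := Θ) v
    rw [k2] at k3
    have k4 := map_sub_le_add N (ev Θ (z 2)) (ev Θ (z 3))
    linarith
  · -- class of `x`
    exfalso
    have q : (z 2).1 = x.1 + (v.1 + v.1) := by rw [hv]; rfl
    rcases cmp (N := N) (a := ev Θ (z 2)) (u := ev Θ u) (w := ev Θ x)
      (r := 2 * N (ev Θ (z 3))) lu uxu uxu' with k | k
    · have k1 := h.two_le 2 3 rfl (y := x + z 2) (w := x + v) (by rw [hv]; abel)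
        (ne_of_q (by simp only [Prod.fst_add]; omega))
        (by simp only [Prod.fst_add]; rw [abs_lt]; constructor <;> omega)
      rw [map_add (ev Θ)] at k1
      linarith
    · have k1 := h.two_le 2 3 rfl (y := x - z 2) (w := -v) (by rw [hv]; abel)
        (ne_of_q (by simp only [Prod.fst_neg]; omega))
        (by simp only [Prod.fst_neg]; rw [abs_lt]; constructor <;> omega)
      rw [map_sub (ev Θ)] at k1
      linarith
  · -- class of `u`
    have q : (z 2).1 = u.1 + (v.1 + v.1) := by rw [hv]; rfl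
    by_contra hne
    have hv0 : v ≠ 0 := by intro h0; rw [h0, add_zero, add_zero] at hv; exact hne hv
    rcases cmp (N := N) (a := ev Θ (z 2)) (u := ev Θ x) (w := ev Θ u)
      (r := 2 * N (ev Θ (z 3))) (by linarith) (by rw [add_comm]; exact uxu)
      (by rw [map_sub_rev]; exact uxu') with k | k
    · have k1 := h.two_le 2 3 rfl (y := u + z 2) (w := u + v) (by rw [hv]; abel)
        (ne_of_q (by simp only [Prod.fst_add]; omega))
        (by simp only [Prod.fst_add]; rw [abs_lt]; constructor <;> omega)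
      rw [map_add (ev Θ)] at k1
      linarith
    · have k1 := h.two_le 2 3 rfl (y := u - z 2) (w := -v) (by rw [hv]; abel)
        (neg_ne_zero.mpr hv0)
        (by simp only [Prod.fst_neg]; rw [abs_lt]; constructor <;> omega)
      rw [map_sub (ev Θ)] at k1
      linarith
  · -- class of `z₁`
    exfalso
    have q : (z 2).1 = (z 4).1 + (v.1 + v.1) := by rw [hv]; rfl
    have k := h.x2 (w := v) (ne_of_q (by omega)) (by rw [abs_lt]; constructor <;> omega)
    have k2 : ev Θ (v + v) = ev Θ (z 2) - ev Θ (z 4) := by rw [← map_sub (ev Θ), hv]; congr 1; abel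
    have k3 := N_double (N := N) (Θ := Θ) v
    rw [k2] at k3
    have k4 := map_sub_le_add N (ev Θ (z 2)) (ev Θ (z 4))
    linarith
  · -- class of `z₂`
    exfalso
    have q : (z 2).1 = (z 5).1 + (v.1 + v.1) := by rw [hv]; rfl
    have k := h.x2 (w := v) (ne_of_q (by omega)) (by rw [abs_lt]; constructor <;> omega)
    have k2 : ev Θ (v + v) = ev Θ (z 2) - ev Θ (z 5) := by rw [← map_sub (ev Θ), hv]; congr 1; abel
    have k3 := N_double (N := N) (Θ := Θ) v
    rw [k2] at k3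
    have k4 := map_sub_le_add N (ev Θ (z 2)) (ev Θ (z 5))
    linarith
  · -- class of `x + u`
    exfalso
    have q : (z 2).1 = x.1 + u.1 + (v.1 + v.1) := by rw [hv]; rfl
    have k1 := h.two_le 3 4 rfl (y := z 2 - (x + u)) (w := v) (by rw [hv]; abel)
      (by intro h0; rw [h0, add_zero, add_zero] at hv; exact hsp1 hv)
      (by rw [abs_lt]; constructor <;> omega)
    have k2 := h.two_le 3 4 rfl (y := z 2 + (x + u)) (w := x + u + v) (by rw [hv]; abel)
      (ne_of_q (by simp only [Prod.fst_add]; omega))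
      (by simp only [Prod.fst_add]; rw [abs_lt]; constructor <;> omega)
    have k3 := h.two_le 3 4 rfl (y := z 2 - (x - u)) (w := u + v) (by rw [hv]; abel)
      (ne_of_q (by simp only [Prod.fst_add]; omega))
      (by simp only [Prod.fst_add]; rw [abs_lt]; constructor <;> omega)
    have k4 := h.two_le 3 4 rfl (y := z 2 + (x - u)) (w := x + v) (by rw [hv]; abel)
      (by
        intro h0
        have h1 : v = -x := by rw [← sub_eq_zero, sub_neg_eq_add, add_comm]; exact h0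
        apply hsp2
        rw [hv, h1]; abel)
      (by simp only [Prod.fst_add]; rw [abs_lt]; constructor <;> omega)
    have k5 : N ((ev Θ x + ev Θ u) + (ev Θ x - ev Θ u)) = 2 * N (ev Θ x) := by
      rw [show (ev Θ x + ev Θ u) + (ev Θ x - ev Θ u) = ev Θ (x + x) by rw [map_add (ev Θ)]; abel, N_double]
    have k6 : N ((ev Θ x + ev Θ u) - (ev Θ x - ev Θ u)) = 2 * N (ev Θ u) := by
      rw [show (ev Θ x + ev Θ u) - (ev Θ x - ev Θ u) = ev Θ (u + u) by rw [map_add (ev Θ)]; abel, N_double]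
    rw [map_sub (ev Θ), map_add (ev Θ)] at k1
    rw [map_add (ev Θ), map_add (ev Θ)] at k2
    rw [map_sub (ev Θ), map_sub (ev Θ)] at k3
    rw [map_add (ev Θ), map_sub (ev Θ)] at k4
    exact six (N := N) (a := ev Θ (z 2)) (x := ev Θ x + ev Θ u) (y := ev Θ x - ev Θ u)
      (r := 2 * N (ev Θ (z 3))) (by linarith) uxu uxu' k2 k1 k4 k3 (by rw [k5]; linarith)
      (by rw [k6]; linarith)
  · -- class of `z₃`
    exfalso
    have q : (z 2).1 = (z 6).1 + (v.1 + v.1) := by rw [hv]; rfl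
    have k := h.x2 (w := v) (ne_of_q (by omega)) (by rw [abs_lt]; constructor <;> omega)
    have k2 : ev Θ (v + v) = ev Θ (z 2) - ev Θ (z 6) := by rw [← map_sub (ev Θ), hv]; congr 1; abel
    have k3 := N_double (N := N) (Θ := Θ) v
    rw [k2] at k3
    have k4 := map_sub_le_add N (ev Θ (z 2)) (ev Θ (z 6))
    linarith

/-- A bad exceptional step is impossible. -/
theorem absurd (h : Bad N Θ z x u) {R : V →ₗ[ℝ] V} (hS : Sym N R) (hK : Stmt_K) (hI : Stmt_I)
    (hF : Stmt_F) (hZ : Stmt_Z) (hP : Stmt_P) : False := by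
  have hu := h.prev hS hK hP
  obtain ⟨p0, m01, m12, m23, qx0, qxu, qx1, qu⟩ := h.qs
  obtain ⟨l6, l5, l4, l3, l2, l1, lx, lu⟩ := h.ls
  obtain ⟨ux, uu, uxu, uxu'⟩ := h.us
  have q4 := h.q4
  have q5 := h.q5
  have q6 := h.q6
  have E := h.E
  have n0 := apply_nonneg N (ev Θ (z 3))
  have q2 : (z 2).1 = u.1 := by rw [hu]
  have e2 : ev Θ (z 2) = ev Θ u := by rw [hu]
  rw [e2] at l3 l2
  have nx : N (ev Θ (z 4) - ev Θ (z 3)) = N (ev Θ x) := by rw [h.e4, add_sub_cancel_left]
  -- the value `u - x`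
  have hsp : z 1 ≠ u - x := by
    intro hv
    have k := hK N R _ _ _ hS h.cfg
    have e : ev Θ (z 4) - ev Θ (z 3) + -ev Θ u = -ev Θ (z 1) := by rw [hv, map_sub (ev Θ), h.e4]; abel
    rw [e, map_neg_eq_map, nx] at k
    linarith
  -- the condition `M₁ ≥ M₋₁ + M₋₂`
  have C1 : (z 1).1 + (z 2).1 ≤ (z 4).1 := by
    by_contra hcon
    push Not at hcon
    have k := h.toIsFrame2.toIsFrame.exceptional (i := 1) (j := 2) (l := 3) (m := 4) (by omega)
      (by omega) (by omega) hcon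
    apply hsp
    rw [h.h4, hu] at k
    have : z 1 = z 1 + (z 3 + x) - (z 3 + x) := by abel
    rw [this, k]; abel
  -- the values `z₀ - u` and `z₁ - u`
  have hI' := hI N R _ _ _ hS h.cfg
  rw [nx] at hI'
  have hs0 : z 1 ≠ z 3 - u := by
    intro hv
    have e : ev Θ (z 3) + -ev Θ u = ev Θ (z 1) := by rw [hv, map_sub (ev Θ)]; abel
    have k := hI'.2
    rw [e] at k
    linarith
  have hs1 : z 1 ≠ z 4 - u := by
    intro hv
    have e : ev Θ (z 4) + -ev Θ u = ev Θ (z 1) := by rw [hv, map_sub (ev Θ)]; abel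
    have k := hI'.1
    rw [e] at k
    linarith
  obtain ⟨v, hv | hv | hv | hv | hv | hv | hv | hv⟩ := h.cls (z 1)
  · exact h.ne_double 0 v hv
  · -- class of `z₀`
    have q : (z 1).1 = (z 3).1 + (v.1 + v.1) := by rw [hv]; rfl
    have k1 := h.two_le 3 4 rfl (y := z 1 + z 3) (w := z 3 + v) (by rw [hv]; abel)
      (ne_of_q (by simp only [Prod.fst_add]; omega))
      (by simp only [Prod.fst_add]; rw [abs_lt]; constructor <;> omega)
    have k2 := h.two_le 3 4 rfl (y := z 1 - z 3) (w := v) (by rw [hv]; abel)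
      (ne_of_q (by omega)) (by rw [abs_lt]; constructor <;> omega)
    rw [map_add (ev Θ)] at k1
    rw [map_sub (ev Θ)] at k2
    have k := hZ N R _ _ _ (ev Θ (z 1)) hS h.cfg _ (Or.inl rfl) k1 k2
    rw [nx] at k
    linarith
  · -- class of `x`
    have q : (z 1).1 = x.1 + (v.1 + v.1) := by rw [hv]; rfl
    rcases cmp_scaled (N := N) (a := ev Θ (z 1)) (u := ev Θ u) (w := ev Θ x)
      (r := 2 * N (ev Θ (z 3))) (by linarith) l2.le uxu uxu' with k | k
    · have k1 := h.two_le 0 1 rfl (y := x + z 1) (w := x + v) (by rw [hv]; abel)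
        (ne_of_q (by simp only [Prod.fst_add]; omega))
        (by simp only [Prod.fst_add]; rw [abs_lt]; constructor <;> omega)
      rw [map_add (ev Θ)] at k1
      linarith
    · have k1 := h.two_le 0 1 rfl (y := x - z 1) (w := -v) (by rw [hv]; abel)
        (ne_of_q (by simp only [Prod.fst_neg]; omega))
        (by simp only [Prod.fst_neg]; rw [abs_lt]; constructor <;> omega)
      rw [map_sub (ev Θ)] at k1
      linarith
  · -- class of `u`
    have q : (z 1).1 = u.1 + (v.1 + v.1) := by rw [hv]; rfl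
    have k1 := h.two_le 1 2 rfl (y := z 1 - u) (w := v) (by rw [hv]; abel)
      (ne_of_q (by omega)) (by rw [abs_lt]; constructor <;> omega)
    rw [map_sub (ev Θ)] at k1
    have k2 := map_sub_le_add N (ev Θ (z 1)) (ev Θ u)
    linarith
  · -- class of `z₁`
    have q : (z 1).1 = (z 4).1 + (v.1 + v.1) := by rw [hv]; rfl
    have k1 := h.two_le 3 4 rfl (y := z 1 + z 4) (w := z 4 + v) (by rw [hv]; abel)
      (ne_of_q (by simp only [Prod.fst_add]; omega))
      (by simp only [Prod.fst_add]; rw [abs_lt]; constructor <;> omega)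
    have k2 := h.two_le 3 4 rfl (y := z 1 - z 4) (w := v) (by rw [hv]; abel)
      (ne_of_q (by omega)) (by rw [abs_lt]; constructor <;> omega)
    rw [map_add (ev Θ)] at k1
    rw [map_sub (ev Θ)] at k2
    have k := hZ N R _ _ _ (ev Θ (z 1)) hS h.cfg _ (Or.inr rfl) k1 k2
    rw [nx] at k
    linarith
  · -- class of `z₂`
    have q : (z 1).1 = (z 5).1 + (v.1 + v.1) := by rw [hv]; rfl
    have hv' : z 1 = z 3 + u + (v + v) := by rw [hv, h.h5]
    have k1 := h.two_le 2 3 rfl (y := z 1 + (z 3 - u)) (w := z 3 + v) (by rw [hv']; abel)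
      (ne_of_q (by simp only [Prod.fst_add]; omega))
      (by simp only [Prod.fst_add]; rw [abs_lt]; constructor <;> omega)
    have k2 := h.two_le 2 3 rfl (y := z 1 - (z 3 - u)) (w := u + v) (by rw [hv']; abel)
      (by
        intro h0
        have h1 : v = -u := by rw [← sub_eq_zero, sub_neg_eq_add, add_comm]; exact h0
        apply hs0
        rw [hv', h1]; abel)
      (by simp only [Prod.fst_add]; rw [abs_lt]; constructor <;> omega)
    have k3 := h.two_le 3 4 rfl (y := z 1 + z 5) (w := z 5 + v) (by rw [hv]; abel)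
      (ne_of_q (by simp only [Prod.fst_add]; omega))
      (by simp only [Prod.fst_add]; rw [abs_lt]; constructor <;> omega)
    have k4 := h.two_le 3 4 rfl (y := z 1 - z 5) (w := v) (by rw [hv]; abel)
      (ne_of_q (by omega)) (by rw [abs_lt]; constructor <;> omega)
    rw [map_add (ev Θ), map_sub (ev Θ), e2] at k1
    rw [map_sub (ev Θ), map_sub (ev Θ), e2] at k2
    rw [map_add (ev Θ), h.e5] at k3
    rw [map_sub (ev Θ), h.e5] at k4
    refine hF N R (-ev Θ u) (ev Θ (z 3)) (ev Θ (z 4)) (ev Θ (z 1)) hS h.cfg ?_ ?_ ?_ _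
      (Or.inl rfl) ?_ ?_ ?_ ?_
    · rw [map_neg_eq_map, nx]; linarith
    · rw [nx]; linarith
    · rw [map_neg_eq_map]; exact l2
    · rw [map_neg_eq_map, ← sub_eq_add_neg]; exact k1
    · rw [map_neg_eq_map, ← sub_eq_add_neg]; exact k2
    · rw [sub_neg_eq_add]; exact k3
    · rw [sub_neg_eq_add]; exact k4
  · -- class of `x + u`
    have q : (z 1).1 = x.1 + u.1 + (v.1 + v.1) := by rw [hv]; rfl
    have k1 := h.two_le 3 4 rfl (y := z 1 - (x + u)) (w := v) (by rw [hv]; abel)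
      (ne_of_q (by omega)) (by rw [abs_lt]; constructor <;> omega)
    have k2 := h.two_le 3 4 rfl (y := z 1 + (x + u)) (w := x + u + v) (by rw [hv]; abel)
      (ne_of_q (by simp only [Prod.fst_add]; omega))
      (by simp only [Prod.fst_add]; rw [abs_lt]; constructor <;> omega)
    have k3 := h.two_le 3 4 rfl (y := z 1 - (x - u)) (w := u + v) (by rw [hv]; abel)
      (ne_of_q (by simp only [Prod.fst_add]; omega))
      (by simp only [Prod.fst_add]; rw [abs_lt]; constructor <;> omega)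
    have k4 := h.two_le 3 4 rfl (y := z 1 + (x - u)) (w := x + v) (by rw [hv]; abel)
      (by
        intro h0
        have h1 : v = -x := by rw [← sub_eq_zero, sub_neg_eq_add, add_comm]; exact h0
        apply hsp
        rw [hv, h1]; abel)
      (by simp only [Prod.fst_add]; rw [abs_lt]; constructor <;> omega)
    have k5 : N ((ev Θ x + ev Θ u) + (ev Θ x - ev Θ u)) = 2 * N (ev Θ x) := by
      rw [show (ev Θ x + ev Θ u) + (ev Θ x - ev Θ u) = ev Θ (x + x) by rw [map_add (ev Θ)]; abel, N_double]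
    have k6 : N ((ev Θ x + ev Θ u) - (ev Θ x - ev Θ u)) = 2 * N (ev Θ u) := by
      rw [show (ev Θ x + ev Θ u) - (ev Θ x - ev Θ u) = ev Θ (u + u) by rw [map_add (ev Θ)]; abel, N_double]
    rw [map_sub (ev Θ), map_add (ev Θ)] at k1
    rw [map_add (ev Θ), map_add (ev Θ)] at k2
    rw [map_sub (ev Θ), map_sub (ev Θ)] at k3
    rw [map_add (ev Θ), map_sub (ev Θ)] at k4
    exact six (N := N) (a := ev Θ (z 1)) (x := ev Θ x + ev Θ u) (y := ev Θ x - ev Θ u)
      (r := 2 * N (ev Θ (z 3))) (by linarith) uxu uxu' k2 k1 k4 k3 (by rw [k5]; linarith)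
      (by rw [k6]; linarith)
  · -- class of `z₃`
    have q : (z 1).1 = (z 6).1 + (v.1 + v.1) := by rw [hv]; rfl
    have hv' : z 1 = z 4 + u + (v + v) := by rw [hv, h.h6, h.h4]
    have k1 := h.two_le 2 3 rfl (y := z 1 + (z 4 - u)) (w := z 4 + v) (by rw [hv']; abel)
      (ne_of_q (by simp only [Prod.fst_add]; omega))
      (by simp only [Prod.fst_add]; rw [abs_lt]; constructor <;> omega)
    have k2 := h.two_le 2 3 rfl (y := z 1 - (z 4 - u)) (w := u + v) (by rw [hv']; abel)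
      (by
        intro h0
        have h1 : v = -u := by rw [← sub_eq_zero, sub_neg_eq_add, add_comm]; exact h0
        apply hs1
        rw [hv', h1]; abel)
      (by simp only [Prod.fst_add]; rw [abs_lt]; constructor <;> omega)
    have k3 : 2 * N (ev Θ (z 3)) ≤ N (ev Θ (z 1 + z 6)) := by
      rcases C1.lt_or_eq with C2 | C2
      · exact h.two_le 3 4 rfl (y := z 1 + z 6) (w := z 6 + v) (by rw [hv]; abel)
          (ne_of_q (by simp only [Prod.fst_add]; omega))
          (by simp only [Prod.fst_add]; rw [abs_lt]; constructor <;> omega)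
      · -- the first coordinate of `z₃ + v` is `M₁`
        have hw : z 6 + v - z 4 ≠ 0 := by
          intro h0
          have h1 : v = -u := by
            rw [h.h6, h.h4] at h0
            rw [← sub_eq_zero, sub_neg_eq_add, ← h0]; abel
          apply hs1
          rw [hv', h1]; abel
        have k := h.zero (z 6 + v - z 4) hw (by
          simp only [Prod.fst_sub, Prod.fst_add]; omega)
        unfold er at k
        rw [map_sub (ev Θ)] at k
        have k' := map_sub_le_add N (ev Θ (z 6 + v)) (ev Θ (z 4))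
        rw [show z 1 + z 6 = (z 6 + v) + (z 6 + v) by rw [hv]; abel, N_double]
        linarith
    have k4 := h.two_le 3 4 rfl (y := z 1 - z 6) (w := v) (by rw [hv]; abel)
      (ne_of_q (by omega)) (by rw [abs_lt]; constructor <;> omega)
    rw [map_add (ev Θ), map_sub (ev Θ), e2] at k1
    rw [map_sub (ev Θ), map_sub (ev Θ), e2] at k2
    rw [map_add (ev Θ), show ev Θ (z 6) = ev Θ (z 4) + ev Θ u by rw [h.e6, h.e4]] at k3
    rw [map_sub (ev Θ), show ev Θ (z 6) = ev Θ (z 4) + ev Θ u by rw [h.e6, h.e4]] at k4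
    refine hF N R (-ev Θ u) (ev Θ (z 3)) (ev Θ (z 4)) (ev Θ (z 1)) hS h.cfg ?_ ?_ ?_ _
      (Or.inr rfl) ?_ ?_ ?_ ?_
    · rw [map_neg_eq_map, nx]; linarith
    · rw [nx]; linarith
    · rw [map_neg_eq_map]; exact l2
    · rw [map_neg_eq_map, ← sub_eq_add_neg]; exact k1
    · rw [map_neg_eq_map, ← sub_eq_add_neg]; exact k2
    · rw [sub_neg_eq_add]; exact k3
    · rw [sub_neg_eq_add]; exact k4

end Bad

/-- Block SIX. -/
theorem stmt_SIX (hK : Stmt_K) (hI : Stmt_I) (hF : Stmt_F) (hZ : Stmt_Z) (hP : Stmt_P) :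
    Stmt_SIX := by
  intro N R Θ z hS hz i
  by_contra hcon
  push Not at hcon
  obtain ⟨E, B⟩ := hcon
  have h := hz.shift i
  have e := h.toIsFrame.exceptional (i := 3) (j := 4) (l := 5) (m := 6) (by omega) (by omega)
    (by omega) E
  have e6 : z (i + 6) = z (i + 4) + z (i + 5) - z (i + 3) := by
    have e' : z (i + 3) + z (i + 6) = z (i + 4) + z (i + 5) := e
    rw [← e']; abel
  have q6 : (z (i + 6)).1 = (z (i + 4)).1 + (z (i + 5)).1 - (z (i + 3)).1 := by
    rw [e6]; rfl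
  have hb : Bad N Θ (fun j => z (i + j)) (z (i + 4) - z (i + 3)) (z (i + 5) - z (i + 3)) := by
    refine ⟨h, ?_, ?_, ?_, ?_, ?_⟩
    · show z (i + 4) = z (i + 3) + (z (i + 4) - z (i + 3))
      abel
    · show z (i + 5) = z (i + 3) + (z (i + 5) - z (i + 3))
      abel
    · show z (i + 6) = z (i + 3) + (z (i + 4) - z (i + 3)) + (z (i + 5) - z (i + 3))
      rw [e6]; abel
    · show (z (i + 4) - z (i + 3)).1 < (z (i + 1)).1
      simp only [Prod.fst_sub]; omega
    · exact E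
  exact hb.absurd hS hK hI hF hZ hP

end Pool.Agent.Work.MP_7453a1_nt_sym
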