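import Pool.Agent.Work.MP_7453a1_nt_sym.K

set_option autoImplicit false

/-!
Coordinates for the planar configuration; blocks K and P.
-/

namespace Pool.Agent.Work.MP_7453a1_nt_sym

open Pool.Agent.Work.MP_7453a1_nt_norm Pool.Agent.Work.MP_7453a1_nt_h45

variable {N : Seminorm ℝ V} {R : V →ₗ[ℝ] V} {v e0 e1 : V}

/-- The gauge in the coordinates of the base `v`, `R v`. -/
noncomputable def gauge (N : Seminorm ℝ V) (R : V →ₗ[ℝ] V) (v : V) (x y : ℝ) : ℝ :=
  N (x • v + y • R v)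

lemma Sym.hex (hs : Sym N R) (v : V) : Hex (gauge N R v) where
  smul c x y := by
    unfold gauge
    rw [show (c * x) • v + (c * y) • R v = c • (x • v + y • R v) by module, map_smul_eq_mul,
      Real.norm_eq_abs]
  add x₁ y₁ x₂ y₂ := by
    unfold gauge
    rw [show (x₁ + x₂) • v + (y₁ + y₂) • R v = (x₁ • v + y₁ • R v) + (x₂ • v + y₂ • R v) by module]
    exact map_add_le_add N _ _
  rot x y := by
    unfold gauge
    rw [← hs.inv (x • v + y • R v)]
    congr 1
    rw [map_add, map_smul, map_smul, hs.sq]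
    module

lemma Sym.inv' (hs : Sym N R) : Sym N (LinearMap.id - R) where
  inv z := by
    have h := hs.inv (z - R z)
    rw [map_sub, hs.sq, show R z - (R z - z) = z by abel] at h
    show N (z - R z) = N z
    exact h.symm
  sq z := by
    simp only [LinearMap.sub_apply, LinearMap.id_apply, map_sub, hs.sq]
    abel

lemma Sym.det_ne (hs : Sym N R) {v : V} (hv : v ≠ 0) : det v (R v) ≠ 0 := by
  intro h
  obtain ⟨t, ht⟩ := exists_smul_of_det hv h
  have h1 := hs.sq v
  rw [ht, map_smul, ht, smul_smul] at h1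
  have h2 : (t * t - t + 1) • v = 0 := by
    have : (t * t - t + 1) • v = (t * t) • v - (t • v - v) := by module
    rw [this, h1, sub_self]
  rcases smul_eq_zero.mp h2 with h3 | h3
  · nlinarith [sq_nonneg (2 * t - 1)]
  · exact hv h3

lemma Sym.exists_coord (hs : Sym N R) {v : V} (hv : v ≠ 0) (z : V) :
    ∃ x y : ℝ, z = x • v + y • R v := by
  have hd := hs.det_ne hv
  have hrel := det_rel v z (R v)
  refine ⟨det z (R v) / det v (R v), det v z / det v (R v), ?_⟩
  have h3 : (det v (R v))⁻¹ • (det v (R v) • z)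
      = (det v (R v))⁻¹ • (det z (R v) • v + det v z • R v) := by rw [hrel]
  rw [smul_smul, inv_mul_cancel₀ hd, one_smul, smul_add, smul_smul, smul_smul] at h3
  rw [div_eq_inv_mul, div_eq_inv_mul]
  exact h3

lemma ne_zero_of_pos {z : V} (h : 0 < N z) : z ≠ 0 := by
  rintro rfl
  rw [map_zero] at h
  exact lt_irrefl _ h

/-- Coordinates: `e0` on the positive side of `v`, `e1` on the negative side. -/
theorem Cfg.coords (hs : Sym N R) (c : Cfg N v e0 e1) :
    ∃ (R' : V →ₗ[ℝ] V) (p₀ q₀ p₁ q₁ : ℝ), Sym N R' ∧ 0 ≤ p₀ ∧ 0 ≤ q₀ ∧ 0 ≤ p₁ ∧ 0 ≤ q₁ ∧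
      e0 = p₀ • v + q₀ • R' v ∧ e1 = (p₁ + q₁) • v - q₁ • R' v := by
  have hn1 := c.n1; have hn2 := c.n2; have hn3 := c.n3; have hnv := c.nv; have hnx := c.nx
  have hv : v ≠ 0 := ne_zero_of_pos (N := N) (lt_of_le_of_lt (apply_nonneg N _) hnv)
  obtain ⟨x₀, y₀, he0⟩ := hs.exists_coord hv e0
  obtain ⟨x₁, y₁, he1⟩ := hs.exists_coord hv e1
  have hF := hs.hex v
  have g10 : gauge N R v 1 0 = N v := by unfold gauge; congr 1; module
  have g0 : gauge N R v x₀ y₀ = N e0 := by unfold gauge; rw [he0]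
  have g1 : gauge N R v x₁ y₁ = N e1 := by unfold gauge; rw [he1]
  have g0' : gauge N R v (x₀ - 1) y₀ = N (e0 - v) := by
    unfold gauge; congr 1; rw [he0]; module
  have g1' : gauge N R v (x₁ - 1) y₁ = N (e1 - v) := by
    unfold gauge; congr 1; rw [he1]; module
  have gx : gauge N R v (x₁ - x₀) (y₁ - y₀) = N (e1 - e0) := by
    unfold gauge; congr 1; rw [he0, he1]; module
  have gx' : gauge N R v (x₀ - x₁) (y₀ - y₁) = N (e1 - e0) := by
    rw [← gx, ← hF.neg (x₁ - x₀)]; congr 1 <;> ring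
  have near0 := hF.near (x := x₀) (y := y₀) (by rw [g0, g0']; linarith)
    (by rw [g10, g0']; linarith)
  have near1 := hF.near (x := x₁) (y := y₁) (by rw [g1, g1']; linarith)
    (by rw [g10, g1']; linarith)
  -- the two vectors are not on the same side
  have same : ∀ (G : ℝ → ℝ → ℝ), Hex G → ∀ a b a' b' : ℝ, 0 ≤ a → 0 ≤ b → 0 ≤ a' → 0 ≤ b' →
      G a b = N e0 → G a' b' = N e1 → G (a' - a) (b' - b) = N (e1 - e0) →
      G (a - a') (b - b') = N (e1 - e0) → False := by
    intro G hG a b a' b' ha hb ha' hb' h1 h2 h3 h4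
    rcases le_total 0 (a * b' - a' * b) with hD | hD
    · rcases hG.t1 (x₁ := a) (y₁ := b) (x₂ := a') (y₂ := b') hD (by positivity) with h5 | h5
      · rw [h3, h1] at h5; linarith
      · rw [h3, h2] at h5; linarith
    · rcases hG.t1 (x₁ := a') (y₁ := b') (x₂ := a) (y₂ := b) (by linarith) (by positivity)
        with h5 | h5
      · rw [h4, h2] at h5; linarith
      · rw [h4, h1] at h5; linarith
  rcases near0 with ⟨a0, b0⟩ | ⟨b0, a0⟩ <;> rcases near1 with ⟨a1, b1⟩ | ⟨b1, a1⟩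
  · exact (same _ hF x₀ y₀ x₁ y₁ a0 b0 a1 b1 g0 g1 gx gx').elim
  · refine ⟨R, x₀, y₀, x₁ + y₁, -y₁, hs, a0, b0, a1, by linarith, he0, ?_⟩
    rw [he1]; module
  · refine ⟨LinearMap.id - R, x₀ + y₀, -y₀, x₁, y₁, hs.inv', a0, by linarith, a1, b1, ?_, ?_⟩
    · rw [he0]; simp only [LinearMap.sub_apply, LinearMap.id_apply]; module
    · rw [he1]; simp only [LinearMap.sub_apply, LinearMap.id_apply]; module
  · have hm : ∀ x y : ℝ, gauge N R v (x + y + -y) (- -y) = gauge N R v x y := by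
      intro x y; congr 1 <;> ring
    refine (same _ hF.mirror (x₀ + y₀) (-y₀) (x₁ + y₁) (-y₁) a0 (by linarith) a1 (by linarith)
      ?_ ?_ ?_ ?_).elim
    · show gauge N R v (x₀ + y₀ + -y₀) (- -y₀) = _
      rw [hm, g0]
    · show gauge N R v (x₁ + y₁ + -y₁) (- -y₁) = _
      rw [hm, g1]
    · show gauge N R v (x₁ + y₁ - (x₀ + y₀) + (-y₁ - -y₀)) (-(-y₁ - -y₀)) = _
      rw [← gx]; congr 1 <;> ring
    · show gauge N R v (x₀ + y₀ - (x₁ + y₁) + (-y₀ - -y₁)) (-(-y₀ - -y₁)) = _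
      rw [← gx']; congr 1 <;> ring

/-- The inequalities of a configuration, in coordinates. -/
structure PC (F : ℝ → ℝ → ℝ) (p₀ q₀ p₁ q₁ : ℝ) : Prop where
  hex : Hex F
  hp0 : 0 ≤ p₀
  hq0 : 0 ≤ q₀
  hp1 : 0 ≤ p₁
  hq1 : 0 ≤ q₁
  h0 : F p₀ q₀ < F 1 0
  h1 : F (p₁ + q₁) (-q₁) < F p₀ q₀
  h2 : F (p₀ - 1) q₀ < F (p₁ + q₁) (-q₁)
  h3 : F (p₁ + q₁ - 1) (-q₁) < F (p₀ - 1) q₀
  hx : F p₀ q₀ < F (p₁ + q₁ - p₀) (-q₁ - q₀)

/-- The configuration and its coordinates. -/
theorem Cfg.pc (hs : Sym N R) (c : Cfg N v e0 e1) :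
    ∃ (R' : V →ₗ[ℝ] V) (p₀ q₀ p₁ q₁ : ℝ), Sym N R' ∧
      e0 = p₀ • v + q₀ • R' v ∧ e1 = (p₁ + q₁) • v + (-q₁) • R' v ∧
      PC (gauge N R' v) p₀ q₀ p₁ q₁ := by
  obtain ⟨R', p₀, q₀, p₁, q₁, hs', a, b, c', d, he0, he1⟩ := c.coords hs
  have he1' : e1 = (p₁ + q₁) • v + (-q₁) • R' v := by rw [he1]; module
  have g10 : gauge N R' v 1 0 = N v := by unfold gauge; congr 1; module
  have g0 : gauge N R' v p₀ q₀ = N e0 := by unfold gauge; rw [he0]
  have g1 : gauge N R' v (p₁ + q₁) (-q₁) = N e1 := by unfold gauge; rw [he1']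
  have g0' : gauge N R' v (p₀ - 1) q₀ = N (e0 - v) := by
    unfold gauge; congr 1; rw [he0]; module
  have g1' : gauge N R' v (p₁ + q₁ - 1) (-q₁) = N (e1 - v) := by
    unfold gauge; congr 1; rw [he1']; module
  have gx : gauge N R' v (p₁ + q₁ - p₀) (-q₁ - q₀) = N (e1 - e0) := by
    unfold gauge; congr 1; rw [he0, he1']; module
  refine ⟨R', p₀, q₀, p₁, q₁, hs', he0, he1', ⟨hs'.hex v, a, b, c', d, ?_, ?_, ?_, ?_, ?_⟩⟩
  · rw [g0, g10]; exact c.nv
  · rw [g0, g1]; exact c.n1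
  · rw [g0', g1]; exact c.n2
  · rw [g0', g1']; exact c.n3
  · rw [g0, gx]; exact c.nx

theorem stmt_K : Stmt_K := by
  intro N R v e0 e1 hs c
  obtain ⟨R', p₀, q₀, p₁, q₁, hs', he0, he1, pc⟩ := c.pc hs
  have := pc.hex.K_coord pc.hp0 pc.hq0 pc.hp1 pc.hq1 pc.h0 pc.h1 pc.h3
    (by have := pc.hx; have := pc.h2; have := pc.h1; linarith)
  have gx : gauge N R' v (p₁ + q₁ - p₀) (-q₁ - q₀) = N (e1 - e0) := by
    unfold gauge; congr 1; rw [he0, he1]; module
  have gxv : gauge N R' v (p₁ + q₁ - p₀ + 1) (-q₁ - q₀) = N (e1 - e0 + v) := by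
    unfold gauge; congr 1; rw [he0, he1]; module
  rwa [gx, gxv] at this

/-- A vector within 60 degrees on the positive side and one within 60 degrees on the negative
side. -/
lemma Hex.p_opp {F : ℝ → ℝ → ℝ} (h : Hex F) {a b c d : ℝ} (ha : 0 ≤ a) (hb : 0 ≤ b)
    (hc : 0 ≤ c) (hd : 0 ≤ d) : F a b ≤ F (a + (c + d)) (b - d) ∨
      F (c + d) (-d) ≤ F (a + (c + d)) (b - d) := by
  have h10 := h.nonneg 1 0
  rcases le_total d b with hbd | hbd
  · right
    have h1 := h.low_x (show 0 ≤ a + (c + d) by linarith) (show 0 ≤ b - d by linarith)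
    have e : F (c + d) (-d) = F d c := by
      rw [← h.rot (c + d)]; congr 1 <;> ring
    have h2 := h.up hd hc
    rw [e]
    nlinarith
  · left
    have e : F (a + (c + d)) (b - d) = F (d - b) (a + b + c) := by
      rw [← h.rot (a + (c + d))]; congr 1 <;> ring
    have h1 := h.low_y (show 0 ≤ d - b by linarith) (show 0 ≤ a + b + c by linarith)
    have h2 := h.up ha hb
    rw [e]
    nlinarith

theorem stmt_P : Stmt_P := by
  intro N R e X U hs hX hU hX' hU'
  have he : e ≠ 0 := ne_zero_of_pos (N := N) (lt_of_le_of_lt (apply_nonneg N _) hX)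
  have hF := hs.hex e
  obtain ⟨x, y, rfl⟩ := hs.exists_coord he X
  obtain ⟨x', y', rfl⟩ := hs.exists_coord he U
  have g10 : gauge N R e 1 0 = N e := by unfold gauge; congr 1; module
  have nr : ∀ x y : ℝ, N (e - (x • e + y • R e)) < N e → N e < N (x • e + y • R e) →
      (0 ≤ x ∧ 0 ≤ y) ∨ (y ≤ 0 ∧ 0 ≤ x + y) := by
    intro x y h1 h2
    have g' : gauge N R e (x - 1) y = N (e - (x • e + y • R e)) := by
      unfold gauge
      rw [← map_neg_eq_map N (e - (x • e + y • R e))]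
      congr 1; module
    refine hF.near ?_ ?_
    · rw [g']; exact h1.trans h2
    · rw [g', g10]; exact h1
  have gs : N (x • e + y • R e + (x' • e + y' • R e)) = gauge N R e (x + x') (y + y') := by
    unfold gauge; congr 1; module
  rw [gs]
  change gauge N R e x y ≤ _ ∨ gauge N R e x' y' ≤ _
  rcases nr x y hX hX' with ⟨a0, b0⟩ | ⟨b0, a0⟩ <;> rcases nr x' y' hU hU' with ⟨a1, b1⟩ | ⟨b1, a1⟩
  · left
    exact hF.mono a0 (by linarith) b0 (by linarith)
  · rcases hF.p_opp a0 b0 (c := x' + y') (d := -y') a1 (by linarith) with h | h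
    · left
      rw [show x + (x' + y' + -y') = x + x' by ring, show y - -y' = y + y' by ring] at h
      exact h
    · right
      rw [show x + (x' + y' + -y') = x + x' by ring, show y - -y' = y + y' by ring,
        show x' + y' + -y' = x' by ring, neg_neg] at h
      exact h
  · rcases hF.p_opp a1 b1 (c := x + y) (d := -y) a0 (by linarith) with h | h
    · right
      rw [show x' + (x + y + -y) = x + x' by ring, show y' - -y = y + y' by ring] at h
      exact h
    · left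
      rw [show x' + (x + y + -y) = x + x' by ring, show y' - -y = y + y' by ring,
        show x + y + -y = x by ring, neg_neg] at h
      exact h
  · left
    have := hF.mirror.mono (x := x + y) (x' := (x + x') + (y + y')) (y := -y) (y' := -(y + y'))
      a0 (by linarith) (by linarith) (by linarith)
    rw [show x + y + -y = x by ring, show x + x' + (y + y') + -(y + y') = x + x' by ring,
      neg_neg, neg_neg] at this
    exact this

end Pool.Agent.Work.MP_7453a1_nt_sym
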