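import Pool.Agent.Work.MP_7453a1_nt_sym.I

set_option autoImplicit false

/-!
Block F.
-/

namespace Pool.Agent.Work.MP_7453a1_nt_sym

open Pool.Agent.Work.MP_7453a1_nt_norm Pool.Agent.Work.MP_7453a1_nt_h45

namespace Hex

variable {F : ℝ → ℝ → ℝ}

/-- The second coordinates: `(x, y) = (x + y) R + (-x) R²`. -/
lemma second (h : Hex F) (x y : ℝ) : F x y = F (x + y) (-x) := (h.rot' x y).symm

lemma t1_sec (h : Hex F) {a b a' b' : ℝ} (ha : 0 ≤ a) (hb : 0 ≤ b) (ha' : 0 ≤ a') (hb' : 0 ≤ b') :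
    F (a - a') (b - b') ≤ F a b ∨ F (a - a') (b - b') ≤ F a' b' := by
  rcases le_total 0 (a' * b - a * b') with hD | hD
  · have := h.t1 (x₁ := a') (y₁ := b') (x₂ := a) (y₂ := b) hD (by positivity)
    exact this.symm
  · have := h.t1 (x₁ := a) (y₁ := b) (x₂ := a') (y₂ := b') (by linarith) (by positivity)
    have e : F (a' - a) (b' - b) = F (a - a') (b - b') := by
      rw [← h.neg (a' - a)]; congr 1 <;> ring
    rw [e] at this
    exact this

/-- Sector `[0, 60]`. -/
lemma F_one (h : Hex F) {s t α β r : ℝ} (hs : 0 ≤ s) (ht : 0 ≤ t) (hα : 0 ≤ α) (hβ : 0 ≤ β)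
    (hp : F (s + t) (-t) ≤ r) (hr : r < F 1 0) (h3 : F (s + t - 1) (-t) < F (s + t) (-t))
    (ha : F α β < 2 * r) (k2 : 2 * F 1 0 ≤ F (α - (s + t + 1)) (β + t))
    (k3 : 2 * r ≤ F (α + (s + t - 1)) (β - t)) : False := by
  have hp' : F (s + t) (-t) < F 1 0 := lt_of_le_of_lt hp hr
  have hs1 : s < 1 := h.snd_lt ht hs (by rw [← h.side s t]; exact hp')
  have hr0 : 0 ≤ r := (h.nonneg _ _).trans hp
  have hpv : F (s + t + 1) (-t) ≤ r + F 1 0 := by
    have := h.add (s + t) (-t) 1 0
    rw [add_zero] at this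
    linarith
  have hh : F (1 - (s + t)) t < r := by
    have e : F (1 - (s + t)) t = F (s + t - 1) (-t) := by
      rw [← h.neg (1 - (s + t))]; congr 1; ring
    rw [e]; linarith
  have ek3 : F (α + (s + t - 1)) (β - t) = F (α - (1 - (s + t))) (β - t) := by
    congr 1; ring
  rw [ek3] at k3
  rcases le_total (s + t) 1 with hB | hB
  · rcases h.t1_sec hα hβ (a' := 1 - (s + t)) (b' := t) (by linarith) ht with h4 | h4 <;> linarith
  · have c1 : β * (1 - s) < α * (s + t - 1) := by
      by_contra hcon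
      push Not at hcon
      have e : F (1 - (s + t) - α) (t - β) = F (α - (1 - (s + t))) (β - t) := by
        rw [← h.neg (1 - (s + t) - α)]; congr 1 <;> ring
      have h5 : 0 ≤ α * t := mul_nonneg hα ht
      have h6 : 0 ≤ (s + t - 1) * β := mul_nonneg (by linarith) hβ
      rcases h.t1 (x₁ := α) (y₁ := β) (x₂ := 1 - (s + t)) (y₂ := t) (by linarith)
        (by linarith) with h4 | h4
      · rw [e] at h4; linarith
      · rw [e] at h4; linarith
    have c2 : α * (1 + s) < β * t := by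
      by_contra hcon
      push Not at hcon
      have h5 : 0 ≤ α * t := mul_nonneg hα ht
      have h6 : 0 ≤ (s + t + 1) * β := mul_nonneg (by linarith) hβ
      have e : F (α - (s + t + 1)) (β - -t) = F (α - (s + t + 1)) (β + t) := by
        congr 1; ring
      rcases h.t1 (x₁ := s + t + 1) (y₁ := -t) (x₂ := α) (y₂ := β) (by linarith)
        (by linarith) with h4 | h4
      · rw [e] at h4; linarith
      · rw [e] at h4; linarith
    have hβ0 : 0 < β := by
      rcases hβ.eq_or_lt with h0 | h0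
      · rw [← h0, zero_mul] at c2
        have : 0 ≤ α * (1 + s) := mul_nonneg hα (by linarith)
        linarith
      · exact h0
    have c3 : β * ((1 - s) * (1 + s)) < β * ((s + t - 1) * t) := by
      have d1 : β * (1 - s) * (1 + s) < α * (s + t - 1) * (1 + s) :=
        mul_lt_mul_of_pos_right c1 (by linarith)
      have d2 : α * (1 + s) * (s + t - 1) ≤ β * t * (s + t - 1) :=
        mul_le_mul_of_nonneg_right c2.le (by linarith)
      linarith
    have c4 := lt_of_mul_lt_mul_left c3 hβ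
    have c5 := h.low ht hs
    rw [← h.side s t] at c5
    have c6 : (t + s) * F (s + t) (-t) ≤ (t + s) * F 1 0 :=
      mul_le_mul_of_nonneg_left hp'.le (by linarith)
    have c7 : (t ^ 2 + t * s + s ^ 2) * F 1 0 ≤ (t + s) * F 1 0 := c5.trans c6
    have c8 : t ^ 2 + t * s + s ^ 2 ≤ t + s := le_of_mul_le_mul_right c7 (by linarith)
    linarith

/-- Sector `[120, 180]`. -/
lemma F_three (h : Hex F) {s t α β r : ℝ} (hs : 0 ≤ s) (ht : 0 ≤ t) (hα : α ≤ 0)
    (hαβ : α + β ≤ 0) (hβ : 0 ≤ β) (hp : F (s + t) (-t) ≤ r) (hr : r < F 1 0)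
    (ha : F α β < 2 * r) (k1 : 2 * F 1 0 ≤ F (α + (s + t + 1)) (β - t)) : False := by
  have hpv : F (s + t + 1) (-t) ≤ r + F 1 0 := by
    have := h.add (s + t) (-t) 1 0
    rw [add_zero] at this
    linarith
  have ew : F (-(s + t + 1)) t = F (s + t + 1) (-t) := by
    rw [← h.neg (s + t + 1), neg_neg]
  have h1 : 0 ≤ β * t := mul_nonneg hβ ht
  have h2 : 0 ≤ (s + t + 1) * -(α + β) := mul_nonneg (by linarith) (by linarith)
  have h3 : 0 ≤ -α * (1 + s) := mul_nonneg (by linarith) (by linarith)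
  rcases le_total 0 (α * t + (s + t + 1) * β) with hD | hD
  · have e : F (-(s + t + 1) - α) (t - β) = F (α + (s + t + 1)) (β - t) := by
      rw [← h.neg (-(s + t + 1) - α)]; congr 1 <;> ring
    rcases h.t1 (x₁ := α) (y₁ := β) (x₂ := -(s + t + 1)) (y₂ := t) (by linarith)
      (by linarith) with h4 | h4
    · rw [e] at h4; linarith
    · rw [e, ew] at h4; linarith
  · have e : F (α - -(s + t + 1)) (β - t) = F (α + (s + t + 1)) (β - t) := by
      congr 1; ring
    rcases h.t1 (x₁ := -(s + t + 1)) (y₁ := t) (x₂ := α) (y₂ := β) (by linarith)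
      (by linarith) with h4 | h4
    · rw [e, ew] at h4; linarith
    · rw [e] at h4; linarith

/-- Sector `[60, 120]`. -/
lemma F_two (h : Hex F) {s t s' t' α β r : ℝ} (hs : 0 ≤ s) (ht : 0 ≤ t) (hs' : 0 ≤ s')
    (ht' : 0 ≤ t') (hα : α ≤ 0) (hαβ : 0 ≤ α + β) (hp : F (s + t) (-t) ≤ r) (ho : F s' t' ≤ r)
    (hsum : F (s + t) (-t) + F s' t' < 2 * r) (hr : r < F 1 0)
    (h3 : F (s + t - 1) (-t) < F (s + t) (-t)) (hx1 : F 1 0 < F (s + t - s') (-t - t'))
    (ha1 : F 1 0 < F α β) (ha2 : F α β < F (s + t - s') (-t - t'))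
    (k1 : 2 * F 1 0 ≤ F (α + (s + t + 1)) (β - t))
    (k3 : 2 * r ≤ F (α + (s + t - 1)) (β - t)) : False := by
  have hp' : F (s + t) (-t) < F 1 0 := lt_of_le_of_lt hp hr
  have ho' : F s' t' < F 1 0 := lt_of_le_of_lt ho hr
  have hs1 : s < 1 := h.snd_lt ht hs (by rw [← h.side s t]; exact hp')
  have ht1 : t < 1 := h.fst_lt ht hs (by rw [← h.side s t]; exact hp')
  have hr0 : 0 ≤ r := (h.nonneg _ _).trans hp
  have hb : 0 < F 1 0 := lt_of_le_of_lt hr0 hr
  have hx : F (s + t - s') (-t - t') ≤ F (s + t) (-t) + F s' t' := by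
    have := h.add (s + t) (-t) (-s') (-t')
    rw [h.neg] at this
    rw [sub_eq_add_neg, sub_eq_add_neg]
    exact this
  have hpB := h.up ht hs
  rw [← h.side s t] at hpB
  have hpt := h.low_x ht hs
  rw [← h.side s t] at hpt
  have hps := h.low_y ht hs
  rw [← h.side s t] at hps
  have hp34 := h.low34 ht hs
  rw [← h.side s t] at hp34
  have hos := h.low_x hs' ht'
  have hot := h.low_y hs' ht'
  have hal := h.low_x hαβ (show 0 ≤ -α by linarith)
  rw [← h.second] at hal
  have hal2 := h.low_y hαβ (show 0 ≤ -α by linarith)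
  rw [← h.second] at hal2
  have hal34 := h.low34 hαβ (show 0 ≤ -α by linarith)
  rw [← h.second] at hal34
  have hau := h.up hαβ (show 0 ≤ -α by linarith)
  rw [← h.second] at hau
  -- the sum of the coordinates is greater than one
  have hβ1 : 1 < β := by
    by_contra hcon
    push Not at hcon
    have : (α + β + -α) * F 1 0 ≤ 1 * F 1 0 := mul_le_mul_of_nonneg_right (by linarith) hb.le
    linarith
  have c1 : -α < s + t + 1 := by
    by_contra hcon
    push Not at hcon
    have : (s + t + 1) * F 1 0 ≤ -α * F 1 0 := mul_le_mul_of_nonneg_right hcon hb.le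
    linarith
  have c2 : 1 - s ≤ α + β := by
    have u := h.up (x := α + (s + t + 1)) (y := β - t) (by linarith) (by linarith)
    by_contra hcon
    push Not at hcon
    have : (α + (s + t + 1) + (β - t)) * F 1 0 < 2 * F 1 0 :=
      mul_lt_mul_of_pos_right (by linarith) hb
    linarith
  have c3 : -α < s + t := by
    by_contra hcon
    push Not at hcon
    have m := h.mono (x := 1 - s) (x' := α + β) (y := s + t) (y' := -α) (by linarith) c2
      (by linarith) hcon
    rw [← h.second] at m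
    have e : F (1 - s) (s + t) = F (s + t) (-t - 1) := by
      rw [← h.rot' (1 - s) (s + t), ← h.rot' (1 - s + (s + t)) (-(1 - s))]
      congr 1 <;> ring
    rw [e] at m
    rcases h.I_mid hs' ht' hs ht ho' hp' h3.le with h4 | h4 <;> linarith
  rcases le_total (s + t - 1) (-α) with h4 | h4
  · have u := h.up (x := α + β - (1 - s)) (y := -α - (s + t - 1)) (by linarith) (by linarith)
    have e : F (α + (s + t - 1)) (β - t) = F (α + β - (1 - s)) (-α - (s + t - 1)) := by
      rw [h.second]; congr 1 <;> ring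
    rw [← e] at u
    -- `2 r ≤ (β - t) b`
    have u' : 2 * r + t * F 1 0 ≤ β * F 1 0 := by linarith
    have v1 : -α * F 1 0 < (s + t) * F 1 0 := mul_lt_mul_of_pos_right c3 hb
    have ex : F (s + t - s') (-t - t') = F (s' - (s + t)) (t + t') := by
      rw [← h.neg (s + t - s')]; congr 1 <;> ring
    rcases le_total s' (s + t) with h5 | h5
    · rcases le_total s (s' + t') with h6 | h6
      · have w := h.up (x := s' + t' - s) (y := s + t - s') (by linarith) (by linarith)
        have e2 : F (s' + t' - s) (s + t - s') = F (s + t - s') (-t - t') := by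
          rw [ex, h.second (s' - (s + t)) (t + t')]; congr 1 <;> ring
        rw [e2] at w
        linarith
      · have w := h.up (x := t + t') (y := s - (s' + t')) (by linarith) (by linarith)
        have e2 : F (t + t') (s - (s' + t')) = F (s + t - s') (-t - t') := by
          rw [ex, h.second (s' - (s + t)) (t + t'),
            h.second (s' - (s + t) + (t + t')) (-(s' - (s + t)))]; congr 1 <;> ring
        rw [e2] at w
        have : 0 ≤ s' * F 1 0 := mul_nonneg hs' hb.le
        have : 0 ≤ t * F 1 0 := mul_nonneg ht hb.le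
        linarith
    · have w := h.up (x := s' - (s + t)) (y := t + t') (by linarith) (by linarith)
      rw [← ex] at w
      linarith
  · have u := h.up (x := α + (s + t - 1)) (y := β - t) (by linarith) (by linarith)
    have : 0 ≤ (1 - s) * F 1 0 := mul_nonneg (by linarith) hb.le
    linarith

theorem F_core (h : Hex F) {s t s' t' α β r : ℝ} (hs : 0 ≤ s) (ht : 0 ≤ t) (hs' : 0 ≤ s')
    (ht' : 0 ≤ t') (hβ : 0 ≤ β) (hp : F (s + t) (-t) ≤ r) (ho : F s' t' ≤ r)
    (hsum : F (s + t) (-t) + F s' t' < 2 * r) (hr : r < F 1 0)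
    (h3 : F (s + t - 1) (-t) < F (s + t) (-t)) (hx1 : F 1 0 < F (s + t - s') (-t - t'))
    (ha1 : F 1 0 < F α β) (ha2 : F α β < F (s + t - s') (-t - t'))
    (k1 : 2 * F 1 0 ≤ F (α + (s + t + 1)) (β - t))
    (k2 : 2 * F 1 0 ≤ F (α - (s + t + 1)) (β + t))
    (k3 : 2 * r ≤ F (α + (s + t - 1)) (β - t)) : False := by
  have hx : F (s + t - s') (-t - t') ≤ F (s + t) (-t) + F s' t' := by
    have := h.add (s + t) (-t) (-s') (-t')
    rw [h.neg] at this
    rw [sub_eq_add_neg, sub_eq_add_neg]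
    exact this
  rcases le_total 0 α with hα | hα
  · exact h.F_one hs ht hα hβ hp hr h3 (by linarith) k2 k3
  · rcases le_total 0 (α + β) with hαβ | hαβ
    · exact h.F_two hs ht hs' ht' hα hαβ hp ho hsum hr h3 hx1 ha1 ha2 k1 k3
    · exact h.F_three hs ht hα hαβ hβ hp hr (by linarith) k1

end Hex

variable {N : Seminorm ℝ V} {R : V →ₗ[ℝ] V}

theorem f_half (hs : Sym N R) {v p o a : V} {p₀ q₀ p₁ q₁ r : ℝ} (hp₀ : 0 ≤ p₀) (hq₀ : 0 ≤ q₀)
    (hp₁ : 0 ≤ p₁) (hq₁ : 0 ≤ q₁) (hp : p = (p₁ + q₁) • v + (-q₁) • R v)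
    (ho : o = p₀ • v + q₀ • R v) (hpr : N p ≤ r) (hor : N o ≤ r) (hsum : N p + N o < 2 * r)
    (hr : r < N v) (h3 : N (p - v) < N p) (hx1 : N v < N (p - o)) (ha1 : N v < N a)
    (ha2 : N a < N (p - o)) (k1 : 2 * N v ≤ N (a + (p + v))) (k2 : 2 * N v ≤ N (a - (p + v)))
    (k3 : 2 * r ≤ N (a + (p - v))) (k4 : 2 * r ≤ N (a - (p - v))) : False := by
  have hv : v ≠ 0 := ne_zero_of_pos (N := N)
    (lt_of_le_of_lt ((apply_nonneg N p).trans hpr) hr)
  have hF := hs.hex v
  have g10 : gauge N R v 1 0 = N v := by unfold gauge; congr 1; module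
  have gp : gauge N R v (p₁ + q₁) (-q₁) = N p := by unfold gauge; rw [hp]
  have go : gauge N R v p₀ q₀ = N o := by unfold gauge; rw [ho]
  have gh : gauge N R v (p₁ + q₁ - 1) (-q₁) = N (p - v) := by
    unfold gauge; congr 1; rw [hp]; module
  have gx : gauge N R v (p₁ + q₁ - p₀) (-q₁ - q₀) = N (p - o) := by
    unfold gauge; congr 1; rw [hp, ho]; module
  obtain ⟨α, β, ha⟩ := hs.exists_coord hv a
  have ga : gauge N R v α β = N a := by unfold gauge; rw [ha]
  have g1 : gauge N R v (α + (p₁ + q₁ + 1)) (β - q₁) = N (a + (p + v)) := by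
    unfold gauge; congr 1; rw [hp, ha]; module
  have g2 : gauge N R v (α - (p₁ + q₁ + 1)) (β + q₁) = N (a - (p + v)) := by
    unfold gauge; congr 1; rw [hp, ha]; module
  have g3 : gauge N R v (α + (p₁ + q₁ - 1)) (β - q₁) = N (a + (p - v)) := by
    unfold gauge; congr 1; rw [hp, ha]; module
  have g4 : gauge N R v (α - (p₁ + q₁ - 1)) (β + q₁) = N (a - (p - v)) := by
    unfold gauge; congr 1; rw [hp, ha]; module
  rcases le_total 0 β with hβ | hβ
  · refine hF.F_core (s := p₁) (t := q₁) (s' := p₀) (t' := q₀) (α := α) (β := β) (r := r)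
      hp₁ hq₁ hp₀ hq₀ hβ ?_ ?_ ?_ ?_ ?_ ?_ ?_ ?_ ?_ ?_ ?_
    · rw [gp]; exact hpr
    · rw [go]; exact hor
    · rw [gp, go]; exact hsum
    · rw [g10]; exact hr
    · rw [gh, gp]; exact h3
    · rw [g10, gx]; exact hx1
    · rw [g10, ga]; exact ha1
    · rw [ga, gx]; exact ha2
    · rw [g10, g1]; exact k1
    · rw [g10, g2]; exact k2
    · rw [g3]; exact k3
  · have n : ∀ x y : ℝ, gauge N R v (-x) (-y) = gauge N R v x y := hF.neg
    refine hF.F_core (s := p₁) (t := q₁) (s' := p₀) (t' := q₀) (α := -α) (β := -β) (r := r)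
      hp₁ hq₁ hp₀ hq₀ (by linarith) ?_ ?_ ?_ ?_ ?_ ?_ ?_ ?_ ?_ ?_ ?_
    · rw [gp]; exact hpr
    · rw [go]; exact hor
    · rw [gp, go]; exact hsum
    · rw [g10]; exact hr
    · rw [gh, gp]; exact h3
    · rw [g10, gx]; exact hx1
    · rw [g10, n, ga]; exact ha1
    · rw [n, ga, gx]; exact ha2
    · rw [show -α + (p₁ + q₁ + 1) = -(α - (p₁ + q₁ + 1)) by ring,
        show -β - q₁ = -(β + q₁) by ring, n, g10, g2]; exact k2
    · rw [show -α - (p₁ + q₁ + 1) = -(α + (p₁ + q₁ + 1)) by ring,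
        show -β + q₁ = -(β - q₁) by ring, n, g10, g1]; exact k1
    · rw [show -α + (p₁ + q₁ - 1) = -(α - (p₁ + q₁ - 1)) by ring,
        show -β - q₁ = -(β + q₁) by ring, n, g4]; exact k4

theorem stmt_F : Stmt_F := by
  intro N R v e0 e1 a hs c hvx hax hva p hp k1 k2 k3 k4
  obtain ⟨R', p₀, q₀, p₁, q₁, hs', he0, he1, pc⟩ := c.pc hs
  have n1 := c.n1; have n2 := c.n2; have n3 := c.n3; have nv := c.nv; have nx := c.nx
  have e : N (e0 - e1) = N (e1 - e0) := by rw [← map_neg_eq_map N (e0 - e1), neg_sub]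
  rcases hp with rfl | rfl
  · refine f_half hs'.inv' (v := v) (p := p) (o := e1) (a := a) (r := N p) (p₀ := p₁) (q₀ := q₁)
      (p₁ := p₀) (q₁ := q₀) pc.hp1 pc.hq1 pc.hp0 pc.hq0 ?_ ?_ le_rfl n1.le (by linarith) nv
      (by linarith) (by rw [e]; exact hvx) hva (by rw [e]; exact hax) k1 k2 k3 k4
    · rw [he0]; simp only [LinearMap.sub_apply, LinearMap.id_apply]; module
    · rw [he1]; simp only [LinearMap.sub_apply, LinearMap.id_apply]; module
  · exact f_half hs' (v := v) (p := p) (o := e0) (a := a) (r := N e0) (p₀ := p₀) (q₀ := q₀)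
      (p₁ := p₁) (q₁ := q₁) pc.hp0 pc.hq0 pc.hp1 pc.hq1 he1 he0 n1.le le_rfl (by linarith) nv
      (by linarith) hvx hva hax k1 k2 k3 k4

end Pool.Agent.Work.MP_7453a1_nt_sym
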