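import Pool.Agent.Work.MP_7453a1_nt_sym.Interface

set_option autoImplicit false

/-!
Norms on the plane with a linear symmetry of order three: the lower bound.
-/

namespace Pool.Agent.Work.MP_7453a1_nt_sym

open Pool.Agent.Work.MP_7453a1_nt_norm Pool.Agent.Work.MP_7453a1_nt_h45 Filter
open scoped ENNReal

variable {N : Seminorm ℝ V} {Θ : V} {z : ℕ → Pt 2}

/-- Existence of a frame in which nonzero integer vectors are long. -/
theorem exists_frame2 (hN : IsNorm N) (hΘ : Admissible Θ) : ∃ (ν₀ : ℕ) (z : ℕ → Pt 2),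
    1 ≤ ν₀ ∧ (∀ k, (z k).1 = M N Θ (ν₀ + k)) ∧ IsFrame2 N Θ z := by
  obtain ⟨r₀, hr₀, hr₁⟩ := int_lower hN
  obtain ⟨z, hz⟩ := exists_seq hN hΘ
  obtain ⟨k₀, hk₀⟩ := eventually_small hN hΘ hz (half_pos hr₀)
  refine ⟨k₀ + 1, fun k => z (k₀ + k), by omega, fun k => ?_, ⟨⟨fun k => (hz _).1.1,
    fun k l h => strictMono_z hN hΘ hz (by omega), fun k l h => er_lt hN hΘ hz (by omega),
    fun k w hw hx => between hN hΘ hz (k₀ + k) hr₁ (hk₀ _ (by omega)) w hw hx⟩, ?_⟩⟩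
  · rw [(hz _).2, M, show k₀ + 1 + k - 1 = k₀ + k by omega]
  · intro w hw hw1
    have h2 : w.2 ≠ 0 := by
      intro h0
      exact hw (Prod.ext hw1 h0)
    have h3 := hr₁ w.2 h2
    have h4 : er N Θ w = N (fun i => (w.2 i : ℝ)) := by
      rw [← er_neg]
      unfold er
      congr 1
      ext i
      simp [ev, hw1]
    have h5 := hk₀ (k₀ + 0) (by omega)
    rw [h4]
    linarith

/-- Growth from a linear recursion. -/
theorem le_G_of_step2 (hN : IsNorm N) (hΘ : Admissible Θ) {t : ℝ} (ht : 1 ≤ t) (d : ℕ)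
    (h : ∀ z : ℕ → Pt 2, IsFrame2 N Θ z → ∀ (c : ℝ) (k : ℕ), 0 < c → d ≤ k →
      (∀ j, j < k → c * t ^ j ≤ ((z j).1 : ℝ)) → c * t ^ k ≤ ((z k).1 : ℝ)) :
    ENNReal.ofReal t ≤ G N Θ := by
  obtain ⟨ν₀, z, h0, h1, hz⟩ := exists_frame2 hN hΘ
  have ht0 : 0 < t := by linarith
  have key : ∀ k, (t ^ d)⁻¹ * t ^ k ≤ ((z k).1 : ℝ) := by
    intro k
    induction k using Nat.strong_induction_on with
    | _ k ih =>
      rcases lt_or_ge k d with hk | hk
      · have h2 : (1 : ℝ) ≤ ((z k).1 : ℝ) := by exact_mod_cast hz.pos k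
        have h3 : t ^ k ≤ t ^ d := pow_le_pow_right₀ ht hk.le
        have h4 : (t ^ d)⁻¹ * t ^ k ≤ 1 := by
          rw [inv_mul_le_iff₀ (by positivity)]; linarith
        linarith
      · exact h z hz _ k (by positivity) hk ih
  refine le_G_of_growth ht0 (c := (t ^ (d + ν₀))⁻¹) (by positivity) ?_
  filter_upwards [eventually_ge_atTop ν₀] with ν hν
  obtain ⟨k, rfl⟩ : ∃ k, ν = ν₀ + k := ⟨ν - ν₀, by omega⟩
  have h2 := key k
  have h3 : ((z k).1 : ℝ) = (M N Θ (ν₀ + k) : ℝ) := by rw [h1 k]; simp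
  rw [h3] at h2
  refine le_trans (le_of_eq ?_) h2
  rw [pow_add, pow_add]
  field_simp

/-- Block LOW. -/
theorem stmt_LOW (hSIX : Stmt_SIX) : Stmt_LOW := by
  intro N R Θ ρ hN hS hΘ hρ
  have hρ1 : 1 ≤ ρ := by
    by_contra hcon
    push Not at hcon
    rcases le_or_gt 0 ρ with h | h
    · have : ρ ^ 3 ≤ 1 := pow_le_one₀ h hcon.le
      have h2 : 0 < ρ ∨ ρ = 0 := by
        rcases h.lt_or_eq with h3 | h3
        · left; exact h3
        · right; exact h3.symm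
      rcases h2 with h2 | h2
      · linarith
      · rw [h2] at hρ; norm_num at hρ
    · rcases le_or_gt (-1) ρ with h3 | h3
      · have h4 : ρ ^ 3 < 0 := by
          have : ρ ^ 3 = ρ * (ρ * ρ) := by ring
          rw [this]
          exact mul_neg_of_neg_of_pos h (mul_pos_of_neg_of_neg h h)
        nlinarith
      · have h4 : 0 < ρ ^ 2 - 1 := by nlinarith
        have h5 : ρ * (ρ ^ 2 - 1) < 0 := mul_neg_of_neg_of_pos h h4
        have h6 : ρ * (ρ ^ 2 - 1) = ρ ^ 3 - ρ := by ring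
        linarith
  refine le_G_of_step2 hN hΘ hρ1 6 fun z hz c k hc hk ih => ?_
  obtain ⟨i, rfl⟩ : ∃ i, k = i + 6 := ⟨k - 6, by omega⟩
  rcases hSIX N R Θ z hS hz i with h | h
  · have h1 : ((z (i + 3)).1 : ℝ) + ((z (i + 4)).1 : ℝ) ≤ ((z (i + 6)).1 : ℝ) := by
      exact_mod_cast h
    have h2 := ih (i + 3) (by omega)
    have h3 := ih (i + 4) (by omega)
    have h4 : c * ρ ^ (i + 6) = c * ρ ^ (i + 3) + c * ρ ^ (i + 4) := by
      have : ρ ^ (i + 6) = ρ ^ (i + 3) * ρ ^ 3 := by rw [← pow_add]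
      rw [this, hρ]; ring
    linarith
  · have h1 : ((z (i + 5)).1 : ℝ) + ((z (i + 1)).1 : ℝ) ≤ ((z (i + 6)).1 : ℝ) := by
      exact_mod_cast h
    have h2 := ih (i + 5) (by omega)
    have h3 := ih (i + 1) (by omega)
    have h4 : c * ρ ^ (i + 6) = c * ρ ^ (i + 5) + c * ρ ^ (i + 1) := by
      have e5 : ρ ^ 5 = ρ ^ 4 + 1 := by
        have : ρ ^ 5 - ρ ^ 4 - 1 = (ρ ^ 3 - ρ - 1) * (ρ ^ 2 - ρ + 1) := by ring
        rw [hρ] at this
        have h0 : ρ ^ 5 - ρ ^ 4 - 1 = 0 := by rw [this]; ring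
        linarith
      have : ρ ^ (i + 6) = ρ ^ (i + 1) * ρ ^ 5 := by rw [← pow_add]
      rw [this, e5]; ring
    linarith

end Pool.Agent.Work.MP_7453a1_nt_sym
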