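import Pool.Agent.Work.MP_7453a1_nt_sym.UPb

set_option autoImplicit false

/-!
Block UP: for every norm on the plane with a linear symmetry of order six some `Θ` has
`G(Θ) ≤ ρ`.
-/

namespace Pool.Agent.Work.MP_7453a1_nt_sym.UPAux

open Pool.Agent.Work.MP_7453a1_nt_norm Pool.Agent.Work.MP_7453a1_nt_sym Filter Topology
open scoped ENNReal
open Pool.Agent.Work.MP_7453a1_nt (L Q Nf U zv L_U Q_U L_zv Q_zv L_mul_Q Nf_eq_zero rho_bounds
  rho_sq_bounds Q_sq mul_bd)

variable {N : Seminorm ℝ V} {R : V →ₗ[ℝ] V} {ρ a c : ℝ}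

lemma r1_ne (h : Sym N R) : (R ![0, 1]) 0 ≠ 0 := by
  intro h0
  set f2 : V := ![0, 1] with hf2
  have e1 : R f2 = (R f2 1) • f2 := by
    ext i
    fin_cases i
    · simpa [hf2] using h0
    · simp [hf2]
  have e2 := h.sq f2
  rw [e1, map_smul, e1, smul_smul] at e2
  have e3 := congrFun e2 1
  simp [hf2] at e3
  set s := (R ![0, 1]) 1
  nlinarith [sq_nonneg (2 * s - 1)]

/-- The choice of the lattice basis. -/
lemma params (h : Sym N R) (P : Par ρ a c) {ε : ℝ} (hε : 0 < ε) :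
    ∃ (K m n : ℤ) (w κ : V), E R ρ a c w (m, n, 1) = ![1, 0] + κ ∧
      E R ρ a c w (1, K, 0) = ![0, 1] ∧ N κ ≤ ε := by
  obtain ⟨r1, r2⟩ := rho_bounds P.hρ
  obtain ⟨s1, s2⟩ := rho_sq_bounds P.hρ
  obtain ⟨b0, b1, b2⟩ := P.bd
  have ha := P.a0
  set f1 : V := ![1, 0] with hf1
  set f2 : V := ![0, 1] with hf2
  obtain ⟨K', hK'⟩ := exists_nat_gt (8 * N f2 / ε + 6)
  have hNf2 : 0 ≤ N f2 := apply_nonneg N _
  have hK6 : (6 : ℝ) < K' := by
    have : 0 ≤ 8 * N f2 / ε := by positivity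
    linarith
  have hKe : 8 * N f2 < ε * K' := by
    have : 8 * N f2 / ε < K' := by linarith
    rw [div_lt_iff₀ hε] at this
    linarith
  set K : ℝ := (K' : ℝ) with hK
  -- the first unit vector
  have hr := r1_ne h
  rw [← hf2] at hr
  obtain ⟨g, hh, hf1e⟩ : ∃ g hh : ℝ, f1 = g • f2 + hh • Lam R a c f2 := by
    refine ⟨-(R f2 1) / (R f2 0) + 1 / (R f2 0) * c / a, 1 / (R f2 0) / a, ?_⟩
    have z0 : f1 0 = 1 := rfl
    have z1 : f1 1 = 0 := rfl
    have z2 : f2 0 = 0 := rfl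
    have z3 : f2 1 = 1 := rfl
    unfold Lam
    ext i
    fin_cases i
    · show f1 0 = (-(R f2 1) / (R f2 0) + 1 / (R f2 0) * c / a) * f2 0
        + 1 / (R f2 0) / a * (a * R f2 0 - c * f2 0)
      rw [z0, z2]
      field_simp
      ring
    · show f1 1 = (-(R f2 1) / (R f2 0) + 1 / (R f2 0) * c / a) * f2 1
        + 1 / (R f2 0) / a * (a * R f2 1 - c * f2 1)
      rw [z1, z3]
      field_simp
      ring
  set DK : ℝ := 1 - K * ρ + K ^ 2 * (ρ ^ 2 - 1) with hDK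
  have hDK1 : K ^ 2 / 2 ≤ DK := by
    rw [hDK]
    have h1 : K ^ 2 * 0.7548 ≤ K ^ 2 * (ρ ^ 2 - 1) :=
      mul_le_mul_of_nonneg_left (by linarith) (by positivity)
    have h2 : K * ρ ≤ K * 1.3248 := mul_le_mul_of_nonneg_left r2.le (by linarith)
    nlinarith
  have hDK0 : 0 < DK := lt_of_lt_of_le (by positivity) hDK1
  set w : V := (1 / DK) • ((1 - K * ρ) • f2 - K • Lam R a c f2) with hw
  have hLL := Lam_Lam h P f2
  have hwv : w + K • Lam R a c w = f2 := by
    have e : Lam R a c w = (1 / DK) • ((1 - K * ρ) • Lam R a c f2 - K • Lam R a c (Lam R a c f2)) := by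
      rw [hw, Lam_smul, sub_eq_add_neg, Lam_add, Lam_smul, ← neg_smul, Lam_smul]
      module
    rw [e, hLL, hw]
    have h1 : (1 / DK) • ((1 - K * ρ) • f2 - K • Lam R a c f2)
        + K • (1 / DK) • ((1 - K * ρ) • Lam R a c f2
          - K • (-(ρ • Lam R a c f2) - (ρ ^ 2 - 1) • f2)) = (1 / DK * DK) • f2 := by
      rw [hDK]
      module
    rw [h1, one_div, inv_mul_cancel₀ hDK0.ne', one_smul]
  set m : ℤ := round (g - hh * K * (ρ ^ 2 - 1) + (ρ ^ 2 - 1)) with hm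
  set n : ℤ := round (hh + g * K - hh * K * ρ + ρ) with hn
  set dm : ℝ := m - (g - hh * K * (ρ ^ 2 - 1) + (ρ ^ 2 - 1)) with hdm
  set dn : ℝ := n - (hh + g * K - hh * K * ρ + ρ) with hdn
  have hdm1 : |dm| ≤ 1 / 2 := by
    rw [hdm, abs_sub_comm]; exact abs_sub_round _
  have hdn1 : |dn| ≤ 1 / 2 := by
    rw [hdn, abs_sub_comm]; exact abs_sub_round _
  have hNw : N w ≤ ε := by
    have h1 : N w ≤ 1 / DK * ((1.3248 * K + 1 + K) * N f2) := by
      rw [hw, map_smul_eq_mul, Real.norm_of_nonneg (by positivity)]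
      refine mul_le_mul_of_nonneg_left ?_ (by positivity)
      refine (map_sub_le_add N _ _).trans ?_
      rw [map_smul_eq_mul, map_smul_eq_mul, Real.norm_of_nonneg (by linarith : (0 : ℝ) ≤ K)]
      have h2 := Lam_le h P f2
      have h3 : ‖1 - K * ρ‖ ≤ 1.3248 * K + 1 := by
        rw [Real.norm_eq_abs, abs_le]
        constructor <;> nlinarith
      have h4 : N (Lam R a c f2) ≤ N f2 := by nlinarith
      nlinarith [mul_le_mul_of_nonneg_right h3 hNf2,
        mul_le_mul_of_nonneg_left h4 (by linarith : (0 : ℝ) ≤ K)]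
    have h2 : (1.3248 * K + 1 + K) * N f2 ≤ 4 * K * N f2 :=
      mul_le_mul_of_nonneg_right (by linarith) hNf2
    have h3 : 1 / DK * ((1.3248 * K + 1 + K) * N f2) ≤ 1 / DK * (4 * K * N f2) :=
      mul_le_mul_of_nonneg_left h2 (by positivity)
    refine h1.trans (h3.trans ?_)
    rw [one_div, inv_mul_le_iff₀ hDK0]
    have h4 : K ^ 2 / 2 * ε ≤ DK * ε := mul_le_mul_of_nonneg_right hDK1 hε.le
    have h5 : 4 * K * N f2 ≤ K ^ 2 / 2 * ε := by nlinarith
    linarith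
  clear_value w
  refine ⟨(K' : ℤ), m, n, w, dm • w + dn • Lam R a c w, ?_, ?_, ?_⟩
  · have hLw := Lam_Lam h P w
    have e1 : f1 = (g - hh * K * (ρ ^ 2 - 1)) • w + (hh + g * K - hh * K * ρ) • Lam R a c w := by
      rw [hf1e]
      conv_lhs => rw [← hwv]
      rw [Lam_add, Lam_smul, hLw]
      module
    rw [e1]
    unfold E
    simp only
    rw [hdm, hdn]
    push_cast
    module
  · unfold E
    simp only
    push_cast
    rw [← hK]
    rw [← hwv]
    module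
  · refine (map_add_le_add N _ _).trans ?_
    rw [map_smul_eq_mul, map_smul_eq_mul, Real.norm_eq_abs, Real.norm_eq_abs]
    have h2 := Lam_le h P w
    have h3 : 0 ≤ N w := apply_nonneg N _
    have h4 : 0 ≤ N (Lam R a c w) := apply_nonneg N _
    have h5 : N (Lam R a c w) ≤ N w := by nlinarith
    nlinarith [mul_le_mul_of_nonneg_right hdm1 h3, mul_le_mul_of_nonneg_right hdn1 h4]

/-- Integer points as elements of `ℤ[ρ]`. -/
def tr (K m n q : ℤ) (p : Fin 2 → ℤ) : ℤ × ℤ × ℤ := (m * p 0 + p 1, q + n * p 0 + K * p 1, p 0)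

/-- The first coordinate. -/
def qq (K m n : ℤ) (v : ℤ × ℤ × ℤ) : ℤ := -K * v.1 + v.2.1 + (m * K - n) * v.2.2

/-- The other coordinates. -/
def pq (m : ℤ) (v : ℤ × ℤ × ℤ) : Fin 2 → ℤ := ![v.2.2, v.1 - m * v.2.2]

lemma tr_qq (K m n : ℤ) (v : ℤ × ℤ × ℤ) : tr K m n (qq K m n v) (pq m v) = v := by
  obtain ⟨X, Y, Z⟩ := v
  simp only [tr, qq, pq, Matrix.cons_val_zero, Matrix.cons_val_one]
  refine Prod.ext ?_ (Prod.ext ?_ ?_)
  · simp
  · simp only; ring
  · simp

lemma tr_inj {K m n q q' : ℤ} {p p' : Fin 2 → ℤ} (h : tr K m n q p = tr K m n q' p') :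
    q = q' ∧ p = p' := by
  unfold tr at h
  simp only [Prod.mk.injEq] at h
  obtain ⟨h1, h2, h3⟩ := h
  have h4 : p 1 = p' 1 := by rw [h3] at h1; linarith
  refine ⟨?_, ?_⟩
  · rw [h3, h4] at h2; linarith
  · ext i
    fin_cases i
    · exact h3
    · exact h4

lemma tr_neg (K m n q : ℤ) (p : Fin 2 → ℤ) : tr K m n (-q) (-p) = -tr K m n q p := by
  unfold tr
  refine Prod.ext ?_ (Prod.ext ?_ ?_)
  · simp; ring
  · simp; ring
  · simp

lemma tr_zero (K m n : ℤ) : tr K m n 0 0 = 0 := by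
  simp [tr]

/-- **Block UP.** -/
theorem up (hN : IsNorm N) (h : Sym N R) (hρ : ρ ^ 3 = ρ + 1) :
    ∃ Θ : V, Admissible Θ ∧ G N Θ ≤ ENNReal.ofReal ρ := by
  obtain ⟨a, c, P⟩ := exists_par hρ
  obtain ⟨r1, r2⟩ := rho_bounds hρ
  obtain ⟨s1, s2⟩ := rho_sq_bounds hρ
  obtain ⟨b0, b1, b2⟩ := P.bd
  have hρ0 : 0 < ρ := by linarith
  obtain ⟨cl, hcl, hlow⟩ := lower hN
  obtain ⟨K, m, n, w, κ, hu, hv, hκ⟩ := params h P (ε := cl * 0.002) (by positivity)
  set f1 : V := ![1, 0] with hf1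
  set f2 : V := ![0, 1] with hf2
  have hw : w ≠ 0 := by
    rintro rfl
    have : E R ρ a c 0 (1, K, 0) = 0 := by
      unfold E Lam; simp
    rw [this] at hv
    have := congrFun hv 1
    simp [hf2] at this
  set τ : ℝ := ρ ^ 2 - n * ρ - K + K * m * ρ with hτ
  have hτ0 : τ ≠ 0 := by
    intro h0
    have h1 := L_mul_Q hρ (-K) (m * K - n) 1
    have h2 : L ρ (-K) (m * K - n) 1 = 0 := by
      rw [← h0, hτ]; unfold L; push_cast; ring
    rw [h2, zero_mul] at h1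
    have h3 : Nf (-K) (m * K - n) 1 = 0 := by exact_mod_cast h1.symm
    have := (Nf_eq_zero _ _ _ h3).2.2
    omega
  set Θ : V := ![ρ / τ, (1 - m * ρ) / τ] with hΘ
  set Lu : ℝ := LL ρ (m, n, 1) with hLu
  set Lv : ℝ := LL ρ (1, K, 0) with hLv
  -- the error vector
  have hE : ∀ (q : ℤ) (p : Fin 2 → ℤ), E R ρ a c w (tr K m n q p)
      = -((fun i => (q : ℝ) * Θ i - p i) + ((q : ℝ) * Θ 0 - p 0) • κ) := by
    intro q p
    have h1 : τ • Lam R a c w = -(ρ • (f1 + κ) + (1 - m * ρ) • f2) := by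
      rw [← hu, ← hv, hτ]
      unfold E
      simp only
      push_cast
      match_scalars
      · ring
      · linear_combination -hρ
    have h2 : Lam R a c w = -((ρ / τ) • (f1 + κ) + ((1 - m * ρ) / τ) • f2) := by
      have h3 : Lam R a c w = τ⁻¹ • (τ • Lam R a c w) := by
        rw [smul_smul, inv_mul_cancel₀ hτ0, one_smul]
      rw [h3, h1, div_eq_inv_mul, div_eq_inv_mul]
      module
    have h4 : (fun i => (q : ℝ) * Θ i - p i) = ((q : ℝ) * Θ 0 - p 0) • f1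
        + ((q : ℝ) * Θ 1 - p 1) • f2 := by
      ext i
      fin_cases i <;> simp [hf1, hf2]
    have h5 : E R ρ a c w (tr K m n q p) = (p 0 : ℝ) • (f1 + κ) + (p 1 : ℝ) • f2
        + (q : ℝ) • Lam R a c w := by
      rw [← hu, ← hv]
      unfold E tr
      simp only
      push_cast
      module
    have h6 : Θ 0 = ρ / τ := rfl
    have h7 : Θ 1 = (1 - m * ρ) / τ := rfl
    rw [h5, h2, h4, h6, h7]
    module
  have hcoord : ∀ (q : ℤ) (p : Fin 2 → ℤ) (i : Fin 2),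
      cl * |(q : ℝ) * Θ i - p i| ≤ err N Θ q p := by
    intro q p i
    refine le_trans (mul_le_mul_of_nonneg_left ?_ hcl.le) (hlow _)
    rw [← Real.norm_eq_abs]
    exact norm_le_pi_norm (fun i => (q : ℝ) * Θ i - p i) i
  have herr0 : ∀ (q : ℤ) (p : Fin 2 → ℤ), 0 ≤ err N Θ q p := fun q p => apply_nonneg N _
  have hκe : ∀ (q : ℤ) (p : Fin 2 → ℤ), N (((q : ℝ) * Θ 0 - p 0) • κ) ≤ 0.002 * err N Θ q p := by
    intro q p
    rw [map_smul_eq_mul, Real.norm_eq_abs]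
    have h1 := hcoord q p 0
    have h2 : 0 ≤ |(q : ℝ) * Θ 0 - p 0| := abs_nonneg _
    calc |(q : ℝ) * Θ 0 - p 0| * N κ ≤ |(q : ℝ) * Θ 0 - p 0| * (cl * 0.002) :=
          mul_le_mul_of_nonneg_left hκ h2
      _ ≤ _ := by linarith
  have hup : ∀ (q : ℤ) (p : Fin 2 → ℤ),
      N (E R ρ a c w (tr K m n q p)) ≤ 1.002 * err N Θ q p := by
    intro q p
    rw [hE, map_neg_eq_map]
    refine (map_add_le_add N _ _).trans ?_
    have h1 := hκe q p
    have h2 : N (fun i => (q : ℝ) * Θ i - p i) = err N Θ q p := rfl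
    rw [h2]; linarith
  have hdn : ∀ (q : ℤ) (p : Fin 2 → ℤ),
      0.998 * err N Θ q p ≤ N (E R ρ a c w (tr K m n q p)) := by
    intro q p
    rw [hE, map_neg_eq_map]
    have h1 := hκe q p
    have h2 : N (fun i => (q : ℝ) * Θ i - p i) = err N Θ q p := rfl
    have h3 := map_sub_le_add N ((fun i => (q : ℝ) * Θ i - p i) + ((q : ℝ) * Θ 0 - p 0) • κ)
      (((q : ℝ) * Θ 0 - p 0) • κ)
    rw [add_sub_cancel_right, h2] at h3
    linarith
  -- the linear form
  have hLL : ∀ (q : ℤ) (p : Fin 2 → ℤ), τ * LL ρ (tr K m n q p) = (3 + 2 * ρ) * q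
      - τ * (((q : ℝ) * Θ 0 - p 0) * Lu + ((q : ℝ) * Θ 1 - p 1) * Lv) := by
    intro q p
    have h6 : τ * ((q : ℝ) * Θ 0 - p 0) = q * ρ - τ * p 0 := by
      have : Θ 0 = ρ / τ := rfl
      rw [this]; field_simp
    have h7 : τ * ((q : ℝ) * Θ 1 - p 1) = q * (1 - m * ρ) - τ * p 1 := by
      have : Θ 1 = (1 - m * ρ) / τ := rfl
      rw [this]; field_simp
    have h8 : τ * (((q : ℝ) * Θ 0 - p 0) * Lu + ((q : ℝ) * Θ 1 - p 1) * Lv)
        = (q * ρ - τ * p 0) * Lu + (q * (1 - m * ρ) - τ * p 1) * Lv := by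
      rw [← h6, ← h7]; ring
    rw [h8, hLu, hLv, hτ]
    unfold LL L tr
    simp only
    push_cast
    linear_combination (2 * (q : ℝ)) * hρ
  set B : ℝ := (|Lu| + |Lv|) / cl with hB
  have hB0 : 0 ≤ B := by rw [hB]; positivity
  set A : ℝ := (3 + 2 * ρ) / |τ| with hA
  have hA0 : 0 < A := by
    have : 0 < |τ| := abs_pos.mpr hτ0
    rw [hA]; positivity
  have hrest : ∀ (q : ℤ) (p : Fin 2 → ℤ),
      |((q : ℝ) * Θ 0 - p 0) * Lu + ((q : ℝ) * Θ 1 - p 1) * Lv| ≤ B * err N Θ q p := by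
    intro q p
    have h1 := hcoord q p 0
    have h2 := hcoord q p 1
    have h3 : B * err N Θ q p = (|Lu| * err N Θ q p + |Lv| * err N Θ q p) / cl := by
      rw [hB]; ring
    rw [h3, le_div_iff₀ hcl]
    calc |((q : ℝ) * Θ 0 - p 0) * Lu + ((q : ℝ) * Θ 1 - p 1) * Lv| * cl
        ≤ (|((q : ℝ) * Θ 0 - p 0) * Lu| + |((q : ℝ) * Θ 1 - p 1) * Lv|) * cl :=
          mul_le_mul_of_nonneg_right (abs_add_le _ _) hcl.le
      _ = |Lu| * (cl * |(q : ℝ) * Θ 0 - p 0|) + |Lv| * (cl * |(q : ℝ) * Θ 1 - p 1|) := by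
          rw [abs_mul, abs_mul]; ring
      _ ≤ _ := add_le_add (mul_le_mul_of_nonneg_left h1 (abs_nonneg _))
          (mul_le_mul_of_nonneg_left h2 (abs_nonneg _))
  have hAq : ∀ (q : ℤ) (p : Fin 2 → ℤ), LL ρ (tr K m n q p) + (((q : ℝ) * Θ 0 - p 0) * Lu
      + ((q : ℝ) * Θ 1 - p 1) * Lv) = (3 + 2 * ρ) * q / τ := by
    intro q p
    rw [eq_div_iff hτ0]
    linear_combination hLL q p
  have hAq' : ∀ q : ℤ, |(3 + 2 * ρ) * q / τ| = A * |(q : ℝ)| := by
    intro q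
    rw [abs_div, abs_mul, abs_of_pos (by linarith : 0 < 3 + 2 * ρ), hA]
    ring
  have hL1 : ∀ (q : ℤ) (p : Fin 2 → ℤ),
      |LL ρ (tr K m n q p)| ≤ A * |(q : ℝ)| + B * err N Θ q p := by
    intro q p
    have h1 := hAq q p
    have h2 : LL ρ (tr K m n q p) = (3 + 2 * ρ) * q / τ - (((q : ℝ) * Θ 0 - p 0) * Lu
      + ((q : ℝ) * Θ 1 - p 1) * Lv) := by linarith
    rw [h2]
    refine (abs_sub _ _).trans ?_
    rw [hAq']
    linarith [hrest q p]
  have hL2 : ∀ (q : ℤ) (p : Fin 2 → ℤ),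
      A * |(q : ℝ)| ≤ |LL ρ (tr K m n q p)| + B * err N Θ q p := by
    intro q p
    rw [← hAq', ← hAq q p]
    refine (abs_add_le _ _).trans ?_
    linarith [hrest q p]
  -- admissibility
  have hw0 : 0 < N w := N_pos hN hw
  have hadm : Admissible Θ := by
    intro q hq p
    by_contra hcon
    push Not at hcon
    have h1 : (fun i => (q : ℝ) * Θ i - p i) = 0 := by
      ext i; simp [hcon i]
    have h2 := hE q p
    rw [h1, hcon 0, sub_self, zero_smul, add_zero, neg_zero] at h2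
    have h3 := E_low h P w (tr K m n q p)
    rw [h2, map_zero] at h3
    set v := tr K m n q p with hvdef
    have h4 : Q ρ v.1 v.2.1 v.2.2 ≤ 0 := by
      by_contra hpos
      push Not at hpos
      have : 0 < 3 / 4 * Q ρ v.1 v.2.1 v.2.2 * N w ^ 2 := by positivity
      simp at h3
      linarith
    have h5 : 0 ≤ Q ρ v.1 v.2.1 v.2.2 := by
      have := Q_sq hρ v.1 v.2.1 v.2.2
      have h6 : 0 ≤ (3 * ρ ^ 2 - 4) * ((v.2.1 : ℝ) - ρ * v.2.2) ^ 2 :=
        mul_nonneg (by linarith) (sq_nonneg _)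
      nlinarith [sq_nonneg (2 * (v.1 : ℝ) - ρ * v.2.1 + (2 - ρ ^ 2) * v.2.2)]
    have h6 := L_mul_Q hρ v.1 v.2.1 v.2.2
    rw [le_antisymm h4 h5, mul_zero] at h6
    have h7 : Nf v.1 v.2.1 v.2.2 = 0 := by exact_mod_cast h6.symm
    obtain ⟨x0, x1, x2⟩ := Nf_eq_zero _ _ _ h7
    have h8 : tr K m n q p = tr K m n 0 0 := by
      rw [tr_zero]
      exact Prod.ext x0 (Prod.ext x1 x2)
    exact hq (tr_inj h8).1
  -- the chain
  obtain ⟨k0, hk0⟩ := pow_unbounded_of_one_lt (400 * B * N w) (by linarith : 1 < ρ)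
  have hk : ∀ k, k0 ≤ k → 400 * B * N w < ρ ^ k := fun k hk =>
    hk0.trans_le (pow_le_pow_right₀ (by linarith) hk)
  set qk : ℕ → ℤ := fun k => qq K m n (zv k) with hqk
  set pk : ℕ → Fin 2 → ℤ := fun k => pq m (zv k) with hpk
  have htr : ∀ k, tr K m n (qk k) (pk k) = zv k := fun k => tr_qq K m n _
  have hyk : ∀ k, E R ρ a c w (zv k) = (Lam R a c)^[k] w := by
    intro k
    rw [zv_iter, E_iter h P, E_one]
  have herrk : ∀ k, err N Θ (qk k) (pk k) ≤ 2 * N w := by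
    intro k
    have h1 := hdn (qk k) (pk k)
    rw [htr, hyk] at h1
    have h2 := N_iter_le' h P w k
    linarith
  have hBk : ∀ k, k0 ≤ k → B * err N Θ (qk k) (pk k) ≤ 0.01 * ρ ^ k := by
    intro k hkk
    have h1 := mul_le_mul_of_nonneg_left (herrk k) hB0
    have h2 := hk k hkk
    nlinarith
  have hbest : ∀ k, k0 ≤ k → IsBest N Θ (qk k) (pk k) := by
    intro k hkk
    have hpk0 : 0 < ρ ^ k := by positivity
    have hLk : |LL ρ (tr K m n (qk k) (pk k))| = ρ ^ k := by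
      rw [htr, LL_zv hρ, abs_of_pos hpk0]
    have hB1 := hBk k hkk
    refine ⟨?_, ?_⟩
    · intro h0
      have h1 := hL1 (qk k) (pk k)
      rw [hLk, h0] at h1
      simp only [Int.cast_zero, abs_zero, mul_zero, zero_add] at h1
      rw [h0] at hB1
      nlinarith
    · intro q' p' hq' he'
      have h1 := hL1 q' p'
      have h2 := hL2 (qk k) (pk k)
      rw [hLk] at h2
      have h3 : A * |(q' : ℝ)| ≤ A * |(qk k : ℝ)| := by
        refine mul_le_mul_of_nonneg_left ?_ hA0.le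
        exact_mod_cast hq'
      have h4 : B * err N Θ q' p' ≤ B * err N Θ (qk k) (pk k) := mul_le_mul_of_nonneg_left he' hB0
      have h5 : |LL ρ (tr K m n q' p')| ≤ 1.02 * ρ ^ k := by linarith
      have h6 : N (E R ρ a c w (tr K m n q' p')) ≤ 1.005 * N (E R ρ a c w (zv k)) := by
        have h7 := hup q' p'
        have h8 := hdn (qk k) (pk k)
        rw [htr] at h8
        have h9 := herr0 (qk k) (pk k)
        linarith
      rcases chain hN h P hw k _ h5 h6 with h7 | h7 | h7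
      · left
        rw [← tr_zero K m n] at h7
        exact tr_inj h7
      · right; left
        rw [← htr k] at h7
        exact tr_inj h7
      · right; right
        rw [← htr k, ← tr_neg] at h7
        exact tr_inj h7
  -- strict monotonicity
  have hmono : ∀ k, k0 ≤ k → |qk k| < |qk (k + 1)| := by
    intro k hkk
    by_contra hcon
    push Not at hcon
    have h1 : err N Θ (qk (k + 1)) (pk (k + 1)) ≤ err N Θ (qk k) (pk k) := by
      have h2 := hdn (qk (k + 1)) (pk (k + 1))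
      have h3 := hup (qk k) (pk k)
      rw [htr, hyk] at h2 h3
      have h4 := N_iter_le h P w k
      have h5 := herr0 (qk k) (pk k)
      have h6 : 0 ≤ N ((Lam R a c)^[k] w) := apply_nonneg N _
      have h7 : c * N ((Lam R a c)^[k] w) ≤ 0.99 * N ((Lam R a c)^[k] w) :=
        mul_le_mul_of_nonneg_right b2.le h6
      linarith
    have hz : ∀ v, tr K m n (qk (k + 1)) (pk (k + 1)) = v → LL ρ v = ρ ^ (k + 1) := by
      intro v hv
      rw [← hv, htr, LL_zv hρ]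
    have hpk0 : 0 < ρ ^ k := by positivity
    rcases (hbest k hkk).2 _ _ hcon h1 with ⟨h2, h3⟩ | ⟨h2, h3⟩ | ⟨h2, h3⟩
    · have := hz 0 (by rw [h2, h3, tr_zero])
      have h0 : LL ρ 0 = 0 := by simp [LL, L]
      rw [h0] at this
      have : 0 < ρ ^ (k + 1) := by positivity
      linarith
    · have := hz (zv k) (by rw [h2, h3, htr])
      rw [LL_zv hρ, pow_succ] at this
      nlinarith
    · have := hz (-zv k) (by rw [h2, h3, tr_neg, htr])
      have h0 : LL ρ (-zv k) = -ρ ^ k := by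
        rw [← LL_zv hρ k]
        simp [LL, L]
        ring
      rw [h0] at this
      have : 0 < ρ ^ (k + 1) := by positivity
      linarith
  refine ⟨Θ, hadm, ?_⟩
  refine G_le_of_chain hN (C := 1.01 * ρ ^ k0 / A) hρ0 (by positivity)
    (fun j => (qk (k0 + j)).natAbs) ?_ ?_ ?_
  · refine strictMono_nat_of_lt_succ fun j => ?_
    have h1 := hmono (k0 + j) (by omega)
    rw [show k0 + (j + 1) = k0 + j + 1 by omega]
    rw [Int.abs_eq_natAbs, Int.abs_eq_natAbs] at h1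
    exact_mod_cast h1
  · intro j
    exact ⟨qk (k0 + j), pk (k0 + j), hbest _ (by omega), rfl⟩
  · intro j
    have h1 := hL2 (qk (k0 + j)) (pk (k0 + j))
    have h2 := hBk (k0 + j) (by omega)
    rw [htr, LL_zv hρ, abs_of_pos (by positivity : 0 < ρ ^ (k0 + j))] at h1
    have h3 : (((qk (k0 + j)).natAbs : ℕ) : ℝ) = |(qk (k0 + j) : ℝ)| := by
      rw [Nat.cast_natAbs, Int.cast_abs]
    rw [h3]
    have h4 : A * |(qk (k0 + j) : ℝ)| ≤ 1.01 * ρ ^ (k0 + j) := by linarith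
    have h5 : 1.01 * ρ ^ k0 / A * ρ ^ j = 1.01 * ρ ^ (k0 + j) / A := by
      rw [pow_add]; ring
    rw [h5, le_div_iff₀ hA0]
    linarith

end Pool.Agent.Work.MP_7453a1_nt_sym.UPAux

namespace Pool.Agent.Work.MP_7453a1_nt_sym

theorem stmt_UP : Stmt_UP := fun _ _ _ hN h hρ => UPAux.up hN h hρ

end Pool.Agent.Work.MP_7453a1_nt_sym
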