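import Pool.Agent.Work.MP_7453a1_nt_sym.Coord

set_option autoImplicit false

/-!
Block Z.
-/

namespace Pool.Agent.Work.MP_7453a1_nt_sym

open Pool.Agent.Work.MP_7453a1_nt_norm Pool.Agent.Work.MP_7453a1_nt_h45

variable {N : Seminorm ℝ V} {R : V →ₗ[ℝ] V}

/-- The length of `o - w`, for `o` between 60 and 120 degrees from `w = 1`. -/
lemma Hex.z_up {G : ℝ → ℝ → ℝ} (h : Hex G) {α β ρ : ℝ} (hα : α ≤ 0) (hαβ : 0 ≤ α + β)
    (hρ : 1 ≤ ρ) (ho : G α β ≤ ρ * G 1 0) : G (α - 1) β ≤ ρ * G 1 1 := by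
  have e0 : G ρ ρ = ρ * G 1 1 := by
    have := h.smul ρ 1 1
    rwa [mul_one, abs_of_nonneg (by linarith)] at this
  rw [← e0]
  rcases le_total β ρ with hβ | hβ
  · rcases le_total (α + β) 1 with h1 | h1
    · have e : G (α - 1) β = G β (1 - (α + β)) := by
        rw [← h.rot' (α - 1) β, ← h.rot' (α - 1 + β)]; congr 1 <;> ring
      rw [e]
      exact h.mono (by linarith) hβ (by linarith) (by linarith)
    · have e : G (α - 1) β = G (α + β - 1) (1 - α) := by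
        rw [← h.rot' (α - 1) β]; congr 1 <;> ring
      rw [e]
      exact h.mono (by linarith) (by linarith) (by linarith) (by linarith)
  · have hβ0 : 0 < β := by linarith
    set D := β + ρ * (α + β) with hD
    have t1 : 0 ≤ ρ * (α + β) := mul_nonneg (by linarith) hαβ
    have hDpos : 0 < D := by linarith
    have c1 := h.comb (c := D) (p := β) (q := β - ρ + ρ * (α + β)) (x := α - 1) (y := β)
      (x₁ := -1 - ρ) (y₁ := ρ) (x₂ := α) (y₂ := β) hDpos.le hβ0.le (by linarith)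
      (by rw [hD]; ring) (by rw [hD]; ring)
    have c2 := h.comb (c := D) (p := ρ * (α + β)) (q := ρ) (x := -ρ) (y := ρ)
      (x₁ := -1 - ρ) (y₁ := ρ) (x₂ := α) (y₂ := β) hDpos.le t1 (by linarith)
      (by rw [hD]; ring) (by rw [hD]; ring)
    have e1 : G (-ρ) ρ = ρ * G 1 0 := by
      have h1 := h.smul ρ (-1) 1
      rw [mul_neg, mul_one, abs_of_nonneg (by linarith)] at h1
      rw [h1]
      have h2 := h.rot2 1 0
      rw [add_zero] at h2
      rw [h2]
    have e2 : G (-1 - ρ) ρ = G ρ 1 := by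
      rw [← h.rot' (-1 - ρ) ρ, ← h.rot' (-1 - ρ + ρ)]; congr 1 <;> ring
    have e3 : G ρ 1 ≤ G ρ ρ := h.mono (by linarith) le_rfl (by linarith) hρ
    rw [e2] at c1 c2
    rw [e1] at c2
    have c3 : D * (G (α - 1) β + ρ * G 1 0) ≤ D * (G ρ 1 + G α β) := by
      have : D * G α β = (β + ρ * (α + β)) * G α β := by rw [hD]
      have : D * G ρ 1 = (β + ρ * (α + β)) * G ρ 1 := by rw [hD]
      nlinarith
    have c4 := le_of_mul_le_mul_left c3 hDpos
    linarith

theorem z_core (hs : Sym N R) {w o a : V} {α β r : ℝ} (hw : 0 < N w)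
    (ho : o = α • w + β • R w) (hα : α ≤ 0) (hαβ : 0 ≤ α + β) (hwr : N w ≤ r) (hor : N o ≤ r)
    (h1 : 2 * r ≤ N (a + w)) (h2 : 2 * r ≤ N (a - w)) : N (o - w) ≤ N a := by
  have hG := hs.hex w
  have g10 : gauge N R w 1 0 = N w := by unfold gauge; congr 1; module
  set ρ := r / N w with hρd
  have hρN : ρ * N w = r := by rw [hρd]; field_simp
  have hρ : 1 ≤ ρ := by rw [hρd, le_div_iff₀ hw]; linarith
  have hx : N (o - w) ≤ ρ * gauge N R w 1 1 := by
    have := hG.z_up hα hαβ hρ (by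
      rw [g10, hρN]
      refine le_trans (le_of_eq ?_) hor
      unfold gauge; rw [ho])
    refine le_trans (le_of_eq ?_) this
    unfold gauge; congr 1; rw [ho]; module
  refine hx.trans ?_
  -- the comparison vector
  set U : V := ρ • ((2 : ℝ) • R w - w) with hU
  have hNU : N U = ρ * gauge N R w 1 1 := by
    have e1 : N U = ρ * gauge N R w (-1) 2 := by
      rw [hU, map_smul_eq_mul, Real.norm_eq_abs, abs_of_nonneg (by linarith)]
      unfold gauge; congr 2; module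
    rw [e1, ← hG.rot' (-1) 2]
    congr 2 <;> norm_num
  rw [← hNU]
  by_contra hcon
  push Not at hcon
  have hU0 : 0 < N U := lt_of_le_of_lt (apply_nonneg N _) hcon
  set κ := N a / N U with hκ
  have hκ0 : 0 ≤ κ := div_nonneg (apply_nonneg N _) hU0.le
  have hκ1 : κ < 1 := by rw [hκ, div_lt_one hU0]; exact hcon
  have hwU : N (w + U) ≤ 2 * r := by
    have e : N (w + U) = gauge N R w (1 - ρ) (2 * ρ) := by
      unfold gauge; congr 1; rw [hU]; module
    rw [e, ← hG.rot' (1 - ρ)]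
    have := hG.up (x := 1 - ρ + 2 * ρ) (y := -(1 - ρ)) (by linarith) (by linarith)
    rw [g10] at this
    nlinarith
  have hwU' : N (w - U) ≤ 2 * r := by
    have e : N (w - U) = gauge N R w (1 + ρ) (-(2 * ρ)) := by
      unfold gauge; congr 1; rw [hU]; module
    rw [e, ← hG.rot (1 + ρ), ← hG.rot (- -(2 * ρ))]
    have := hG.up (x := -(1 + ρ + -(2 * ρ))) (y := - -(2 * ρ) + (1 + ρ + -(2 * ρ))) (by linarith)
      (by linarith)
    rw [g10] at this
    nlinarith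
  have hr : 0 < r := by linarith
  have key : ∀ U' : V, N (w + U') ≤ 2 * r → N (w + κ • U') < 2 * r := by
    intro U' hU'
    have e : w + κ • U' = (1 - κ) • w + κ • (w + U') := by module
    rw [e]
    have h3 := map_add_le_add N ((1 - κ) • w) (κ • (w + U'))
    rw [map_smul_eq_mul, map_smul_eq_mul, Real.norm_eq_abs, Real.norm_eq_abs,
      abs_of_nonneg (show 0 ≤ 1 - κ by linarith), abs_of_nonneg hκ0] at h3
    nlinarith
  have k1 := key U hwU
  have k2 := key (-U) (by rwa [← sub_eq_add_neg])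
  rw [smul_neg, ← sub_eq_add_neg] at k2
  have hle : N a ≤ N (κ • U) := by
    rw [map_smul_eq_mul, Real.norm_eq_abs, abs_of_nonneg hκ0, hκ, div_mul_cancel₀ _ hU0.ne']
  rcases cmp hle k1 k2 with h3 | h3
  · rw [add_comm] at h3; linarith
  · rw [← map_neg_eq_map N (w - a), neg_sub] at h3; linarith

theorem z_half (hs : Sym N R) {v w o a : V} {p₀ q₀ p₁ q₁ r : ℝ} (hp₀ : 0 ≤ p₀) (hq₀ : 0 ≤ q₀)
    (hp₁ : 0 ≤ p₁) (hq₁ : 0 ≤ q₁) (hw' : w = (p₁ + q₁) • v + (-q₁) • R v)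
    (ho' : o = p₀ • v + q₀ • R v) (hw : 0 < N w) (hwr : N w ≤ r) (hor : N o ≤ r)
    (hx : r < N (o - w)) (h1 : 2 * r ≤ N (a + w)) (h2 : 2 * r ≤ N (a - w)) :
    N (o - w) ≤ N a := by
  have hF := hs.hex v
  have gw : gauge N R v (p₁ + q₁) (-q₁) = N w := by unfold gauge; rw [hw']
  have go : gauge N R v p₀ q₀ = N o := by unfold gauge; rw [ho']
  have gx : gauge N R v (p₀ - (p₁ + q₁)) (q₀ - -q₁) = N (o - w) := by
    unfold gauge; congr 1; rw [hw', ho']; module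
  have hD : 0 ≤ (p₁ + q₁) * q₀ - p₀ * -q₁ := by
    nlinarith [mul_nonneg hp₁ hq₀, mul_nonneg hq₁ hq₀, mul_nonneg hp₀ hq₁]
  have hne : p₁ + q₁ ≠ 0 ∨ -q₁ ≠ 0 := by
    by_contra hcon
    push Not at hcon
    rw [hcon.1, hcon.2, hF.zero] at gw
    linarith
  have hQ := Hex.quad_pos hne
  have hE : (p₁ + q₁) * p₀ + p₀ * -q₁ + -q₁ * q₀ < 0 := by
    by_contra hcon
    push Not at hcon
    rcases hF.t1 hD hcon with h3 | h3
    · rw [gx, gw] at h3; linarith
    · rw [gx, go] at h3; linarith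
  obtain ⟨X, Y, hX, hXY, e1, e2⟩ : ∃ X Y : ℝ, X ≤ 0 ∧ 0 ≤ X + Y ∧
      X * (p₁ + q₁) - Y * -q₁ = p₀ ∧ X * -q₁ + Y * (p₁ + q₁ + -q₁) = q₀ := by
    obtain ⟨e1, e2⟩ := Hex.coords (x₂ := p₀) (y₂ := q₀) hQ _ _ rfl rfl
    refine ⟨_, _, (div_neg_of_neg_of_pos hE hQ).le, ?_, e1, e2⟩
    rw [← add_div]
    refine div_nonneg ?_ hQ.le
    nlinarith [mul_nonneg hp₁ hq₀, mul_nonneg hq₁ hp₀, mul_nonneg hp₀ hp₁]
  refine z_core hs hw (α := X) (β := Y) ?_ hX hXY hwr hor h1 h2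
  rw [ho', hw', map_add, map_smul, map_smul, hs.sq, ← e1, ← e2]
  module

theorem stmt_Z : Stmt_Z := by
  intro N R v e0 e1 a hs c p hp h1 h2
  obtain ⟨R', p₀, q₀, p₁, q₁, hs', he0, he1, pc⟩ := c.pc hs
  have n1 := c.n1; have n2 := c.n2; have n3 := c.n3; have nv := c.nv; have nx := c.nx
  have pos0 := apply_nonneg N (e1 - v)
  rcases hp with rfl | rfl
  · refine z_half hs'.inv' (v := v) (p₀ := p₁) (q₀ := q₁) (p₁ := p₀) (q₁ := q₀) pc.hp1 pc.hq1
      pc.hp0 pc.hq0 ?_ ?_ (by linarith) le_rfl n1.le nx h1 h2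
    · rw [he0]; simp only [LinearMap.sub_apply, LinearMap.id_apply]; module
    · rw [he1]; simp only [LinearMap.sub_apply, LinearMap.id_apply]; module
  · have e : N (p - e0) = N (e0 - p) := by rw [← map_neg_eq_map N (e0 - p), neg_sub]
    rw [e] at nx ⊢
    exact z_half hs' (v := v) (p₀ := p₀) (q₀ := q₀) (p₁ := p₁) (q₁ := q₁) pc.hp0 pc.hq0
      pc.hp1 pc.hq1 he1 he0 (by linarith) n1.le le_rfl nx h1 h2

end Pool.Agent.Work.MP_7453a1_nt_sym
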