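import Pool.Agent.Work.MP_7453a1_nt_sym.F
import Pool.Agent.Work.MP_7453a1_nt_sym.Z
import Pool.Agent.Work.MP_7453a1_nt_sym.Low
import Pool.Agent.Work.MP_7453a1_nt_sym.Six
import Pool.Agent.Work.MP_7453a1_nt_sym.UP

set_option autoImplicit false

/-!
Norms on the plane with a linear symmetry of order three: final assembly.
-/

namespace Pool.Agent.Work.MP_7453a1_nt_sym

open Pool.Agent.Work.MP_7453a1_nt_norm Pool.Agent.Work.MP_7453a1_nt_h45 Filter
open scoped ENNReal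

theorem six_all : Stmt_SIX := stmt_SIX stmt_K stmt_I stmt_F stmt_Z stmt_P

theorem low_all : Stmt_LOW := stmt_LOW six_all

variable {N : Seminorm ℝ V}

/-- Two linearly dependent vectors. -/
lemma det_zero_or {w : V} (hw : w ≠ 0) (z : V) (h : det w z = 0) : ∃ t : ℝ, z = t • w :=
  exists_smul_of_det hw h

/-- A linear map of order three on the plane satisfies `T² + T + 1 = 0`. -/
theorem order_three {T : V →ₗ[ℝ] V} (h3 : ∀ z, T (T (T z)) = z) (h1 : ∃ z, T z ≠ z) (z : V) :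
    T (T z) + T z + z = 0 := by
  by_contra hz
  set w : V := T (T z) + T z + z with hw
  have hfix : T w = w := by
    rw [hw, map_add, map_add, h3]; abel
  obtain ⟨u, hu⟩ := h1
  have hd : det w u ≠ 0 := by
    intro h0
    obtain ⟨t, rfl⟩ := exists_smul_of_det hz h0
    exact hu (by rw [map_smul, hfix])
  -- coordinates of `T u`
  have hrel := det_rel w (T u) u
  obtain ⟨a, b, hab⟩ : ∃ a b : ℝ, T u = a • w + b • u := by
    refine ⟨det (T u) u / det w u, det w (T u) / det w u, ?_⟩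
    have h3 : (det w u)⁻¹ • (det w u • T u) = (det w u)⁻¹ • (det (T u) u • w + det w (T u) • u) := by
      rw [hrel]
    rw [smul_smul, inv_mul_cancel₀ hd, one_smul, smul_add, smul_smul, smul_smul] at h3
    rw [div_eq_inv_mul, div_eq_inv_mul]
    exact h3
  have e2 : T (T u) = (a + a * b) • w + (b ^ 2) • u := by
    rw [hab, map_add, map_smul, map_smul, hfix, hab]; module
  have e3 : T (T (T u)) = (a + a * b + a * b ^ 2) • w + (b ^ 3) • u := by
    rw [e2, map_add, map_smul, map_smul, hfix, hab]; module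
  rw [h3] at e3
  -- compare coordinates
  have d1 : det w u = det w ((a + a * b + a * b ^ 2) • w + (b ^ 3) • u) := by rw [← e3]
  have d2 : det u u = det ((a + a * b + a * b ^ 2) • w + (b ^ 3) • u) u := by rw [← e3]
  have q1 : det w ((a + a * b + a * b ^ 2) • w + (b ^ 3) • u) = b ^ 3 * det w u := by
    simp only [det, Pi.add_apply, Pi.smul_apply, smul_eq_mul]; ring
  have q2 : det ((a + a * b + a * b ^ 2) • w + (b ^ 3) • u) u
      = (a + a * b + a * b ^ 2) * det w u := by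
    simp only [det, Pi.add_apply, Pi.smul_apply, smul_eq_mul]; ring
  have q3 : det u u = 0 := by simp only [det]; ring
  rw [q1] at d1
  rw [q2, q3] at d2
  have hb3 : b ^ 3 = 1 := by
    have : (b ^ 3 - 1) * det w u = 0 := by linarith
    rcases mul_eq_zero.mp this with h | h
    · linarith
    · exact absurd h hd
  have hb : b = 1 := by
    have : (b - 1) * (b ^ 2 + b + 1) = 0 := by ring_nf; linarith
    rcases mul_eq_zero.mp this with h | h
    · linarith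
    · nlinarith [sq_nonneg (2 * b + 1)]
  subst hb
  have ha : a = 0 := by
    rcases mul_eq_zero.mp d2.symm with h | h
    · linarith
    · exact absurd h hd
  exact hu (by rw [hab, ha]; module)

/-- The symmetry `R = -T²` of order six. -/
theorem sym_of_order_three {T : V →ₗ[ℝ] V} (hT : ∀ z, N (T z) = N z)
    (h3 : ∀ z, T (T (T z)) = z) (h1 : ∃ z, T z ≠ z) : ∃ R : V →ₗ[ℝ] V, Sym N R := by
  have hq := order_three h3 h1
  refine ⟨-(T ∘ₗ T), ⟨fun z => ?_, fun z => ?_⟩⟩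
  · show N (-(T (T z))) = N z
    rw [map_neg_eq_map, hT, hT]
  · show -(T (T (-(T (T z))))) = -(T (T z)) - z
    rw [map_neg, map_neg, neg_neg, h3]
    have := hq z
    have e : T z = -(T (T z)) - z := by
      rw [← sub_eq_zero, ← this]; abel
    exact e

/-- Exact value, attainment and the six-term inequality. -/
theorem exact_sym {ρ : ℝ} (hρ : ρ ^ 3 = ρ + 1) (hN : IsNorm N) {T : V →ₗ[ℝ] V}
    (hT : ∀ z, N (T z) = N z) (h3 : ∀ z, T (T (T z)) = z) (h1 : ∃ z, T z ≠ z) :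
    g N = ENNReal.ofReal ρ ∧ (∃ Θ : V, Admissible Θ ∧ G N Θ = ENNReal.ofReal ρ) ∧
    (∀ Θ : V, Admissible Θ → {m : ℕ | IsBestDenominator N Θ m}.Infinite ∧
      ∃ ν₀ : ℕ, 1 ≤ ν₀ ∧ ∀ ν, ν₀ ≤ ν → M N Θ (ν + 3) + M N Θ (ν + 2) ≤ M N Θ (ν + 5) ∨
        M N Θ (ν + 4) + M N Θ ν ≤ M N Θ (ν + 5)) := by
  obtain ⟨R, hR⟩ := sym_of_order_three hT h3 h1
  have low : ∀ Θ : V, Admissible Θ → ENNReal.ofReal ρ ≤ G N Θ := fun Θ hΘ =>
    low_all N R Θ ρ hN hR hΘ hρ
  obtain ⟨Θ₀, hΘ₀, hup⟩ := stmt_UP N R ρ hN hR hρ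
  refine ⟨le_antisymm (iInf₂_le_of_le Θ₀ hΘ₀ hup) (le_iInf₂ low), ⟨Θ₀, hΘ₀,
    le_antisymm hup (low Θ₀ hΘ₀)⟩, fun Θ hΘ => ⟨infinite hN hΘ, ?_⟩⟩
  obtain ⟨ν₀, z, h0, h1, hz⟩ := exists_frame2 hN hΘ
  refine ⟨ν₀ + 1, by omega, fun ν hν => ?_⟩
  obtain ⟨k, rfl⟩ : ∃ k, ν = ν₀ + 1 + k := ⟨ν - (ν₀ + 1), by omega⟩
  rcases six_all N R Θ z hR hz k with h | h
  · left
    rw [h1, h1, h1] at h
    have h2 : (M N Θ (ν₀ + 1 + k + 2) : ℤ) + M N Θ (ν₀ + 1 + k + 3)
        ≤ M N Θ (ν₀ + 1 + k + 5) := by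
      rw [show ν₀ + 1 + k + 2 = ν₀ + (k + 3) by ring, show ν₀ + 1 + k + 3 = ν₀ + (k + 4) by ring,
        show ν₀ + 1 + k + 5 = ν₀ + (k + 6) by ring]
      exact h
    omega
  · right
    rw [h1, h1, h1] at h
    have h2 : (M N Θ (ν₀ + 1 + k + 4) : ℤ) + M N Θ (ν₀ + 1 + k)
        ≤ M N Θ (ν₀ + 1 + k + 5) := by
      rw [show ν₀ + 1 + k + 4 = ν₀ + (k + 5) by ring, show ν₀ + 1 + k = ν₀ + (k + 1) by ring,
        show ν₀ + (k + 1) + 5 = ν₀ + (k + 6) by ring]
      exact h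
    omega

end Pool.Agent.Work.MP_7453a1_nt_sym
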