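import Mathlib

set_option autoImplicit false

/-!
Gauge functions on the plane with a hexagonal symmetry, in coordinates.
-/

namespace Pool.Agent.Work.MP_7453a1_nt_sym

/-- A seminorm in coordinates, invariant under `(x, y) ↦ (-y, x + y)`. -/
structure Hex (F : ℝ → ℝ → ℝ) : Prop where
  smul : ∀ c x y, F (c * x) (c * y) = |c| * F x y
  add : ∀ x₁ y₁ x₂ y₂, F (x₁ + x₂) (y₁ + y₂) ≤ F x₁ y₁ + F x₂ y₂
  rot : ∀ x y, F (-y) (x + y) = F x y

namespace Hex

variable {F : ℝ → ℝ → ℝ}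

lemma zero (h : Hex F) : F 0 0 = 0 := by
  have := h.smul 0 0 0
  simpa using this

lemma neg (h : Hex F) (x y : ℝ) : F (-x) (-y) = F x y := by
  have := h.smul (-1) x y
  simpa using this

lemma nonneg (h : Hex F) (x y : ℝ) : 0 ≤ F x y := by
  have h1 := h.add x y (-x) (-y)
  rw [h.neg, add_neg_cancel, add_neg_cancel, h.zero] at h1
  linarith

/-- inverse rotation -/
lemma rot' (h : Hex F) (x y : ℝ) : F (x + y) (-x) = F x y := by
  have := h.rot (x + y) (-x)
  rw [neg_neg, show x + y + -x = y by ring] at this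
  exact this.symm

lemma rot2 (h : Hex F) (x y : ℝ) : F (-(x + y)) x = F x y := by
  rw [← h.rot x y, ← h.rot (-y) (x + y)]
  congr 1
  ring

/-- Triangle inequality for a combination. -/
lemma comb (h : Hex F) {c p q x y x₁ y₁ x₂ y₂ : ℝ} (hc : 0 ≤ c) (hp : 0 ≤ p) (hq : 0 ≤ q)
    (hx : c * x = p * x₁ + q * x₂) (hy : c * y = p * y₁ + q * y₂) :
    c * F x y ≤ p * F x₁ y₁ + q * F x₂ y₂ := by
  have h1 := h.add (p * x₁) (p * y₁) (q * x₂) (q * y₂)
  rw [← hx, ← hy, h.smul, h.smul, h.smul, abs_of_nonneg hc, abs_of_nonneg hp,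
    abs_of_nonneg hq] at h1
  exact h1

lemma zero_one (h : Hex F) : F 0 1 = F 1 0 := by
  have := h.rot 1 0
  simpa using this

lemma up (h : Hex F) {x y : ℝ} (hx : 0 ≤ x) (hy : 0 ≤ y) : F x y ≤ (x + y) * F 1 0 := by
  have := h.comb (c := 1) (p := x) (q := y) (x := x) (y := y) (x₁ := 1) (y₁ := 0) (x₂ := 0)
    (y₂ := 1) zero_le_one hx hy (by ring) (by ring)
  rw [h.zero_one] at this
  linarith

/-- The strong lower bound in a sector. -/
lemma low (h : Hex F) {x y : ℝ} (hx : 0 ≤ x) (hy : 0 ≤ y) :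
    (x ^ 2 + x * y + y ^ 2) * F 1 0 ≤ (x + y) * F x y := by
  have := h.comb (c := x ^ 2 + x * y + y ^ 2) (p := x) (q := y) (x := 1) (y := 0) (x₁ := x)
    (y₁ := y) (x₂ := x + y) (y₂ := -x) (by positivity) hx hy (by ring) (by ring)
  rw [h.rot'] at this
  linarith

lemma low_x (h : Hex F) {x y : ℝ} (hx : 0 ≤ x) (hy : 0 ≤ y) : x * F 1 0 ≤ F x y := by
  rcases (add_nonneg hx hy).eq_or_lt with h0 | h0
  · have : x = 0 := by linarith
    rw [this, zero_mul]; exact h.nonneg _ _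
  · have h1 := h.low hx hy
    have h2 := h.nonneg 1 0
    have h3 : (x + y) * (x * F 1 0) ≤ (x + y) * F x y := by nlinarith [mul_nonneg (sq_nonneg y) h2]
    exact le_of_mul_le_mul_left h3 h0

lemma low_y (h : Hex F) {x y : ℝ} (hx : 0 ≤ x) (hy : 0 ≤ y) : y * F 1 0 ≤ F x y := by
  rcases (add_nonneg hx hy).eq_or_lt with h0 | h0
  · have : y = 0 := by linarith
    rw [this, zero_mul]; exact h.nonneg _ _
  · have h1 := h.low hx hy
    have h2 := h.nonneg 1 0
    have h3 : (x + y) * (y * F 1 0) ≤ (x + y) * F x y := by nlinarith [mul_nonneg (sq_nonneg x) h2]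
    exact le_of_mul_le_mul_left h3 h0

lemma low34 (h : Hex F) {x y : ℝ} (hx : 0 ≤ x) (hy : 0 ≤ y) :
    3 / 4 * (x + y) * F 1 0 ≤ F x y := by
  rcases (add_nonneg hx hy).eq_or_lt with h0 | h0
  · rw [← h0]; simp; exact h.nonneg _ _
  · have h1 := h.low hx hy
    have h2 := h.nonneg 1 0
    have h3 : (x + y) * (3 / 4 * (x + y) * F 1 0) ≤ (x + y) * F x y := by
      nlinarith [mul_nonneg (sq_nonneg (x - y)) h2]
    exact le_of_mul_le_mul_left h3 h0

/-- Monotonicity in the first coordinate. -/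
lemma mono_x (h : Hex F) {x x' y : ℝ} (hx : 0 ≤ x) (hxx : x ≤ x') (hy : 0 ≤ y) :
    F x y ≤ F x' y := by
  have hx' : 0 ≤ x' := hx.trans hxx
  rcases hx'.eq_or_lt with h0 | h0
  · have : x = x' := by linarith
    rw [this]
  · have h1 := h.comb (c := x' ^ 2 + x' * y + y ^ 2) (p := x * (x' + y) + y ^ 2)
      (q := (x' - x) * y) (x := x) (y := y) (x₁ := x') (y₁ := y) (x₂ := -y) (y₂ := x' + y)
      (by positivity) (by positivity) (mul_nonneg (by linarith) hy) (by ring) (by ring)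
    rw [h.rot] at h1
    have h2 := h.nonneg x' y
    have h3 : (x' ^ 2 + x' * y + y ^ 2) * F x y ≤ (x' ^ 2 + x' * y + y ^ 2) * F x' y := by
      have : 0 ≤ (x' - x) * x' * F x' y := mul_nonneg (mul_nonneg (by linarith) hx') h2
      nlinarith
    exact le_of_mul_le_mul_left h3 (by positivity)

/-- The mirror image: coordinates with respect to `(1, R⁻¹)`. -/
lemma mirror (h : Hex F) : Hex (fun x y => F (x + y) (-y)) where
  smul c x y := by
    show F (c * x + c * y) (-(c * y)) = |c| * F (x + y) (-y)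
    rw [← h.smul]; congr 1 <;> ring
  add x₁ y₁ x₂ y₂ := by
    show F (x₁ + x₂ + (y₁ + y₂)) (-(y₁ + y₂)) ≤ F (x₁ + y₁) (-y₁) + F (x₂ + y₂) (-y₂)
    have := h.add (x₁ + y₁) (-y₁) (x₂ + y₂) (-y₂)
    rwa [show x₁ + y₁ + (x₂ + y₂) = x₁ + x₂ + (y₁ + y₂) by ring,
      show -y₁ + -y₂ = -(y₁ + y₂) by ring] at this
  rot x y := by
    show F (-y + (x + y)) (-(x + y)) = F (x + y) (-y)
    rw [← h.rot' (x + y) (-y)]
    congr 1; ring

lemma swap_mono (h : Hex F) {x y y' : ℝ} (hx : 0 ≤ x) (hyy : y ≤ y') (hy : 0 ≤ y) :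
    F x y ≤ F x y' := by
  -- use the mirror image
  have h1 := h.mirror.mono_x hy hyy hx
  have e : ∀ a b : ℝ, F (a + b) (-b) = F b a := by
    intro a b
    have := h.rot (a + b) (-b)
    rw [neg_neg, show a + b + -b = a by ring] at this
    exact this.symm
  simp only [e] at h1
  exact h1

lemma mono (h : Hex F) {x x' y y' : ℝ} (hx : 0 ≤ x) (hxx : x ≤ x') (hy : 0 ≤ y) (hyy : y ≤ y') :
    F x y ≤ F x' y' :=
  (h.mono_x hx hxx hy).trans (h.swap_mono (hx.trans hxx) hyy hy)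

/-- Change of the base vector. -/
lemma base (h : Hex F) (a b : ℝ) : Hex (fun x y => F (x * a - y * b) (x * b + y * (a + b))) where
  smul c x y := by
    show F (c * x * a - c * y * b) (c * x * b + c * y * (a + b))
      = |c| * F (x * a - y * b) (x * b + y * (a + b))
    rw [← h.smul]; congr 1 <;> ring
  add x₁ y₁ x₂ y₂ := by
    show F ((x₁ + x₂) * a - (y₁ + y₂) * b) ((x₁ + x₂) * b + (y₁ + y₂) * (a + b)) ≤ _
    have := h.add (x₁ * a - y₁ * b) (x₁ * b + y₁ * (a + b)) (x₂ * a - y₂ * b)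
      (x₂ * b + y₂ * (a + b))
    rwa [show x₁ * a - y₁ * b + (x₂ * a - y₂ * b) = (x₁ + x₂) * a - (y₁ + y₂) * b by ring,
      show x₁ * b + y₁ * (a + b) + (x₂ * b + y₂ * (a + b))
        = (x₁ + x₂) * b + (y₁ + y₂) * (a + b) by ring] at this
  rot x y := by
    show F (-y * a - (x + y) * b) (-y * b + (x + y) * (a + b)) = F (x * a - y * b) (x * b + y * (a + b))
    rw [← h.rot (x * a - y * b)]
    congr 1 <;> ring

/-- `T1` in coordinates relative to the first vector. -/
lemma t1_base (h : Hex F) {x y : ℝ} (hx : 0 ≤ x) (hy : 0 ≤ y) :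
    F (x - 1) y ≤ F 1 0 ∨ F (x - 1) y ≤ F x y := by
  have h10 := h.nonneg 1 0
  rcases le_total 1 x with h1 | h1
  · right
    exact h.mono (by linarith) (by linarith) hy le_rfl
  · have e : F (x - 1) y = F y (1 - x - y) := by
      rw [← h.neg (x - 1) y, ← h.rot (-(x - 1)) (-y)]
      congr 1 <;> ring
    rcases le_total y (1 - x) with h2 | h2
    · left
      rw [e]
      have := h.up hy (show 0 ≤ 1 - x - y by linarith)
      nlinarith
    · right
      have e2 : F (x - 1) y = F (x + y - 1) (1 - x) := by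
        rw [e, ← h.rot y (1 - x - y)]
        congr 1 <;> ring
      rw [e2]
      have h3 := h.up (show 0 ≤ x + y - 1 by linarith) (show 0 ≤ 1 - x by linarith)
      have h4 := h.low_y hx hy
      nlinarith

/-- Change of base: coordinates of the second vector with respect to the first one. -/
lemma coords {x₁ y₁ x₂ y₂ : ℝ} (hQ : 0 < x₁ ^ 2 + x₁ * y₁ + y₁ ^ 2) (c d : ℝ)
    (hc : c = (x₁ * x₂ + x₂ * y₁ + y₁ * y₂) / (x₁ ^ 2 + x₁ * y₁ + y₁ ^ 2))
    (hd : d = (x₁ * y₂ - x₂ * y₁) / (x₁ ^ 2 + x₁ * y₁ + y₁ ^ 2)) :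
    c * x₁ - d * y₁ = x₂ ∧ c * y₁ + d * (x₁ + y₁) = y₂ := by
  have hQ' := hQ.ne'
  rw [hc, hd]
  constructor
  · rw [div_mul_eq_mul_div, div_mul_eq_mul_div, ← sub_div, div_eq_iff hQ']; ring
  · rw [div_mul_eq_mul_div, div_mul_eq_mul_div, ← add_div, div_eq_iff hQ']; ring

lemma quad_pos {x y : ℝ} (hne : x ≠ 0 ∨ y ≠ 0) : 0 < x ^ 2 + x * y + y ^ 2 := by
  rcases hne with h | h
  · have := sq_pos_of_ne_zero h
    nlinarith [sq_nonneg (x + 2 * y)]
  · have := sq_pos_of_ne_zero h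
    nlinarith [sq_nonneg (2 * x + y)]

/-- `T1`: the second vector is at most 60 degrees counterclockwise from the first one. -/
lemma t1 (h : Hex F) {x₁ y₁ x₂ y₂ : ℝ} (hD : 0 ≤ x₁ * y₂ - x₂ * y₁)
    (hE : 0 ≤ x₁ * x₂ + x₂ * y₁ + y₁ * y₂) :
    F (x₂ - x₁) (y₂ - y₁) ≤ F x₁ y₁ ∨ F (x₂ - x₁) (y₂ - y₁) ≤ F x₂ y₂ := by
  by_cases hz : x₁ = 0 ∧ y₁ = 0
  · right
    rw [hz.1, hz.2, sub_zero, sub_zero]
  · have hne : x₁ ≠ 0 ∨ y₁ ≠ 0 := by
      by_contra hcon
      push Not at hcon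
      exact hz hcon
    have hQ := quad_pos hne
    obtain ⟨e1, e2⟩ := coords (x₂ := x₂) (y₂ := y₂) hQ _ _ rfl rfl
    have := (h.base x₁ y₁).t1_base (div_nonneg hE hQ.le) (div_nonneg hD hQ.le)
    simp only [one_mul, zero_mul, sub_zero, add_zero] at this
    set c := (x₁ * x₂ + x₂ * y₁ + y₁ * y₂) / (x₁ ^ 2 + x₁ * y₁ + y₁ ^ 2)
    set d := (x₁ * y₂ - x₂ * y₁) / (x₁ ^ 2 + x₁ * y₁ + y₁ ^ 2)
    rw [e1, e2, show (c - 1) * x₁ - d * y₁ = x₂ - x₁ by rw [← e1]; ring,
      show (c - 1) * y₁ + d * (x₁ + y₁) = y₂ - y₁ by rw [← e2]; ring] at this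
    exact this

/-- If `w - 1` is shorter than `w` and than `1`, then `w` is at most 60 degrees from `1`. -/
lemma near (h : Hex F) {x y : ℝ} (h1 : F (x - 1) y < F x y) (h2 : F (x - 1) y < F 1 0) :
    (0 ≤ x ∧ 0 ≤ y) ∨ (y ≤ 0 ∧ 0 ≤ x + y) := by
  have h10 := h.nonneg 1 0
  by_contra hcon
  rw [not_or, not_and_or, not_and_or] at hcon
  obtain ⟨ha, hb⟩ := hcon
  rcases le_total 0 y with hy | hy
  · have hx : x < 0 := by
      rcases ha with ha | ha
      · exact not_le.mp ha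
      · exact absurd hy ha
    rcases le_total 0 (x + y) with hxy | hxy
    · -- sector [60, 120]
      have e1 : F (x - 1) y = F (x + y - 1) (1 - x) := by
        rw [← h.rot' (x - 1) y]; congr 1 <;> ring
      have e2 : F x y = F (x + y) (-x) := (h.rot' x y).symm
      rcases le_total 1 (x + y) with h3 | h3
      · have := h.low_y (show 0 ≤ x + y - 1 by linarith) (show 0 ≤ 1 - x by linarith)
        rw [e1] at h2
        nlinarith
      · have e3 : F (x - 1) y = F y (1 - (x + y)) := by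
          rw [e1, ← h.rot' (x + y - 1) (1 - x)]; congr 1 <;> ring
        have h4 := h.low_x (show 0 ≤ y by linarith) (show 0 ≤ 1 - (x + y) by linarith)
        have h5 := h.up hxy (show 0 ≤ -x by linarith)
        rw [e3, e2] at h1
        nlinarith
    · -- sector [120, 180]
      have e1 : F (x - 1) y = F y (1 - (x + y)) := by
        rw [← h.rot' (x - 1) y, ← h.rot' (x - 1 + y) (-(x - 1))]; congr 1 <;> ring
      have e2 : F x y = F y (-(x + y)) := by
        rw [← h.rot' x y, ← h.rot' (x + y) (-x)]; congr 1; ring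
      have := h.mono hy le_rfl (show 0 ≤ -(x + y) by linarith)
        (show -(x + y) ≤ 1 - (x + y) by linarith)
      rw [e1, e2] at h1
      linarith
  · have hxy : x + y < 0 := by
      rcases hb with hb | hb
      · exact absurd hy hb
      · exact not_le.mp hb
    rcases le_total x 0 with hx | hx
    · have e1 : F (x - 1) y = F (1 - x) (-y) := by
        rw [← h.neg (x - 1) y]; congr 1; ring
      have := h.mono (show 0 ≤ -x by linarith) (show -x ≤ 1 - x by linarith)
        (show 0 ≤ -y by linarith) le_rfl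
      rw [h.neg] at this
      rw [e1] at h1
      linarith
    · have e1 : F (x - 1) y = F (1 - (x + y)) (x - 1) := by
        rw [← h.rot2 (x - 1) y]; congr 1; ring
      have e2 : F x y = F (-(x + y)) x := (h.rot2 x y).symm
      rcases le_total 1 x with h3 | h3
      · have := h.low_x (show 0 ≤ 1 - (x + y) by linarith) (show 0 ≤ x - 1 by linarith)
        rw [e1] at h2
        nlinarith
      · have e3 : F (x - 1) y = F (1 - x) (-y) := by
          rw [← h.neg (x - 1) y]; congr 1; ring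
        have h4 := h.low_y (show 0 ≤ 1 - x by linarith) (show 0 ≤ -y by linarith)
        have h5 := h.up (show 0 ≤ -(x + y) by linarith) hx
        rw [e3, e2] at h1
        nlinarith

end Hex

end Pool.Agent.Work.MP_7453a1_nt_sym
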