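import Pool.Agent.Work.MP_7453a1_nt_sym.Coord

set_option autoImplicit false

/-!
Block I.
-/

namespace Pool.Agent.Work.MP_7453a1_nt_sym

open Pool.Agent.Work.MP_7453a1_nt_norm Pool.Agent.Work.MP_7453a1_nt_h45

namespace Hex

variable {F : ℝ → ℝ → ℝ}

lemma comb3 (h : Hex F) {a b c x y x₁ y₁ x₂ y₂ x₃ y₃ : ℝ} (ha : 0 ≤ a) (hb : 0 ≤ b) (hc : 0 ≤ c)
    (hx : x = a * x₁ + b * x₂ + c * x₃) (hy : y = a * y₁ + b * y₂ + c * y₃) :
    F x y ≤ a * F x₁ y₁ + b * F x₂ y₂ + c * F x₃ y₃ := by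
  have h1 := h.add (a * x₁ + b * x₂) (a * y₁ + b * y₂) (c * x₃) (c * y₃)
  have h2 := h.add (a * x₁) (a * y₁) (b * x₂) (b * y₂)
  rw [h.smul, abs_of_nonneg hc, ← hx, ← hy] at h1
  rw [h.smul, h.smul, abs_of_nonneg ha, abs_of_nonneg hb] at h2
  linarith

lemma fst_lt (h : Hex F) {p q : ℝ} (hp : 0 ≤ p) (hq : 0 ≤ q) (h0 : F p q < F 1 0) : p < 1 := by
  have := h.low_x hp hq
  by_contra hcon; push Not at hcon
  nlinarith [h.nonneg 1 0]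

lemma snd_lt (h : Hex F) {p q : ℝ} (hp : 0 ≤ p) (hq : 0 ≤ q) (h0 : F p q < F 1 0) : q < 1 := by
  have := h.low_y hp hq
  by_contra hcon; push Not at hcon
  nlinarith [h.nonneg 1 0]

/-- rotation of a vector on the negative side -/
lemma side (h : Hex F) (p q : ℝ) : F (p + q) (-q) = F q p := by
  rw [← h.rot (p + q)]; congr 1 <;> ring

/-- `x` is at most `e1 - R v` or at most `e1`. -/
lemma I_mid (h : Hex F) {p₀ q₀ p₁ q₁ : ℝ} (hp₀ : 0 ≤ p₀) (hq₀ : 0 ≤ q₀) (hp₁ : 0 ≤ p₁)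
    (hq₁ : 0 ≤ q₁) (h0 : F p₀ q₀ < F 1 0) (h1 : F (p₁ + q₁) (-q₁) < F 1 0)
    (h3 : F (p₁ + q₁ - 1) (-q₁) ≤ F (p₁ + q₁) (-q₁)) :
    F (p₁ + q₁ - p₀) (-q₁ - q₀) ≤ F (p₁ + q₁) (-q₁) ∨
      F (p₁ + q₁ - p₀) (-q₁ - q₀) ≤ F (p₁ + q₁) (-q₁ - 1) := by
  have h10 := h.nonneg 1 0
  have bp0 := h.fst_lt hp₀ hq₀ h0
  have bq0 := h.snd_lt hp₀ hq₀ h0
  have bp1 := h.snd_lt hq₁ hp₁ (by rw [← h.side]; exact h1)
  have bq1 := h.fst_lt hq₁ hp₁ (by rw [← h.side]; exact h1)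
  rcases le_total (p₀ + q₀) 1 with hA | hA
  · have c := h.comb3 (a := 1 - (p₀ + q₀)) (b := p₀) (c := q₀) (x := p₁ + q₁ - p₀)
      (y := -q₁ - q₀) (x₁ := p₁ + q₁) (y₁ := -q₁) (x₂ := p₁ + q₁ - 1) (y₂ := -q₁) (x₃ := p₁ + q₁)
      (y₃ := -q₁ - 1) (by linarith) hp₀ hq₀ (by ring) (by ring)
    rcases le_total (F (p₁ + q₁) (-q₁ - 1)) (F (p₁ + q₁) (-q₁)) with h4 | h4
    · left; nlinarith
    · right; nlinarith
  · right
    have hp0' : 0 < p₀ := by linarith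
    set D := p₀ * (1 + q₁) + q₀ * (p₁ + q₁) with hD
    have hDpos : 0 < D := by
      have : 0 < p₀ * (1 + q₁) := mul_pos hp0' (by linarith)
      have : 0 ≤ q₀ * (p₁ + q₁) := by positivity
      linarith
    have hB : (p₁ + q₁) * (1 - q₀) ≤ p₀ * (1 + q₁) := by
      have t1 : (p₁ + q₁) * (1 - q₀) ≤ (p₁ + q₁) * p₀ :=
        mul_le_mul_of_nonneg_left (by linarith) (by linarith)
      have t2 : p₀ * (p₁ + q₁) ≤ p₀ * (1 + q₁) := mul_le_mul_of_nonneg_left (by linarith) hp₀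
      linarith
    have c1 := h.comb (c := D) (p := D - p₀) (q := D - (p₁ + q₁)) (x := p₁ + q₁ - p₀)
      (y := -q₁ - q₀) (x₁ := p₁ + q₁) (y₁ := -q₁ - 1) (x₂ := -p₀) (y₂ := -q₀) hDpos.le
      (by rw [hD]; nlinarith [mul_nonneg hq₀ (add_nonneg hp₁ hq₁), mul_nonneg hp₀ hq₁])
      (by rw [hD]; nlinarith) (by rw [hD]; ring) (by rw [hD]; ring)
    have c2 := h.comb (c := D) (p := p₀) (q := p₁ + q₁) (x := 0) (y := -1)
      (x₁ := p₁ + q₁) (y₁ := -q₁ - 1) (x₂ := -p₀) (y₂ := -q₀) hDpos.le hp₀ (by linarith)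
      (by ring) (by rw [hD]; ring)
    have e : F 0 (-1) = F 1 0 := by
      rw [← h.zero_one, ← h.neg 0 1, neg_zero]
    rw [h.neg p₀ q₀] at c1 c2
    rw [e] at c2
    have c3 : D * (F (p₁ + q₁ - p₀) (-q₁ - q₀) + F 1 0)
        ≤ D * (F (p₁ + q₁) (-q₁ - 1) + F p₀ q₀) := by nlinarith
    have c4 := le_of_mul_le_mul_left c3 hDpos
    linarith

/-- `e1 - R v` is at most `e1 + v`. -/
lemma I_last (h : Hex F) {p₁ q₁ : ℝ} (hp₁ : 0 ≤ p₁) (hq₁ : 0 ≤ q₁)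
    (h1 : F (p₁ + q₁) (-q₁) < F 1 0) (h3 : F (p₁ + q₁ - 1) (-q₁) ≤ F (p₁ + q₁) (-q₁)) :
    F (p₁ + q₁) (-q₁ - 1) ≤ F (p₁ + q₁ + 1) (-q₁) := by
  have bp1 := h.snd_lt hq₁ hp₁ (by rw [← h.side]; exact h1)
  have bq1 := h.fst_lt hq₁ hp₁ (by rw [← h.side]; exact h1)
  have e1 : F (p₁ + q₁) (-q₁ - 1) = F (1 - p₁) (p₁ + q₁) := by
    rw [← h.rot2 (p₁ + q₁)]; congr 1; ring
  have e2 : F (p₁ + q₁ + 1) (-q₁) = F q₁ (p₁ + 1) := by
    rw [← h.rot (p₁ + q₁ + 1)]; congr 1 <;> ring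
  have e3 : F (p₁ + q₁ - 1) (-q₁) = F (1 - p₁) (p₁ + q₁ - 1) := by
    rw [← h.rot' (p₁ + q₁ - 1), ← h.neg (p₁ + q₁ - 1 + -q₁)]; congr 1 <;> ring
  rw [e1, e2]
  rcases le_total 1 (p₁ + q₁) with hB | hB
  · exact h.mono (by linarith) (by linarith) (by linarith) (by linarith)
  · set D := q₁ * (1 - (p₁ + q₁)) + (1 - p₁) * (1 + p₁) with hD
    have t1 : 0 ≤ q₁ * (1 - (p₁ + q₁)) := mul_nonneg hq₁ (by linarith)
    have t2 : 0 < (1 - p₁) * (1 + p₁) := mul_pos (by linarith) (by linarith)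
    have t3 : 0 ≤ (1 - p₁) * p₁ := mul_nonneg (by linarith) hp₁
    have t4 : q₁ * (p₁ + q₁) ≤ (1 - p₁) * 1 := mul_le_mul (by linarith) hB (by linarith)
      (by linarith)
    have hDpos : 0 < D := by linarith
    have c1 := h.comb (c := D) (p := 1 - p₁) (q := (1 - p₁) * (1 + p₁) - q₁ * (p₁ + q₁))
      (x := 1 - p₁) (y := p₁ + q₁) (x₁ := q₁) (y₁ := p₁ + 1) (x₂ := 1 - p₁) (y₂ := p₁ + q₁ - 1)
      hDpos.le (by linarith) (by nlinarith) (by rw [hD]; ring) (by rw [hD]; ring)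
    have c2 := h.comb (c := D) (p := D - (1 - p₁))
      (q := D - ((1 - p₁) * (1 + p₁) - q₁ * (p₁ + q₁)))
      (x := q₁) (y := p₁) (x₁ := q₁) (y₁ := p₁ + 1) (x₂ := 1 - p₁) (y₂ := p₁ + q₁ - 1)
      hDpos.le (by rw [hD]; nlinarith) (by rw [hD]; nlinarith) (by rw [hD]; ring)
      (by rw [hD]; ring)
    have c3 : D * (F (1 - p₁) (p₁ + q₁) + F q₁ p₁)
        ≤ D * (F q₁ (p₁ + 1) + F (1 - p₁) (p₁ + q₁ - 1)) := by nlinarith
    have c4 := le_of_mul_le_mul_left c3 hDpos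
    rw [e3, h.side] at h3
    linarith

theorem I_core (h : Hex F) {p₀ q₀ p₁ q₁ : ℝ} (hp₀ : 0 ≤ p₀) (hq₀ : 0 ≤ q₀) (hp₁ : 0 ≤ p₁)
    (hq₁ : 0 ≤ q₁) (h0 : F p₀ q₀ < F 1 0) (h1 : F (p₁ + q₁) (-q₁) < F 1 0)
    (h3 : F (p₁ + q₁ - 1) (-q₁) ≤ F (p₁ + q₁) (-q₁)) :
    F (p₁ + q₁ - p₀) (-q₁ - q₀) ≤ F (p₁ + q₁ + 1) (-q₁) := by
  rcases h.I_mid hp₀ hq₀ hp₁ hq₁ h0 h1 h3 with h4 | h4
  · have c := h.comb (c := 2) (p := 1) (q := 1) (x := p₁ + q₁) (y := -q₁) (x₁ := p₁ + q₁ - 1)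
      (y₁ := -q₁) (x₂ := p₁ + q₁ + 1) (y₂ := -q₁) (by norm_num) (by norm_num) (by norm_num)
      (by ring) (by ring)
    linarith
  · exact h4.trans (h.I_last hp₁ hq₁ h1 h3)

end Hex

/-- The mirror image of a configuration of coordinates. -/
lemma mirror_apply (F : ℝ → ℝ → ℝ) (p q : ℝ) :
    (fun x y => F (x + y) (-y)) (p + q) (-q) = F p q := by
  show F (p + q + -q) (- -q) = F p q
  congr 1 <;> ring

theorem stmt_I : Stmt_I := by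
  intro N R v e0 e1 hs c
  obtain ⟨R', p₀, q₀, p₁, q₁, hs', he0, he1, pc⟩ := c.pc hs
  have gx : gauge N R' v (p₁ + q₁ - p₀) (-q₁ - q₀) = N (e1 - e0) := by
    unfold gauge; congr 1; rw [he0, he1]; module
  have b1 := pc.h1; have b2 := pc.h2; have b3 := pc.h3; have b0 := pc.h0
  constructor
  · have := pc.hex.I_core pc.hp0 pc.hq0 pc.hp1 pc.hq1 b0 (b1.trans b0) (by linarith)
    rw [gx] at this
    refine this.trans (le_of_eq ?_)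
    unfold gauge; congr 1; rw [he1]; module
  · have := pc.hex.mirror.I_core (p₀ := p₁) (q₀ := q₁) (p₁ := p₀) (q₁ := q₀) pc.hp1 pc.hq1
      pc.hp0 pc.hq0 (by
        show gauge N R' v (p₁ + q₁) (-q₁) < gauge N R' v (1 + 0) (-0)
        rw [add_zero, neg_zero]; exact b1.trans b0) (by
        show gauge N R' v (p₀ + q₀ + -q₀) (- -q₀) < gauge N R' v (1 + 0) (-0)
        rw [add_zero, neg_zero, neg_neg, add_neg_cancel_right]; exact b0) (by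
        show gauge N R' v (p₀ + q₀ - 1 + -q₀) (- -q₀) ≤ gauge N R' v (p₀ + q₀ + -q₀) (- -q₀)
        rw [neg_neg, add_neg_cancel_right, show p₀ + q₀ - 1 + -q₀ = p₀ - 1 by ring]
        linarith)
    have e1' : gauge N R' v (p₀ + q₀ - p₁ + (-q₀ - q₁)) (-(-q₀ - q₁)) = N (e1 - e0) := by
      rw [← map_neg_eq_map N (e1 - e0)]
      unfold gauge; congr 1; rw [he0, he1]; module
    have e2' : gauge N R' v (p₀ + q₀ + 1 + -q₀) (- -q₀) = N (e0 + v) := by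
      unfold gauge; congr 1; rw [he0]; module
    rw [← e1', ← e2']
    exact this

end Pool.Agent.Work.MP_7453a1_nt_sym
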