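import Pool.Agent.Work.MP_7453a1_nt_h45.FTwo
import Pool.Agent.Work.MP_7453a1_nt_h45.Cmp

set_option autoImplicit false

/-!
Norms on the plane with a linear symmetry of order three: statements of the blocks.
-/

namespace Pool.Agent.Work.MP_7453a1_nt_sym

open Pool.Agent.Work.MP_7453a1_nt_norm Pool.Agent.Work.MP_7453a1_nt_h45 Filter
open scoped ENNReal

abbrev V : Type := Fin 2 → ℝ

/-- `R` is a linear symmetry of `N` with `R² = R - 1` (rotation by 60 degrees). -/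
structure Sym (N : Seminorm ℝ V) (R : V →ₗ[ℝ] V) : Prop where
  inv : ∀ z, N (R z) = N z
  sq : ∀ z, R (R z) = R z - z

/-- The planar configuration at a bad exceptional step: `e0 - v`, `e1 - v` are the errors `e2`,
`e3`. -/
structure Cfg (N : Seminorm ℝ V) (v e0 e1 : V) : Prop where
  n1 : N e1 < N e0
  n2 : N (e0 - v) < N e1
  n3 : N (e1 - v) < N (e0 - v)
  nv : N e0 < N v
  nx : N e0 < N (e1 - e0)

/-- Block K. -/
def Stmt_K : Prop := ∀ (N : Seminorm ℝ V) (R : V →ₗ[ℝ] V) (v e0 e1 : V), Sym N R → Cfg N v e0 e1 →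
  N (e1 - e0) ≤ N (e1 - e0 + v)

/-- Block I. -/
def Stmt_I : Prop := ∀ (N : Seminorm ℝ V) (R : V →ₗ[ℝ] V) (v e0 e1 : V), Sym N R → Cfg N v e0 e1 →
  N (e1 - e0) ≤ N (e1 + v) ∧ N (e1 - e0) ≤ N (e0 + v)

/-- Block F. -/
def Stmt_F : Prop := ∀ (N : Seminorm ℝ V) (R : V →ₗ[ℝ] V) (v e0 e1 a : V), Sym N R →
  Cfg N v e0 e1 → N v < N (e1 - e0) → N a < N (e1 - e0) → N v < N a → ∀ p : V, (p = e0 ∨ p = e1) →
  2 * N v ≤ N (a + (p + v)) → 2 * N v ≤ N (a - (p + v)) → 2 * N e0 ≤ N (a + (p - v)) →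
  2 * N e0 ≤ N (a - (p - v)) → False

/-- Block Z. -/
def Stmt_Z : Prop := ∀ (N : Seminorm ℝ V) (R : V →ₗ[ℝ] V) (v e0 e1 a : V), Sym N R →
  Cfg N v e0 e1 → ∀ p : V, (p = e0 ∨ p = e1) → 2 * N e0 ≤ N (a + p) → 2 * N e0 ≤ N (a - p) →
  N (e1 - e0) ≤ N a

/-- Block P. -/
def Stmt_P : Prop := ∀ (N : Seminorm ℝ V) (R : V →ₗ[ℝ] V) (e X U : V), Sym N R →
  N (e - X) < N e → N (e - U) < N e → N e < N X → N e < N U → N X ≤ N (X + U) ∨ N U ≤ N (X + U)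

/-- A frame in which nonzero integer vectors are long. -/
structure IsFrame2 (N : Seminorm ℝ V) (Θ : V) (z : ℕ → Pt 2) : Prop extends IsFrame N Θ z where
  zero : ∀ w : Pt 2, w ≠ 0 → w.1 = 0 → 2 * er N Θ (z 0) ≤ er N Θ w

/-- Block SIX: the six-term inequality (from K, I, F, Z, P). -/
def Stmt_SIX : Prop := ∀ (N : Seminorm ℝ V) (R : V →ₗ[ℝ] V) (Θ : V) (z : ℕ → Pt 2), Sym N R →
  IsFrame2 N Θ z → ∀ i : ℕ, (z (i + 3)).1 + (z (i + 4)).1 ≤ (z (i + 6)).1 ∨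
    (z (i + 5)).1 + (z (i + 1)).1 ≤ (z (i + 6)).1

/-- Block LOW: the lower bound (from SIX). -/
def Stmt_LOW : Prop := ∀ (N : Seminorm ℝ V) (R : V →ₗ[ℝ] V) (Θ : V) (ρ : ℝ), IsNorm N → Sym N R →
  Admissible Θ → ρ ^ 3 = ρ + 1 → ENNReal.ofReal ρ ≤ G N Θ

/-- Block UP: the upper bound, with a point that attains it. -/
def Stmt_UP : Prop := ∀ (N : Seminorm ℝ V) (R : V →ₗ[ℝ] V) (ρ : ℝ), IsNorm N → Sym N R →
  ρ ^ 3 = ρ + 1 → ∃ Θ : V, Admissible Θ ∧ G N Θ ≤ ENNReal.ofReal ρ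

end Pool.Agent.Work.MP_7453a1_nt_sym
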