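import Pool.Agent.Work.MP_7453a1_nt_sym.Three
import Pool.Agent.Work.MP_7453a1_nt_sym.Interface

set_option autoImplicit false

/-!
The configuration in coordinates, and block K.
-/

namespace Pool.Agent.Work.MP_7453a1_nt_sym

open Pool.Agent.Work.MP_7453a1_nt_norm Pool.Agent.Work.MP_7453a1_nt_h45

namespace Hex

variable {F : ℝ → ℝ → ℝ}

/-- Block K in coordinates: `v = (1, 0)`, `e0 = (p₀, q₀)`, `e1 = (p₁ + q₁, -q₁)`. -/
theorem K_coord (h : Hex F) {p₀ q₀ p₁ q₁ : ℝ} (hp₀ : 0 ≤ p₀) (hq₀ : 0 ≤ q₀) (hp₁ : 0 ≤ p₁)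
    (hq₁ : 0 ≤ q₁) (h0 : F p₀ q₀ < F 1 0) (h1 : F (p₁ + q₁) (-q₁) < F p₀ q₀)
    (h3 : F (p₁ + q₁ - 1) (-q₁) < F (p₀ - 1) q₀)
    (hx : F (p₀ - 1) q₀ < F (p₁ + q₁ - p₀) (-q₁ - q₀)) :
    F (p₁ + q₁ - p₀) (-q₁ - q₀) ≤ F (p₁ + q₁ - p₀ + 1) (-q₁ - q₀) := by
  have h10 : 0 < F 1 0 := lt_of_le_of_lt (h.nonneg _ _) h0
  by_contra hK
  push Not at hK
  -- bounds for the coordinates
  have bp0 : p₀ < 1 := by
    have := h.low_x hp₀ hq₀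
    by_contra hcon; push Not at hcon
    nlinarith
  have bq0 : q₀ < 1 := by
    have := h.low_y hp₀ hq₀
    by_contra hcon; push Not at hcon
    nlinarith
  have e1 : F (p₁ + q₁) (-q₁) = F q₁ p₁ := by
    rw [← h.rot (p₁ + q₁)]; congr 1 <;> ring
  have bp1 : p₁ < 1 := by
    have := h.low_y hq₁ hp₁
    by_contra hcon; push Not at hcon
    nlinarith
  have bq1 : q₁ < 1 := by
    have := h.low_x hq₁ hp₁
    by_contra hcon; push Not at hcon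
    nlinarith
  -- `R² x` and `R² (x + v)`
  have ex : F (p₁ + q₁ - p₀) (-q₁ - q₀) = F (p₀ + q₀ - p₁) (p₁ + q₁ - p₀) := by
    rw [← h.rot2 (p₁ + q₁ - p₀)]; congr 1; ring
  have exv : F (p₁ + q₁ - p₀ + 1) (-q₁ - q₀) = F (p₀ + q₀ - p₁ - 1) (p₁ + q₁ - p₀ + 1) := by
    rw [← h.rot2 (p₁ + q₁ - p₀ + 1)]; congr 1; ring
  have hA : 1 < p₀ + q₀ := by
    by_contra hA
    push Not at hA
    rcases lt_or_ge (p₁ + q₁) p₀ with hB | hB
    · -- `h` is not shorter than `g`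
      have c1 := h.low_x (show 0 ≤ 1 - (p₁ + q₁) by linarith) hq₁
      have e2 : F (p₁ + q₁ - 1) (-q₁) = F (1 - (p₁ + q₁)) q₁ := by
        rw [← h.neg (p₁ + q₁ - 1)]; congr 1 <;> ring
      have e3 : F (p₀ - 1) q₀ = F q₀ (1 - (p₀ + q₀)) := by
        rw [← h.rot' (p₀ - 1) q₀, ← h.rot' (p₀ - 1 + q₀) (-(p₀ - 1))]; congr 1 <;> ring
      have c2 := h.up hq₀ (show 0 ≤ 1 - (p₀ + q₀) by linarith)
      rw [e2, e3] at h3
      nlinarith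
    · rcases lt_or_ge (p₀ + q₀) p₁ with hC | hC
      · have e2 : F (p₁ + q₁ - p₀) (-q₁ - q₀) = F (q₀ + q₁) (p₁ - (p₀ + q₀)) := by
          rw [ex, ← h.rot' (p₀ + q₀ - p₁)]; congr 1 <;> ring
        have e3 : F (p₁ + q₁ - p₀ + 1) (-q₁ - q₀) = F (q₀ + q₁) (1 + (p₁ - (p₀ + q₀))) := by
          rw [exv, ← h.rot' (p₀ + q₀ - p₁ - 1)]; congr 1 <;> ring
        have := h.mono (show 0 ≤ q₀ + q₁ by linarith) le_rfl
          (show 0 ≤ p₁ - (p₀ + q₀) by linarith)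
          (show p₁ - (p₀ + q₀) ≤ 1 + (p₁ - (p₀ + q₀)) by linarith)
        rw [e2, e3] at hK
        linarith
      · have e3 : F (p₁ + q₁ - p₀ + 1) (-q₁ - q₀) = F (q₀ + q₁) (1 - (p₀ + q₀ - p₁)) := by
          rw [exv, ← h.rot' (p₀ + q₀ - p₁ - 1)]; congr 1 <;> ring
        have c1 := h.low_x (show 0 ≤ q₀ + q₁ by linarith)
          (show 0 ≤ 1 - (p₀ + q₀ - p₁) by linarith)
        have c2 := h.up (show 0 ≤ p₀ + q₀ - p₁ by linarith) (show 0 ≤ p₁ + q₁ - p₀ by linarith)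
        rw [e3, ex] at hK
        nlinarith
  -- orientation
  have hor : (p₀ + q₀ - 1) * (p₁ + q₁ - 1) ≤ (1 - p₁) * (1 - p₀) := by
    rcases le_or_gt (p₁ + q₁) 1 with hB | hB
    · have : (p₀ + q₀ - 1) * (p₁ + q₁ - 1) ≤ 0 :=
        mul_nonpos_of_nonneg_of_nonpos (by linarith) (by linarith)
      have : 0 ≤ (1 - p₁) * (1 - p₀) := mul_nonneg (by linarith) (by linarith)
      linarith
    · have hq1' : 0 < q₁ := by linarith
      have hq0' : 0 < q₀ := by linarith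
      have c1 := h.comb (c := (p₀ + q₀) * q₁ + p₁ * q₀) (p := q₁) (q := q₀) (x := 0) (y := 1)
        (x₁ := -q₀) (y₁ := p₀ + q₀) (x₂ := q₁) (y₂ := p₁) (by positivity) hq1'.le hq0'.le
        (by ring) (by ring)
      rw [h.zero_one, h.rot, ← e1] at c1
      have o1 : (p₀ + q₀ - 1) * q₁ ≤ (1 - p₁) * q₀ := by
        have c2 : ((p₀ + q₀) * q₁ + p₁ * q₀) * F 1 0 ≤ (q₁ + q₀) * F 1 0 := by
          have : q₁ * F p₀ q₀ ≤ q₁ * F 1 0 := mul_le_mul_of_nonneg_left h0.le hq1'.le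
          have : q₀ * F (p₁ + q₁) (-q₁) ≤ q₀ * F 1 0 :=
            mul_le_mul_of_nonneg_left (h1.trans h0).le hq0'.le
          linarith
        have := le_of_mul_le_mul_right c2 h10
        linarith
      have c3 := h.comb (c := (p₁ + q₁) * q₀ + p₀ * q₁) (p := q₀) (q := q₁) (x := 1) (y := 0)
        (x₁ := p₁ + q₁) (y₁ := -q₁) (x₂ := p₀) (y₂ := q₀) (by positivity) hq0'.le hq1'.le
        (by ring) (by ring)
      have o2 : (p₁ + q₁ - 1) * q₀ ≤ (1 - p₀) * q₁ := by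
        have c2 : ((p₁ + q₁) * q₀ + p₀ * q₁) * F 1 0 ≤ (q₀ + q₁) * F 1 0 := by
          have : q₁ * F p₀ q₀ ≤ q₁ * F 1 0 := mul_le_mul_of_nonneg_left h0.le hq1'.le
          have : q₀ * F (p₁ + q₁) (-q₁) ≤ q₀ * F 1 0 :=
            mul_le_mul_of_nonneg_left (h1.trans h0).le hq0'.le
          linarith
        have := le_of_mul_le_mul_right c2 h10
        linarith
      have m := mul_le_mul o1 o2 (mul_nonneg (by linarith) hq0'.le)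
        (mul_nonneg (by linarith) hq0'.le)
      have : (q₀ * q₁) * ((p₀ + q₀ - 1) * (p₁ + q₁ - 1)) ≤ (q₀ * q₁) * ((1 - p₁) * (1 - p₀)) := by
        nlinarith
      exact le_of_mul_le_mul_left this (mul_pos hq0' hq1')
  -- the three vectors
  have hg : F q₀ (1 - (p₀ + q₀)) = F (p₀ - 1) q₀ := by
    rw [← h.rot' (p₀ - 1) q₀, ← h.rot' (p₀ - 1 + q₀) (-(p₀ - 1))]; congr 1 <;> ring
  have hE3 : 0 ≤ q₀ * (p₀ + q₀ - p₁) + (p₀ + q₀ - p₁) * (1 - (p₀ + q₀))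
      + (1 - (p₀ + q₀)) * (p₁ + q₁ - p₀) := by nlinarith
  have h23 : F (p₀ + q₀ - p₁ + (1 - (p₀ + q₀))) (p₁ + q₁ - p₀ - (q₀ + (1 - (p₀ + q₀))))
      < F q₀ (1 - (p₀ + q₀)) := by
    rw [hg]
    refine lt_of_eq_of_lt ?_ h3
    rw [← h.rot' (p₁ + q₁ - 1), ← h.neg (p₁ + q₁ - 1 + -q₁)]
    congr 1 <;> ring
  have hD3 : 0 ≤ q₀ * (p₁ + q₁ - p₀) - (p₀ + q₀ - p₁) * (1 - (p₀ + q₀)) := by
    -- `b3` is near `R b2`; use the base `R b2 = (p₀ + q₀ - 1, 1 - p₀)`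
    have hne : p₀ + q₀ - 1 ≠ 0 ∨ 1 - p₀ ≠ 0 := Or.inl (by linarith)
    have hQ := quad_pos hne
    obtain ⟨f1, f2⟩ := coords (x₂ := p₀ + q₀ - p₁) (y₂ := p₁ + q₁ - p₀) hQ _ _ rfl rfl
    set Q := (p₀ + q₀ - 1) ^ 2 + (p₀ + q₀ - 1) * (1 - p₀) + (1 - p₀) ^ 2 with hQd
    set c := ((p₀ + q₀ - 1) * (p₀ + q₀ - p₁) + (p₀ + q₀ - p₁) * (1 - p₀)
      + (1 - p₀) * (p₁ + q₁ - p₀)) / Q with hc
    set d := ((p₀ + q₀ - 1) * (p₁ + q₁ - p₀) - (p₀ + q₀ - p₁) * (1 - p₀)) / Q with hd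
    have hRb : F (p₀ + q₀ - 1) (1 - p₀) = F q₀ (1 - (p₀ + q₀)) := by
      rw [← h.rot q₀]; congr 1 <;> ring
    have key := (h.base (p₀ + q₀ - 1) (1 - p₀)).near (x := c) (y := d) (by
      rw [show (c - 1) * (p₀ + q₀ - 1) - d * (1 - p₀) = (c * (p₀ + q₀ - 1) - d * (1 - p₀))
          - (p₀ + q₀ - 1) by ring,
        show (c - 1) * (1 - p₀) + d * (p₀ + q₀ - 1 + (1 - p₀)) = (c * (1 - p₀)
          + d * (p₀ + q₀ - 1 + (1 - p₀))) - (1 - p₀) by ring, f1, f2]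
      rw [ex, ← hg] at hx
      refine lt_trans ?_ hx
      refine lt_of_eq_of_lt ?_ h23
      congr 1 <;> ring) (by
      simp only [one_mul, zero_mul, sub_zero, add_zero]
      rw [show (c - 1) * (p₀ + q₀ - 1) - d * (1 - p₀) = (c * (p₀ + q₀ - 1) - d * (1 - p₀))
          - (p₀ + q₀ - 1) by ring,
        show (c - 1) * (1 - p₀) + d * (p₀ + q₀ - 1 + (1 - p₀)) = (c * (1 - p₀)
          + d * (p₀ + q₀ - 1 + (1 - p₀))) - (1 - p₀) by ring, f1, f2, hRb]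
      refine lt_of_eq_of_lt ?_ h23
      congr 1 <;> ring)
    have hcQ : c * Q = (p₀ + q₀ - 1) * (p₀ + q₀ - p₁) + (p₀ + q₀ - p₁) * (1 - p₀)
      + (1 - p₀) * (p₁ + q₁ - p₀) := by rw [hc]; field_simp
    have hdQ : d * Q = (p₀ + q₀ - 1) * (p₁ + q₁ - p₀) - (p₀ + q₀ - p₁) * (1 - p₀) := by
      rw [hd]; field_simp
    -- `E(Rb2, b3) = c Q`, `E(b2, b3) = -d Q`, `D(b2, b3) = E(Rb2, b3) - E(b2, b3) = (c + d) Q`
    have hDD : q₀ * (p₁ + q₁ - p₀) - (p₀ + q₀ - p₁) * (1 - (p₀ + q₀)) = (c + d) * Q := by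
      rw [add_mul, hcQ, hdQ]; ring
    have hEE : q₀ * (p₀ + q₀ - p₁) + (p₀ + q₀ - p₁) * (1 - (p₀ + q₀))
      + (1 - (p₀ + q₀)) * (p₁ + q₁ - p₀) = -d * Q := by
      rw [neg_mul, hdQ]; ring
    rw [hDD]
    rcases key with ⟨k1, k2⟩ | ⟨k1, k2⟩
    · exact mul_nonneg (by linarith) hQ.le
    · exact mul_nonneg k2 hQ.le
  refine h.three (x₁ := 1) (y₁ := 0) (x₂ := q₀) (y₂ := 1 - (p₀ + q₀)) (x₃ := p₀ + q₀ - p₁)
    (y₃ := p₁ + q₁ - p₀) (by linarith) (by linarith) (by linarith) hE3 h23 ?_ ?_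
  · refine lt_of_eq_of_lt ?_ h0
    rw [← h.rot p₀ q₀, ← h.neg (-q₀)]
    congr 1 <;> ring
  · rw [← ex]
    refine lt_of_eq_of_lt ?_ hK
    congr 1 <;> ring

end Hex

end Pool.Agent.Work.MP_7453a1_nt_sym
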