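import Pool.Agent.Work.MP_7453a1_nt_sym.Hex

set_option autoImplicit false

/-!
The relation `N (c - R b) < N b` has no cycles of length three.
-/

namespace Pool.Agent.Work.MP_7453a1_nt_sym

namespace Hex

variable {F : ℝ → ℝ → ℝ}

/-- `1 - R b` is shorter than `b` only if the first coordinate of `b` is at least `1`. -/
lemma one_le (h : Hex F) (h10 : 0 < F 1 0) {p₁ p₂ : ℝ} (hp₁ : 0 ≤ p₁) (hp₂ : 0 ≤ p₂)
    (hB : F (1 + p₂) (-(p₁ + p₂)) ≤ F p₁ p₂) : 1 ≤ p₁ := by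
  by_contra hcon
  push Not at hcon
  have e : F (1 + p₂) (-(p₁ + p₂)) = F (p₁ + p₂) (1 - p₁) := by
    rw [← h.rot (1 + p₂)]; congr 1 <;> ring
  have h1 := h.low (show 0 ≤ p₁ + p₂ by linarith) (show 0 ≤ 1 - p₁ by linarith)
  have h2 := h.up hp₁ hp₂
  rw [e] at hB
  have h3 : F (p₁ + p₂) (1 - p₁) ≤ (p₁ + p₂) * F 1 0 := hB.trans h2
  have h4 : (p₁ + p₂ + (1 - p₁)) * F (p₁ + p₂) (1 - p₁)
      ≤ (p₁ + p₂ + (1 - p₁)) * ((p₁ + p₂) * F 1 0) :=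
    mul_le_mul_of_nonneg_left h3 (by linarith)
  have h5 : 0 < (1 - p₁) ^ 2 * F 1 0 := mul_pos (by have : 0 < 1 - p₁ := by linarith
                                                    positivity) h10
  nlinarith

/-- The crossing inequality. -/
lemma cross (h : Hex F) {p₁ p₂ r₁ r₂ : ℝ} (hp₁ : 1 ≤ p₁) (hp₂ : 0 ≤ p₂) (hr₁ : 0 ≤ r₁)
    (hr : 1 < r₁ + r₂) (hab : (1 - r₁) * (p₁ - 1) ≤ (1 + p₂) * (r₁ + r₂ - 1)) :
    F (r₁ + p₂) (r₂ - (p₁ + p₂)) + F 1 0 ≤ F r₁ (r₂ - 1) + F (1 + p₂) (-(p₁ + p₂)) := by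
  set Den := r₁ * (p₁ - 1) + (1 + p₂) * (r₁ + r₂ - 1) with hDen
  have hpos : 0 < Den := by
    have h1 : 0 ≤ r₁ * (p₁ - 1) := mul_nonneg hr₁ (by linarith)
    have h2 : 0 < (1 + p₂) * (r₁ + r₂ - 1) := mul_pos (by linarith) (by linarith)
    linarith
  have h3 : 0 ≤ p₂ * (r₁ + r₂ - 1) := mul_nonneg hp₂ (by linarith)
  have h4 : 0 ≤ r₁ * (p₁ - 1) := mul_nonneg hr₁ (by linarith)
  have c1 := h.comb (c := Den) (p := Den - (p₁ - 1)) (q := Den - (r₁ + r₂ - 1))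
    (x := r₁ + p₂) (y := r₂ - (p₁ + p₂)) (x₁ := r₁) (y₁ := r₂ - 1) (x₂ := 1 + p₂)
    (y₂ := -(p₁ + p₂)) hpos.le (by rw [hDen]; nlinarith) (by rw [hDen]; nlinarith)
    (by rw [hDen]; ring) (by rw [hDen]; ring)
  have c2 := h.comb (c := Den) (p := r₁ + r₂ - 1) (q := p₁ - 1) (x := 1) (y := -1)
    (x₁ := 1 + p₂) (y₁ := -(p₁ + p₂)) (x₂ := r₁) (y₂ := r₂ - 1) hpos.le (by linarith)
    (by linarith) (by rw [hDen]; ring) (by rw [hDen]; ring)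
  have e : F 1 (-1) = F 1 0 := by
    have := h.rot 1 (-1)
    rw [neg_neg, add_neg_cancel] at this
    exact this.symm
  rw [e] at c2
  have : Den * (F (r₁ + p₂) (r₂ - (p₁ + p₂)) + F 1 0)
      ≤ Den * (F r₁ (r₂ - 1) + F (1 + p₂) (-(p₁ + p₂))) := by nlinarith
  exact le_of_mul_le_mul_left this hpos

/-- No cycles of length two. -/
lemma two (h : Hex F) (h10 : 0 < F 1 0) {c₁ c₂ : ℝ} (hc₁ : 0 ≤ c₁) (hc₂ : 0 ≤ c₂)
    (hB : F (1 + c₂) (-(c₁ + c₂)) ≤ F c₁ c₂) :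
    F c₁ c₂ + F 1 0 ≤ F c₁ (c₂ - 1) + F (1 + c₂) (-(c₁ + c₂)) := by
  have h1 := h.one_le h10 hc₁ hc₂ hB
  have e : F (c₁ + c₂) (-c₁) = F c₁ c₂ := h.rot' _ _
  rcases (show 1 ≤ c₁ + c₂ by linarith).eq_or_lt with h2 | h2
  · have h3 : c₁ = 1 := by linarith
    have h4 : c₂ = 0 := by linarith
    subst h3 h4
    have e : F 1 (-1) = F 1 0 := by
      have := h.rot 1 (-1)
      rw [neg_neg, add_neg_cancel] at this
      exact this.symm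
    norm_num
    linarith
  · have h3 := h.cross h1 hc₂ hc₁ h2 (by
      have : 0 ≤ (c₁ - 1) ^ 2 := sq_nonneg _
      have : 0 ≤ (1 + c₂) * (c₁ + c₂ - 1) := mul_nonneg (by linarith) (by linarith)
      nlinarith)
    rw [show c₂ - (c₁ + c₂) = -c₁ by ring, e] at h3
    exact h3

/-- No cycles of length three, coordinates with respect to the second vector. -/
lemma three_base (h : Hex F) (h10 : 0 < F 1 0) {p₁ p₂ r₁ r₂ : ℝ} (hp₁ : 0 ≤ p₁) (hp₂ : 0 ≤ p₂)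
    (hr₁ : 0 ≤ r₁) (hr₂ : 0 ≤ r₂) (h23 : F r₁ (r₂ - 1) < F 1 0)
    (h12 : F (1 + p₂) (-(p₁ + p₂)) < F p₁ p₂)
    (h31 : F (p₁ + r₂) (p₂ - (r₁ + r₂)) < F r₁ r₂) : False := by
  have hp := h.one_le h10 hp₁ hp₂ h12.le
  -- step 2
  have h13 : F (r₁ + p₂) (r₂ - (p₁ + p₂)) ≤ F p₁ p₂ := by
    by_cases hcase : 1 < r₁ + r₂ ∧ (1 - r₁) * (p₁ - 1) ≤ (1 + p₂) * (r₁ + r₂ - 1)
    · have := h.cross hp hp₂ hr₁ hcase.1 hcase.2
      linarith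
    · have htri : (1 + p₂) * (r₁ + r₂ - 1) ≤ (1 - r₁) * (p₁ - 1) := by
        by_contra hcon
        push Not at hcon
        rcases le_or_gt (r₁ + r₂) 1 with h1 | h1
        · have : 0 ≤ (1 - r₁) * (p₁ - 1) := mul_nonneg (by linarith) (by linarith)
          have : (1 + p₂) * (r₁ + r₂ - 1) ≤ 0 :=
            mul_nonpos_of_nonneg_of_nonpos (by linarith) (by linarith)
          linarith
        · exact hcase ⟨h1, hcon.le⟩
      have hs : 0 < p₁ + p₂ := by linarith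
      have c1 := h.comb (c := p₁ + p₂) (p := r₁ * (p₁ + p₂) + r₂ * p₂)
        (q := (p₁ + p₂) - r₁ * (p₁ + p₂) - r₂ * p₂ - r₂) (x := r₁ + p₂) (y := r₂ - (p₁ + p₂))
        (x₁ := 1 + p₂) (y₁ := -(p₁ + p₂)) (x₂ := p₂) (y₂ := -(p₁ + p₂)) hs.le (by positivity)
        (by nlinarith) (by ring) (by ring)
      have e : F p₂ (-(p₁ + p₂)) = F p₁ p₂ := by
        rw [← h.rot p₁ p₂, ← h.neg (-p₂) (p₁ + p₂), neg_neg]
      rw [e] at c1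
      have hF := h.nonneg p₁ p₂
      have c2 : (r₁ * (p₁ + p₂) + r₂ * p₂) * F (1 + p₂) (-(p₁ + p₂))
          ≤ (r₁ * (p₁ + p₂) + r₂ * p₂) * F p₁ p₂ :=
        mul_le_mul_of_nonneg_left h12.le (by positivity)
      have c3 : (p₁ + p₂) * F (r₁ + p₂) (r₂ - (p₁ + p₂)) ≤ (p₁ + p₂) * F p₁ p₂ := by
        nlinarith [mul_nonneg hr₂ hF]
      exact le_of_mul_le_mul_left c3 hs
  -- step 3: a cycle of length two
  have hFr : 0 < F r₁ r₂ := lt_of_le_of_lt (h.nonneg _ _) h31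
  have hFp : 0 < F p₁ p₂ := lt_of_le_of_lt (h.nonneg _ _) h12
  have hrne : r₁ ≠ 0 ∨ r₂ ≠ 0 := by
    by_contra hcon
    push Not at hcon
    rw [hcon.1, hcon.2, h.zero] at hFr
    exact lt_irrefl _ hFr
  rcases le_total 0 (p₁ * r₂ - r₁ * p₂) with hD | hD
  · have hQ := quad_pos (x := p₁) (y := p₂) (Or.inl (by linarith))
    obtain ⟨e1, e2⟩ := coords (x₂ := r₁) (y₂ := r₂) hQ _ _ rfl rfl
    set c := (p₁ * r₁ + r₁ * p₂ + p₂ * r₂) / (p₁ ^ 2 + p₁ * p₂ + p₂ ^ 2) with hc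
    set d := (p₁ * r₂ - r₁ * p₂) / (p₁ ^ 2 + p₁ * p₂ + p₂ ^ 2) with hd
    have hc0 : 0 ≤ c := div_nonneg (by positivity) hQ.le
    have hd0 : 0 ≤ d := div_nonneg hD hQ.le
    have key := (h.base p₁ p₂).two (by simpa using hFp) hc0 hd0 (by
      rw [e1, e2, show (1 + d) * p₁ - -(c + d) * p₂ = p₁ + (c * p₂ + d * (p₁ + p₂)) by ring,
        show (1 + d) * p₂ + -(c + d) * (p₁ + p₂) = p₂ - ((c * p₁ - d * p₂)
          + (c * p₂ + d * (p₁ + p₂))) by ring, e1, e2]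
      exact h31.le)
    simp only [one_mul, zero_mul, sub_zero, add_zero] at key
    rw [e1, e2, show (1 + d) * p₁ - -(c + d) * p₂ = p₁ + (c * p₂ + d * (p₁ + p₂)) by ring,
      show (1 + d) * p₂ + -(c + d) * (p₁ + p₂) = p₂ - ((c * p₁ - d * p₂)
        + (c * p₂ + d * (p₁ + p₂))) by ring, e1, e2,
      show c * p₁ - (d - 1) * p₂ = (c * p₁ - d * p₂) + p₂ by ring,
      show c * p₂ + (d - 1) * (p₁ + p₂) = (c * p₂ + d * (p₁ + p₂)) - (p₁ + p₂) by ring,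
      e1, e2] at key
    linarith
  · have hQ := quad_pos hrne
    obtain ⟨e1, e2⟩ := coords (x₂ := p₁) (y₂ := p₂) hQ _ _ rfl rfl
    set c := (r₁ * p₁ + p₁ * r₂ + r₂ * p₂) / (r₁ ^ 2 + r₁ * r₂ + r₂ ^ 2) with hc
    set d := (r₁ * p₂ - p₁ * r₂) / (r₁ ^ 2 + r₁ * r₂ + r₂ ^ 2) with hd
    have hc0 : 0 ≤ c := div_nonneg (by positivity) hQ.le
    have hd0 : 0 ≤ d := div_nonneg (by linarith) hQ.le
    have key := (h.base r₁ r₂).two (by simpa using hFr) hc0 hd0 (by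
      rw [e1, e2, show (1 + d) * r₁ - -(c + d) * r₂ = r₁ + (c * r₂ + d * (r₁ + r₂)) by ring,
        show (1 + d) * r₂ + -(c + d) * (r₁ + r₂) = r₂ - ((c * r₁ - d * r₂)
          + (c * r₂ + d * (r₁ + r₂))) by ring, e1, e2]
      exact h13)
    simp only [one_mul, zero_mul, sub_zero, add_zero] at key
    rw [e1, e2, show (1 + d) * r₁ - -(c + d) * r₂ = r₁ + (c * r₂ + d * (r₁ + r₂)) by ring,
      show (1 + d) * r₂ + -(c + d) * (r₁ + r₂) = r₂ - ((c * r₁ - d * r₂)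
        + (c * r₂ + d * (r₁ + r₂))) by ring, e1, e2,
      show c * r₁ - (d - 1) * r₂ = (c * r₁ - d * r₂) + r₂ by ring,
      show c * r₂ + (d - 1) * (r₁ + r₂) = (c * r₂ + d * (r₁ + r₂)) - (r₁ + r₂) by ring,
      e1, e2] at key
    linarith

/-- No cycles of length three, for three vectors given by their coordinates. -/
theorem three (h : Hex F) {x₁ y₁ x₂ y₂ x₃ y₃ : ℝ}
    (hD1 : 0 ≤ x₂ * y₁ - x₁ * y₂) (hE1 : 0 ≤ x₂ * x₁ + x₁ * y₂ + y₂ * y₁)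
    (hD3 : 0 ≤ x₂ * y₃ - x₃ * y₂) (hE3 : 0 ≤ x₂ * x₃ + x₃ * y₂ + y₂ * y₃)
    (h23 : F (x₃ + y₂) (y₃ - (x₂ + y₂)) < F x₂ y₂)
    (h12 : F (x₂ + y₁) (y₂ - (x₁ + y₁)) < F x₁ y₁)
    (h31 : F (x₁ + y₃) (y₁ - (x₃ + y₃)) < F x₃ y₃) : False := by
  have hF2 : 0 < F x₂ y₂ := lt_of_le_of_lt (h.nonneg _ _) h23
  have hne : x₂ ≠ 0 ∨ y₂ ≠ 0 := by
    by_contra hcon
    push Not at hcon
    rw [hcon.1, hcon.2, h.zero] at hF2
    exact lt_irrefl _ hF2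
  have hQ := quad_pos hne
  obtain ⟨e1, e2⟩ := coords (x₂ := x₁) (y₂ := y₁) hQ _ _ rfl rfl
  obtain ⟨e3, e4⟩ := coords (x₂ := x₃) (y₂ := y₃) hQ _ _ rfl rfl
  set c := (x₂ * x₁ + x₁ * y₂ + y₂ * y₁) / (x₂ ^ 2 + x₂ * y₂ + y₂ ^ 2) with hc
  set d := (x₂ * y₁ - x₁ * y₂) / (x₂ ^ 2 + x₂ * y₂ + y₂ ^ 2) with hd
  set c' := (x₂ * x₃ + x₃ * y₂ + y₂ * y₃) / (x₂ ^ 2 + x₂ * y₂ + y₂ ^ 2) with hc'
  set d' := (x₂ * y₃ - x₃ * y₂) / (x₂ ^ 2 + x₂ * y₂ + y₂ ^ 2) with hd'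
  refine (h.base x₂ y₂).three_base (p₁ := c) (p₂ := d) (r₁ := c') (r₂ := d') (by simpa using hF2)
    (div_nonneg hE1 hQ.le) (div_nonneg hD1 hQ.le) (div_nonneg hE3 hQ.le) (div_nonneg hD3 hQ.le)
    ?_ ?_ ?_
  · simp only [one_mul, zero_mul, sub_zero, add_zero]
    rw [show c' * x₂ - (d' - 1) * y₂ = (c' * x₂ - d' * y₂) + y₂ by ring,
      show c' * y₂ + (d' - 1) * (x₂ + y₂) = (c' * y₂ + d' * (x₂ + y₂)) - (x₂ + y₂) by ring,
      e3, e4]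
    exact h23
  · rw [show (1 + d) * x₂ - -(c + d) * y₂ = x₂ + (c * y₂ + d * (x₂ + y₂)) by ring,
      show (1 + d) * y₂ + -(c + d) * (x₂ + y₂) = y₂ - ((c * x₂ - d * y₂)
        + (c * y₂ + d * (x₂ + y₂))) by ring, e1, e2]
    exact h12
  · rw [show (c + d') * x₂ - (d - (c' + d')) * y₂ = (c * x₂ - d * y₂)
        + (c' * y₂ + d' * (x₂ + y₂)) by ring,
      show (c + d') * y₂ + (d - (c' + d')) * (x₂ + y₂) = (c * y₂ + d * (x₂ + y₂))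
        - ((c' * x₂ - d' * y₂) + (c' * y₂ + d' * (x₂ + y₂))) by ring, e1, e2, e3, e4]
    exact h31

end Hex

end Pool.Agent.Work.MP_7453a1_nt_sym
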