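import Pool.Agent.Work.MP_7453a1_nt_sym.Interface
import Pool.Agent.Work.MP_7453a1_nt.Chain

set_option autoImplicit false

/-!
Block UP, planar part: the operator `Λ = a R - c` with `Λ³ = Λ + 1`, its contraction property and
the lower bound for polynomials in `Λ`.
-/

namespace Pool.Agent.Work.MP_7453a1_nt_sym.UPAux

open Pool.Agent.Work.MP_7453a1_nt_norm Pool.Agent.Work.MP_7453a1_nt_sym
open Pool.Agent.Work.MP_7453a1_nt (L Q Nf U zv L_U Q_U L_zv Q_zv L_mul_Q Nf_eq_zero rho_bounds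
  rho_sq_bounds Q_sq mul_bd)

variable {N : Seminorm ℝ V} {R : V →ₗ[ℝ] V}

lemma N_sub (h : Sym N R) (w : V) : N (w - R w) = N w := by
  rw [← h.inv (w - R w), map_sub, h.sq]
  congr 1
  abel

/-- The sector estimate. -/
lemma sector (h : Sym N R) {x y : ℝ} (hx : 0 ≤ x) (hy : 0 ≤ y) (z : V) :
    (x ^ 2 + x * y + y ^ 2) * N z ≤ (x + y) * N (x • z + y • R z) := by
  set w := x • z + y • R z with hw
  have e : (x ^ 2 + x * y + y ^ 2) • z = x • w + y • (w - R w) := by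
    rw [hw]
    simp only [map_add, map_smul, h.sq]
    module
  have h1 : N ((x ^ 2 + x * y + y ^ 2) • z) = (x ^ 2 + x * y + y ^ 2) * N z := by
    rw [map_smul_eq_mul, Real.norm_of_nonneg (by positivity)]
  rw [← h1, e]
  calc N (x • w + y • (w - R w)) ≤ N (x • w) + N (y • (w - R w)) := map_add_le_add N _ _
    _ = x * N w + y * N w := by
        rw [map_smul_eq_mul, map_smul_eq_mul, Real.norm_of_nonneg hx, Real.norm_of_nonneg hy,
          N_sub h]
    _ = (x + y) * N w := by ring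

lemma low1 (h : Sym N R) {x y : ℝ} (hx : 0 ≤ x) (hy : 0 ≤ y) (z : V) :
    3 / 4 * (x ^ 2 + x * y + y ^ 2) * N z ^ 2 ≤ N (x • z + y • R z) ^ 2 := by
  have h1 := sector h hx hy z
  set W := N (x • z + y • R z) with hW
  have hW0 : 0 ≤ W := apply_nonneg N _
  have hz0 : 0 ≤ N z := apply_nonneg N _
  have hD : 0 ≤ x ^ 2 + x * y + y ^ 2 := by positivity
  rcases hD.eq_or_lt with h0 | h0
  · rw [← h0]; simp; positivity
  · have h2 : ((x ^ 2 + x * y + y ^ 2) * N z) ^ 2 ≤ ((x + y) * W) ^ 2 :=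
      pow_le_pow_left₀ (by positivity) h1 2
    have h3 : (x + y) ^ 2 ≤ 4 / 3 * (x ^ 2 + x * y + y ^ 2) := by nlinarith [sq_nonneg (x - y)]
    have h4 : ((x + y) * W) ^ 2 ≤ 4 / 3 * (x ^ 2 + x * y + y ^ 2) * W ^ 2 := by
      rw [mul_pow]; exact mul_le_mul_of_nonneg_right h3 (by positivity)
    have h5 : (x ^ 2 + x * y + y ^ 2) * (3 / 4 * (x ^ 2 + x * y + y ^ 2) * N z ^ 2)
        ≤ (x ^ 2 + x * y + y ^ 2) * W ^ 2 := by
      have := h2.trans h4
      nlinarith
    exact le_of_mul_le_mul_left h5 h0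

lemma low2 (h : Sym N R) {x y : ℝ} (hx : 0 ≤ x) (hy : y ≤ 0) (z : V) :
    3 / 4 * (x ^ 2 + x * y + y ^ 2) * N z ^ 2 ≤ N (x • z + y • R z) ^ 2 := by
  rcases le_total (-y) x with hc | hc
  · have h1 := low1 h (x := -y) (y := x + y) (by linarith) (by linarith) (z - R z)
    have e : (-y) • (z - R z) + (x + y) • R (z - R z) = x • z + y • R z := by
      simp only [map_sub, h.sq]
      module
    rw [e, N_sub h] at h1
    refine le_trans (le_of_eq ?_) h1
    ring
  · have h1 := low1 h (x := -y - x) (y := x) (by linarith) hx (R z)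
    have e : (-y - x) • R z + x • R (R z) = -(x • z + y • R z) := by
      simp only [h.sq]
      module
    rw [e, map_neg_eq_map, h.inv] at h1
    refine le_trans (le_of_eq ?_) h1
    ring

/-- `N ((x + y R) z) ≥ (√3/2) |x + y ω| N z`. -/
lemma low (h : Sym N R) (x y : ℝ) (z : V) :
    3 / 4 * (x ^ 2 + x * y + y ^ 2) * N z ^ 2 ≤ N (x • z + y • R z) ^ 2 := by
  have hneg : N ((-x) • z + (-y) • R z) = N (x • z + y • R z) := by
    rw [show (-x) • z + (-y) • R z = -(x • z + y • R z) by module, map_neg_eq_map]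
  rcases le_total 0 x with hx | hx
  · rcases le_total 0 y with hy | hy
    · exact low1 h hx hy z
    · exact low2 h hx hy z
  · rcases le_total 0 y with hy | hy
    · have h1 := low2 h (x := -x) (y := -y) (by linarith) (by linarith) z
      rw [hneg] at h1
      refine le_trans (le_of_eq ?_) h1
      ring
    · have h1 := low1 h (x := -x) (y := -y) (by linarith) (by linarith) z
      rw [hneg] at h1
      refine le_trans (le_of_eq ?_) h1
      ring

/-- The parameters: `λ = a ω - c` is the complex conjugate of `ρ`. -/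
structure Par (ρ a c : ℝ) : Prop where
  hρ : ρ ^ 3 = ρ + 1
  a0 : 0 < a
  a2 : a ^ 2 = ρ ^ 2 - 4 / 3
  c2 : 2 * c = ρ + a

lemma exists_par {ρ : ℝ} (hρ : ρ ^ 3 = ρ + 1) : ∃ a c, Par ρ a c := by
  obtain ⟨s1, s2⟩ := rho_sq_bounds hρ
  have h0 : 0 < ρ ^ 2 - 4 / 3 := by linarith
  refine ⟨Real.sqrt (ρ ^ 2 - 4 / 3), (ρ + Real.sqrt (ρ ^ 2 - 4 / 3)) / 2, hρ, Real.sqrt_pos.mpr h0,
    Real.sq_sqrt h0.le, by ring⟩

variable {ρ a c : ℝ}

lemma Par.c2' (P : Par ρ a c) : c ^ 2 = ρ * c - 1 / 3 := by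
  have h1 := P.a2
  have h2 : a = 2 * c - ρ := by linarith [P.c2]
  rw [h2] at h1
  nlinarith

lemma Par.bd (P : Par ρ a c) : 0 < c - a ∧ 0 < c ∧ c < 0.99 := by
  obtain ⟨r1, r2⟩ := rho_bounds P.hρ
  obtain ⟨s1, s2⟩ := rho_sq_bounds P.hρ
  have h1 : a < 0.65 := by
    have := P.a2
    by_contra hcon
    push Not at hcon
    nlinarith [P.a0]
  have h2 := P.c2
  refine ⟨by linarith, by linarith [P.a0], by linarith⟩

/-- The operator `Λ`. -/
noncomputable def Lam (R : V →ₗ[ℝ] V) (a c : ℝ) (y : V) : V := a • R y - c • y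

lemma Lam_add (y z : V) : Lam R a c (y + z) = Lam R a c y + Lam R a c z := by
  unfold Lam; rw [map_add]; module

lemma Lam_smul (s : ℝ) (y : V) : Lam R a c (s • y) = s • Lam R a c y := by
  unfold Lam; rw [map_smul]; module

lemma Lam_Lam (h : Sym N R) (P : Par ρ a c) (y : V) :
    Lam R a c (Lam R a c y) = -(ρ • Lam R a c y) - (ρ ^ 2 - 1) • y := by
  unfold Lam
  simp only [map_sub, map_smul, h.sq]
  have h1 := P.a2
  have h2 := P.c2
  match_scalars
  · linear_combination (-a) * h2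
  · linear_combination P.c2' - h1

/-- `Λ` is a contraction. -/
lemma Lam_le (h : Sym N R) (P : Par ρ a c) (y : V) : N (Lam R a c y) ≤ c * N y := by
  obtain ⟨b0, b1, b2⟩ := P.bd
  have e : Lam R a c y = a • R (R y) + (-(c - a)) • y := by
    unfold Lam
    rw [h.sq]
    module
  rw [e]
  calc N (a • R (R y) + (-(c - a)) • y) ≤ N (a • R (R y)) + N ((-(c - a)) • y) :=
        map_add_le_add N _ _
    _ = a * N y + (c - a) * N y := by
        rw [map_smul_eq_mul, map_smul_eq_mul, h.inv, h.inv, Real.norm_of_nonneg P.a0.le,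
          Real.norm_eq_abs, abs_neg, abs_of_pos b0]
    _ = c * N y := by ring

/-- The image of `X + Y ρ + Z ρ²` in the plane, with base vector `y`. -/
noncomputable def E (R : V →ₗ[ℝ] V) (ρ a c : ℝ) (y : V) (v : ℤ × ℤ × ℤ) : V :=
  ((v.1 : ℝ) - (ρ ^ 2 - 1) * v.2.2) • y + ((v.2.1 : ℝ) - ρ * v.2.2) • Lam R a c y

lemma E_U (h : Sym N R) (P : Par ρ a c) (y : V) (v : ℤ × ℤ × ℤ) :
    E R ρ a c y (U v) = E R ρ a c (Lam R a c y) v := by
  have h1 := Lam_Lam h P y
  have h2 := P.hρ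
  unfold E U
  rw [h1]
  simp only
  push_cast
  match_scalars
  · linear_combination (-(v.2.2 : ℝ)) * h2
  · ring

lemma E_low (h : Sym N R) (P : Par ρ a c) (y : V) (v : ℤ × ℤ × ℤ) :
    3 / 4 * Q ρ v.1 v.2.1 v.2.2 * N y ^ 2 ≤ N (E R ρ a c y v) ^ 2 := by
  obtain ⟨X, Y, Z⟩ := v
  have e : E R ρ a c y (X, Y, Z) = (((X : ℝ) - (ρ ^ 2 - 1) * Z) - c * (Y - ρ * Z)) • y
      + (a * (Y - ρ * Z)) • R y := by
    unfold E Lam
    simp only
    module
  rw [e]
  refine le_trans (le_of_eq ?_) (low h _ _ y)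
  congr 2
  unfold Q
  simp only
  have h1 := P.a2
  have h2 := P.c2
  have h3 := P.hρ
  have h4 := P.c2'
  have e1 : c ^ 2 - a * c + a ^ 2 = ρ ^ 2 - 1 := by
    have ha : a = 2 * c - ρ := by linarith
    linear_combination h1 + (-c) * ha - h4
  linear_combination (-(Y - ρ * Z : ℝ) ^ 2) * e1
    + (((X : ℝ) - (ρ ^ 2 - 1) * Z) * (Y - ρ * Z)) * h2 - ((ρ * Z ^ 2 - Y * Z : ℝ)) * h3

end Pool.Agent.Work.MP_7453a1_nt_sym.UPAux
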