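import Pool.Agent.Work.MP_7453a1_nt_sym.UPa

set_option autoImplicit false

/-!
Block UP: lattice points in a small cylinder, the chain of powers of `ρ`, and the growth lemma.
-/

namespace Pool.Agent.Work.MP_7453a1_nt_sym.UPAux

open Pool.Agent.Work.MP_7453a1_nt_norm Pool.Agent.Work.MP_7453a1_nt_sym Filter Topology
open scoped ENNReal
open Pool.Agent.Work.MP_7453a1_nt (L Q Nf U zv L_U Q_U L_zv Q_zv L_mul_Q Nf_eq_zero rho_bounds
  rho_sq_bounds Q_sq mul_bd)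

variable {N : Seminorm ℝ V} {R : V →ₗ[ℝ] V} {ρ a c : ℝ}

/-- Bounds on the integer coordinates of lattice points in a small cylinder. -/
lemma small_bound5 {ρ : ℝ} (hρ : ρ ^ 3 = ρ + 1) (X Y Z : ℤ) (hL : |L ρ X Y Z| ≤ 1.02)
    (hQ : Q ρ X Y Z ≤ 1.37) : (-2 < Z ∧ Z < 2) ∧ (-4 < Y ∧ Y < 4) ∧ (-4 < X ∧ X < 4) := by
  obtain ⟨r1, r2⟩ := rho_bounds hρ
  obtain ⟨s1, s2⟩ := rho_sq_bounds hρ
  have hsq := Q_sq hρ X Y Z
  set P : ℝ := Y - ρ * Z with hP
  set T : ℝ := 2 * X - ρ * Y + (2 - ρ ^ 2) * Z with hT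
  have hP0 : 0 ≤ P ^ 2 := sq_nonneg P
  have hT0 : 0 ≤ T ^ 2 := sq_nonneg T
  have hP2 : P ^ 2 < 2.09 ^ 2 := by
    have h1 : 1.264 * P ^ 2 ≤ (3 * ρ ^ 2 - 4) * P ^ 2 :=
      mul_le_mul_of_nonneg_right (by linarith) hP0
    linarith
  have hT2 : T ^ 2 < 2.35 ^ 2 := by
    have h1 : 0 ≤ (3 * ρ ^ 2 - 4) * P ^ 2 := mul_nonneg (by linarith) hP0
    linarith
  obtain ⟨p1, p2⟩ := abs_lt_of_sq_lt_sq' hP2 (by norm_num)
  obtain ⟨q1, q2⟩ := abs_lt_of_sq_lt_sq' hT2 (by norm_num)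
  rw [abs_le] at hL
  obtain ⟨l1, l2⟩ := hL
  have hLT : 2 * L ρ X Y Z - T = 3 * (ρ * P) + (6 * ρ ^ 2 - 2) * Z := by
    rw [hP, hT]; unfold L; ring
  obtain ⟨a1, a2⟩ := mul_bd (r := ρ) (M := 1.3248) (by linarith) r2.le p1.le p2.le
  have hZ1 : (Z : ℝ) < 2 := by
    by_contra hcon
    push Not at hcon
    have : 8.5 * 2 ≤ (6 * ρ ^ 2 - 2) * Z :=
      mul_le_mul (by linarith) hcon (by norm_num) (by linarith)
    linarith
  have hZ2 : (-2 : ℝ) < Z := by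
    by_contra hcon
    push Not at hcon
    have : 8.5 * 2 ≤ (6 * ρ ^ 2 - 2) * (-Z) :=
      mul_le_mul (by linarith) (by linarith) (by norm_num) (by linarith)
    linarith
  have hZ1' : Z < 2 := by exact_mod_cast hZ1
  have hZ2' : -2 < Z := by exact_mod_cast hZ2
  have hZ3 : (Z : ℝ) ≤ 1 := by exact_mod_cast (by omega : Z ≤ 1)
  have hZ4 : (-1 : ℝ) ≤ Z := by exact_mod_cast (by omega : -1 ≤ Z)
  obtain ⟨b1, b2⟩ := mul_bd (r := ρ) (M := 1.3248) (by linarith) r2.le hZ4 hZ3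
  have hY1 : (Y : ℝ) < 4 := by linarith
  have hY2 : (-4 : ℝ) < Y := by linarith
  have hY1' : Y < 4 := by exact_mod_cast hY1
  have hY2' : -4 < Y := by exact_mod_cast hY2
  have hY3 : (Y : ℝ) ≤ 3 := by exact_mod_cast (by omega : Y ≤ 3)
  have hY4 : (-3 : ℝ) ≤ Y := by exact_mod_cast (by omega : -3 ≤ Y)
  obtain ⟨c1, c2⟩ := mul_bd (r := ρ) (M := 1.3248) (by linarith) r2.le hY4 hY3
  obtain ⟨d1, d2⟩ := mul_bd (r := 2 - ρ ^ 2) (M := 0.2452) (by linarith) (by linarith) hZ4 hZ3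
  have hX1 : (X : ℝ) < 4 := by linarith
  have hX2 : (-4 : ℝ) < X := by linarith
  have hX1' : X < 4 := by exact_mod_cast hX1
  have hX2' : -4 < X := by exact_mod_cast hX2
  exact ⟨⟨hZ2', hZ1'⟩, ⟨hY2', hY1'⟩, hX2', hX1'⟩

set_option maxHeartbeats 4000000 in
/-- The only lattice points in a small cylinder. -/
lemma small5 {ρ : ℝ} (hρ : ρ ^ 3 = ρ + 1) (X Y Z : ℤ) (hL : |L ρ X Y Z| ≤ 1.02)
    (hQ : Q ρ X Y Z ≤ 1.37) :
    (X = 0 ∧ Y = 0 ∧ Z = 0) ∨ (X = 1 ∧ Y = 0 ∧ Z = 0) ∨ (X = -1 ∧ Y = 0 ∧ Z = 0) ∨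
      (X = -1 ∧ Y = 0 ∧ Z = 1) ∨ (X = 1 ∧ Y = 0 ∧ Z = -1) := by
  obtain ⟨r1, r2⟩ := rho_bounds hρ
  obtain ⟨s1, s2⟩ := rho_sq_bounds hρ
  obtain ⟨⟨z1, z2⟩, ⟨y1, y2⟩, x1, x2⟩ := small_bound5 hρ X Y Z hL hQ
  rw [abs_le] at hL
  obtain ⟨l1, l2⟩ := hL
  unfold L at l1 l2
  unfold Q at hQ
  clear hρ
  generalize ρ ^ 2 = s at *
  interval_cases Z <;> interval_cases Y <;> norm_num at l1 l2 hQ <;> interval_cases X <;>
    first
    | (exfalso; push_cast at l1 l2; linarith)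
    | (exfalso; push_cast at l1 l2 hQ; linarith)
    | simp

lemma U_surj (v : ℤ × ℤ × ℤ) : U (v.2.1 - v.1, v.2.2, v.1) = v := by
  obtain ⟨X, Y, Z⟩ := v
  simp [U]

lemma exists_iter (k : ℕ) : ∀ v : ℤ × ℤ × ℤ, ∃ η : ℤ × ℤ × ℤ, U^[k] η = v := by
  induction k with
  | zero => intro v; exact ⟨v, rfl⟩
  | succ k ih =>
    intro v
    obtain ⟨η, hη⟩ := ih (v.2.1 - v.1, v.2.2, v.1)
    exact ⟨η, by rw [Function.iterate_succ_apply', hη, U_surj]⟩

lemma zv_iter (k : ℕ) : zv k = U^[k] (1, 0, 0) := by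
  induction k with
  | zero => rfl
  | succ k ih => rw [Function.iterate_succ_apply', ← ih]; rfl

/-- `L` of a triple. -/
def LL (ρ : ℝ) (v : ℤ × ℤ × ℤ) : ℝ := L ρ v.1 v.2.1 v.2.2

lemma LL_iter (hρ : ρ ^ 3 = ρ + 1) (k : ℕ) (v : ℤ × ℤ × ℤ) :
    LL ρ (U^[k] v) = ρ ^ k * LL ρ v := by
  induction k with
  | zero => simp
  | succ k ih =>
    rw [Function.iterate_succ_apply']
    have h1 : LL ρ (U (U^[k] v)) = ρ * LL ρ (U^[k] v) := L_U hρ _ _ _
    rw [h1, ih, pow_succ]; ring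

lemma LL_zv (hρ : ρ ^ 3 = ρ + 1) (k : ℕ) : LL ρ (zv k) = ρ ^ k := L_zv hρ k

lemma E_iter (h : Sym N R) (P : Par ρ a c) (k : ℕ) : ∀ (y : V) (v : ℤ × ℤ × ℤ),
    E R ρ a c y (U^[k] v) = E R ρ a c ((Lam R a c)^[k] y) v := by
  induction k with
  | zero => intro y v; rfl
  | succ k ih =>
    intro y v
    rw [Function.iterate_succ_apply, ih, E_U h P, Function.iterate_succ_apply']

lemma E_one (y : V) : E R ρ a c y (1, 0, 0) = y := by
  unfold E
  simp

lemma E_mu (h : Sym N R) (P : Par ρ a c) (y : V) : Lam R a c (E R ρ a c y (-1, 0, 1)) = y := by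
  have e : Lam R a c (E R ρ a c y (-1, 0, 1)) = E R ρ a c (Lam R a c y) (-1, 0, 1) := by
    unfold E
    rw [Lam_add, Lam_smul, Lam_smul]
  rw [e, ← E_U h P, show U (-1, 0, 1) = (1, 0, 0) by decide, E_one]

lemma E_neg (y : V) (v : ℤ × ℤ × ℤ) : E R ρ a c y (-v) = -E R ρ a c y v := by
  unfold E
  simp only [Prod.fst_neg, Prod.snd_neg]
  push_cast
  module

lemma N_pos (hN : IsNorm N) {y : V} (hy : y ≠ 0) : 0 < N y :=
  lt_of_le_of_ne (apply_nonneg N y) fun h => hy (hN y h.symm)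

lemma Lam_ne (hN : IsNorm N) (h : Sym N R) (P : Par ρ a c) {y : V} (hy : y ≠ 0) :
    Lam R a c y ≠ 0 := by
  intro h0
  have h1 := low h (-c) a y
  have e : (-c) • y + a • R y = Lam R a c y := by unfold Lam; module
  rw [e, h0, map_zero] at h1
  have h2 := N_pos hN hy
  have h3 : 0 < (-c) ^ 2 + -c * a + a ^ 2 := by
    have := P.a0
    have := P.bd.2.1
    nlinarith [sq_nonneg (2 * a - c)]
  have : 0 < 3 / 4 * ((-c) ^ 2 + -c * a + a ^ 2) * N y ^ 2 := by positivity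
  simp at h1
  linarith

lemma iter_ne (hN : IsNorm N) (h : Sym N R) (P : Par ρ a c) {y : V} (hy : y ≠ 0) (k : ℕ) :
    (Lam R a c)^[k] y ≠ 0 := by
  induction k with
  | zero => exact hy
  | succ k ih => rw [Function.iterate_succ_apply']; exact Lam_ne hN h P ih

lemma N_iter_le (h : Sym N R) (P : Par ρ a c) (y : V) (k : ℕ) :
    N ((Lam R a c)^[k + 1] y) ≤ c * N ((Lam R a c)^[k] y) := by
  rw [Function.iterate_succ_apply']; exact Lam_le h P _

lemma N_iter_le' (h : Sym N R) (P : Par ρ a c) (y : V) (k : ℕ) :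
    N ((Lam R a c)^[k] y) ≤ N y := by
  induction k with
  | zero => exact le_rfl
  | succ k ih =>
    refine (N_iter_le h P y k).trans (le_trans ?_ ih)
    have := P.bd.2.2
    have h1 : 0 ≤ N ((Lam R a c)^[k] y) := apply_nonneg N _
    nlinarith

/-- The only lattice points in the `k`-th cylinder. -/
lemma chain (hN : IsNorm N) (h : Sym N R) (P : Par ρ a c) {y : V} (hy : y ≠ 0) (k : ℕ)
    (v : ℤ × ℤ × ℤ) (hL : |LL ρ v| ≤ 1.02 * ρ ^ k)
    (hE : N (E R ρ a c y v) ≤ 1.005 * N (E R ρ a c y (zv k))) :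
    v = 0 ∨ v = zv k ∨ v = -zv k := by
  have hρ := P.hρ
  have hρ0 : 0 < ρ := by linarith [(rho_bounds hρ).1]
  obtain ⟨η, rfl⟩ := exists_iter k v
  set w := (Lam R a c)^[k] y with hw
  have hw0 : 0 < N w := N_pos hN (iter_ne hN h P hy k)
  rw [zv_iter, E_iter h P, E_iter h P, E_one, ← hw] at hE
  rw [LL_iter hρ, abs_mul, abs_of_pos (by positivity : 0 < ρ ^ k)] at hL
  have hL' : |LL ρ η| ≤ 1.02 := by
    have : ρ ^ k * |LL ρ η| ≤ ρ ^ k * 1.02 := by linarith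
    exact le_of_mul_le_mul_left this (by positivity)
  have h1 := E_low h P w η
  have h2 : N (E R ρ a c w η) ^ 2 ≤ (1.005 * N w) ^ 2 :=
    pow_le_pow_left₀ (apply_nonneg N _) hE 2
  have h3 : Q ρ η.1 η.2.1 η.2.2 ≤ 1.37 := by
    have h4 : 3 / 4 * Q ρ η.1 η.2.1 η.2.2 * N w ^ 2 ≤ 1.005 ^ 2 * N w ^ 2 := by
      rw [← mul_pow]; exact h1.trans h2
    have h5 : 3 / 4 * Q ρ η.1 η.2.1 η.2.2 ≤ 1.005 ^ 2 :=
      le_of_mul_le_mul_right h4 (by positivity)
    norm_num at h5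
    linarith
  have key : ∀ ζ : ℤ × ℤ × ℤ, N (E R ρ a c w ζ) ≤ 1.005 * N w → ζ ≠ (-1, 0, 1) := by
    rintro ζ hζ rfl
    have h6 := Lam_le h P (E R ρ a c w (-1, 0, 1))
    rw [E_mu h P] at h6
    have := P.bd
    nlinarith
  rcases small5 hρ _ _ _ hL' h3 with ⟨x, y', z⟩ | ⟨x, y', z⟩ | ⟨x, y', z⟩ | ⟨x, y', z⟩ | ⟨x, y', z⟩
  · left
    have : η = 0 := Prod.ext x (Prod.ext y' z)
    rw [this]
    have hU0 : ∀ j : ℕ, U^[j] (0 : ℤ × ℤ × ℤ) = 0 := by
      intro j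
      induction j with
      | zero => rfl
      | succ j ih => rw [Function.iterate_succ_apply', ih]; rfl
    exact hU0 k
  · right; left
    have : η = (1, 0, 0) := Prod.ext x (Prod.ext y' z)
    rw [this, zv_iter]
  · right; right
    have : η = -(1, 0, 0) := Prod.ext x (Prod.ext (by simpa using y') (by simpa using z))
    rw [this, zv_iter]
    have hUn : ∀ (j : ℕ) (u : ℤ × ℤ × ℤ), U^[j] (-u) = -U^[j] u := by
      intro j
      induction j with
      | zero => intro u; rfl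
      | succ j ih =>
        intro u
        rw [Function.iterate_succ_apply', Function.iterate_succ_apply', ih]
        obtain ⟨x, y, z⟩ := U^[j] u
        simp [U]
        omega
    exact hUn k _
  · exact absurd (Prod.ext x (Prod.ext y' z)) (key η hE)
  · exfalso
    refine key (-η) ?_ ?_
    · rw [E_neg, map_neg_eq_map]; exact hE
    · exact Prod.ext (by simp [x]) (Prod.ext (by simp [y']) (by simp [z]))

/-- A strictly increasing sequence of best approximation denominators with geometric growth. -/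
lemma G_le_of_chain (hN : IsNorm N) {Θ : V} {ρ C : ℝ} (hρ : 0 < ρ) (hC : 0 < C) (b : ℕ → ℕ)
    (hb : StrictMono b) (hbest : ∀ j, IsBestDenominator N Θ (b j))
    (hle : ∀ j, (b j : ℝ) ≤ C * ρ ^ j) : G N Θ ≤ ENNReal.ofReal ρ := by
  classical
  have hinf : {m : ℕ | IsBestDenominator N Θ m}.Infinite := by
    apply Set.Infinite.mono (s := Set.range b)
    · rintro _ ⟨j, rfl⟩
      exact hbest j
    · exact Set.infinite_range_of_injective hb.injective
  have hcount : ∀ i : ℕ, i ≤ Nat.count (IsBestDenominator N Θ) (b i) := by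
    intro i
    induction i with
    | zero => exact Nat.zero_le _
    | succ i ih =>
      calc i + 1 ≤ Nat.count (IsBestDenominator N Θ) (b i) + 1 := by omega
        _ = Nat.count (IsBestDenominator N Θ) (b i + 1) := by
          rw [Nat.count_succ, if_pos (hbest i)]
        _ ≤ Nat.count (IsBestDenominator N Θ) (b (i + 1)) :=
          Nat.count_monotone _ (hb (by omega : i < i + 1))
  have hnth : ∀ j, Nat.nth (IsBestDenominator N Θ) j ≤ b j := by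
    intro j
    calc Nat.nth (IsBestDenominator N Θ) j
        ≤ Nat.nth (IsBestDenominator N Θ) (Nat.count (IsBestDenominator N Θ) (b j)) :=
          Nat.nth_monotone hinf (hcount j)
      _ = b j := Nat.nth_count (hbest j)
  have hM : ∀ ν : ℕ, 1 ≤ ν → (M N Θ ν : ℝ) ≤ C / ρ * ρ ^ ν := by
    intro ν hν
    have h1 : (M N Θ ν : ℝ) ≤ (b (ν - 1) : ℝ) := by exact_mod_cast hnth (ν - 1)
    refine h1.trans ((hle (ν - 1)).trans (le_of_eq ?_))
    obtain ⟨j, rfl⟩ : ∃ j, ν = j + 1 := ⟨ν - 1, by omega⟩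
    rw [show j + 1 - 1 = j by omega, pow_succ]
    field_simp
  have hC' : 0 < C / ρ := by positivity
  have hlim : Tendsto (fun ν : ℕ => ENNReal.ofReal ((C / ρ) ^ (1 / (ν : ℝ)) * ρ)) atTop
      (𝓝 (ENNReal.ofReal ρ)) := by
    apply ENNReal.tendsto_ofReal
    have h1 : Tendsto (fun ν : ℕ => (C / ρ : ℝ) ^ (1 / (ν : ℝ))) atTop
        (𝓝 ((C / ρ : ℝ) ^ (0 : ℝ))) := by
      apply Tendsto.rpow tendsto_const_nhds tendsto_one_div_atTop_nhds_zero_nat
      left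
      positivity
    rw [Real.rpow_zero] at h1
    simpa using h1.mul_const ρ
  rw [← hlim.liminf_eq]
  unfold G
  refine liminf_le_liminf ?_
  filter_upwards [eventually_ge_atTop 1] with ν hν
  apply ENNReal.ofReal_le_ofReal
  have hν0 : (0 : ℝ) < ν := by exact_mod_cast hν
  calc (M N Θ ν : ℝ) ^ (1 / (ν : ℝ)) ≤ (C / ρ * ρ ^ ν) ^ (1 / (ν : ℝ)) :=
        Real.rpow_le_rpow (Nat.cast_nonneg _) (hM ν hν) (by positivity)
    _ = (C / ρ) ^ (1 / (ν : ℝ)) * ρ := by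
      rw [Real.mul_rpow (by positivity) (by positivity)]
      congr 1
      rw [one_div, Real.pow_rpow_inv_natCast hρ.le (by omega)]

end Pool.Agent.Work.MP_7453a1_nt_sym.UPAux
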